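import Pool.Agent.H164.GW.Four

/-!
# The average of the error term over the coefficients
-/

set_option autoImplicit false

open MeasureTheory Finset Filter Topology
open scoped ENNReal

namespace Pool.Agent.H164.GW

/-- the uniform measure on the box `[a, b] ^ s` -/
noncomputable def boxM (s : ℕ) (a b : ℝ) : Measure (Fin s → ℝ) :=
  Measure.pi fun _ : Fin s => (volume : Measure ℝ).restrict (Set.Icc a b)

/-- the first moment -/
noncomputable def E (k N M : ℕ) (a b ξ : ℝ) : ℝ := ∫ θ in Set.Icc a b, ‖F k N M θ ξ‖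

lemma E_nonneg (k N M : ℕ) (a b ξ : ℝ) : 0 ≤ E k N M a b ξ :=
  integral_nonneg fun _ => norm_nonneg _

lemma prod_avg {s k N M : ℕ} (a b ξ : ℝ) :
    ∫⁻ θ, ENNReal.ofReal (∏ i, ‖F k N M (θ i) ξ‖) ∂(boxM s a b) =
      ENNReal.ofReal (E k N M a b ξ ^ s) := by
  have hc : Continuous fun θ : ℝ => ‖F k N M θ ξ‖ := by
    unfold F
    fun_prop
  have : IsFiniteMeasure (boxM s a b) := by
    unfold boxM
    infer_instance
  rw [← ofReal_integral_eq_lintegral_ofReal]
  · unfold boxM E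
    rw [integral_fintype_prod_eq_pow (fun θ => ‖F k N M θ ξ‖), Fintype.card_fin]
  · refine Integrable.of_bound (Continuous.aestronglyMeasurable ?_) ((M : ℝ) ^ s)
      (ae_of_all _ fun θ => ?_)
    · exact continuous_finsetProd _ fun i _ => hc.comp (continuous_apply i)
    · rw [Real.norm_of_nonneg (prod_nonneg fun i _ => norm_nonneg _)]
      calc ∏ i, ‖F k N M (θ i) ξ‖ ≤ ∏ _i : Fin s, (M : ℝ) :=
            prod_le_prod (fun i _ => norm_nonneg _) fun i _ => F_norm_le _ _ _ _ _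
        _ = (M : ℝ) ^ s := by rw [prod_const, card_univ, Fintype.card_fin]
  · exact ae_of_all _ fun θ => prod_nonneg fun i _ => norm_nonneg _

lemma lint_G {ε : ℝ} (hε : 0 < ε) : ∫⁻ ξ : ℝ, ENNReal.ofReal (G ε ξ) = 1 := by
  rw [← ofReal_integral_eq_lintegral_ofReal (G_int hε) (ae_of_all _ (G_nonneg hε))]
  have : ∫ ξ : ℝ, G ε ξ = 1 := by
    unfold G
    rw [integral_const_mul, integral_gaussian]
    have e : Real.pi / (Real.pi * ε ^ 2) = (1 / ε) ^ 2 := by
      have := Real.pi_ne_zero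
      field_simp
    rw [e, Real.sqrt_sq (by positivity), mul_one_div_cancel hε.ne']
  rw [this, ENNReal.ofReal_one]

lemma avg {s k N M : ℕ} {ε H a b τ ρ A1 A2 A3 : ℝ} (hε : 0 < ε) (hε1 : ε ≤ 1) (hH : ε ≤ H)
    (hτ : 0 ≤ τ) (hρ : 0 ≤ ρ) (hA1 : 0 ≤ A1) (hA2 : 0 ≤ A2) (hA3 : 0 ≤ A3)
    (h1 : ∀ ξ : ℝ, |ξ| ≤ τ → g ε H ξ * E k N M a b ξ ^ s ≤ A1)
    (h2 : ∀ ξ : ℝ, τ < |ξ| → |ξ| ≤ ρ → E k N M a b ξ ^ s ≤ A2)
    (h3 : ∀ ξ : ℝ, τ < |ξ| → ρ < |ξ| → E k N M a b ξ ^ s ≤ A3) :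
    ∫⁻ θ, Err k N M ε H θ ∂(boxM s a b) ≤ ENNReal.ofReal (2 * τ * A1 + 2 * ρ * A2 + A3) := by
  have hH0 : 0 < H := hε.trans_le hH
  have : IsFiniteMeasure (boxM s a b) := by
    unfold boxM
    infer_instance
  unfold Err
  rw [lintegral_lintegral_swap]
  swap
  · refine Measurable.aemeasurable ?_
    refine ENNReal.measurable_ofReal.comp (Continuous.measurable ?_)
    have hg : Continuous fun p : (Fin s → ℝ) × ℝ => g ε H p.2 := g_cont.comp continuous_snd
    refine hg.mul (continuous_finsetProd _ fun i _ => ?_)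
    have h4 : Continuous fun p : (Fin s → ℝ) × ℝ => ((p.1 i, p.2) : ℝ × ℝ) := by fun_prop
    exact ((F_cont k N M).comp h4).norm
  have h5 : ∀ ξ : ℝ, ∫⁻ θ, ENNReal.ofReal (g ε H ξ * ∏ i, ‖F k N M (θ i) ξ‖) ∂(boxM s a b) =
      ENNReal.ofReal (g ε H ξ * E k N M a b ξ ^ s) := by
    intro ξ
    have hg0 := g_nonneg hε hH ξ
    simp_rw [ENNReal.ofReal_mul hg0]
    rw [lintegral_const_mul' _ _ ENNReal.ofReal_ne_top, prod_avg]
  simp_rw [h5]
  have h6 : ∀ ξ : ℝ, ENNReal.ofReal (g ε H ξ * E k N M a b ξ ^ s) ≤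
      (Set.Icc (-τ) τ).indicator (fun _ => ENNReal.ofReal A1) ξ +
      (Set.Icc (-ρ) ρ).indicator (fun _ => ENNReal.ofReal A2) ξ +
      ENNReal.ofReal A3 * ENNReal.ofReal (G ε ξ) := by
    intro ξ
    have hg0 := g_nonneg hε hH ξ
    have hE0 : 0 ≤ E k N M a b ξ ^ s := pow_nonneg (E_nonneg _ _ _ _ _ _) _
    by_cases hc1 : |ξ| ≤ τ
    · have : ξ ∈ Set.Icc (-τ) τ := abs_le.1 hc1
      rw [Set.indicator_of_mem this, add_assoc]
      exact (ENNReal.ofReal_le_ofReal (h1 ξ hc1)).trans le_self_add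
    · rw [not_le] at hc1
      by_cases hc2 : |ξ| ≤ ρ
      · have : ξ ∈ Set.Icc (-ρ) ρ := abs_le.1 hc2
        rw [Set.indicator_of_mem this]
        have h7 : g ε H ξ * E k N M a b ξ ^ s ≤ A2 := by
          calc g ε H ξ * E k N M a b ξ ^ s ≤ 1 * E k N M a b ξ ^ s :=
                mul_le_mul_of_nonneg_right (g_le_one hε hε1 hH0 ξ) hE0
            _ ≤ A2 := by rw [one_mul]; exact h2 ξ hc1 hc2
        refine (ENNReal.ofReal_le_ofReal h7).trans ?_
        exact (le_add_left (le_refl _)).trans le_self_add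
      · rw [not_le] at hc2
        have h8 : g ε H ξ * E k N M a b ξ ^ s ≤ A3 * G ε ξ := by
          rw [mul_comm A3]
          exact mul_le_mul (g_le_G hε hH0 ξ) (h3 ξ hc1 hc2) hE0 (G_nonneg hε ξ)
        refine (ENNReal.ofReal_le_ofReal h8).trans ?_
        rw [ENNReal.ofReal_mul hA3]
        exact le_add_left (le_refl _)
  refine (lintegral_mono h6).trans ?_
  have hm1 : Measurable ((Set.Icc (-τ) τ).indicator (fun _ : ℝ => ENNReal.ofReal A1)) :=
    measurable_const.indicator measurableSet_Icc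
  have hm2 : Measurable ((Set.Icc (-ρ) ρ).indicator (fun _ : ℝ => ENNReal.ofReal A2)) :=
    measurable_const.indicator measurableSet_Icc
  have hm12 : Measurable fun ξ : ℝ => (Set.Icc (-τ) τ).indicator (fun _ : ℝ => ENNReal.ofReal A1) ξ +
      (Set.Icc (-ρ) ρ).indicator (fun _ : ℝ => ENNReal.ofReal A2) ξ := hm1.add hm2
  rw [lintegral_add_left hm12, lintegral_add_left hm1,
    lintegral_indicator_const measurableSet_Icc, lintegral_indicator_const measurableSet_Icc,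
    lintegral_const_mul' _ _ ENNReal.ofReal_ne_top, lint_G hε, mul_one, Real.volume_Icc,
    Real.volume_Icc, ← ENNReal.ofReal_mul hA1, ← ENNReal.ofReal_mul hA2,
    ← ENNReal.ofReal_add (by nlinarith) (by nlinarith), ← ENNReal.ofReal_add (by nlinarith) hA3]
  refine ENNReal.ofReal_le_ofReal (le_of_eq ?_)
  ring

end Pool.Agent.H164.GW
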