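import Pool.Agent.H164.GW.Coarse

/-!
# The bound for the average of the error term
-/

set_option autoImplicit false

open MeasureTheory Finset Filter Topology
open scoped ENNReal

namespace Pool.Agent.H164.GW

lemma E_triv {k N M : ℕ} {a b : ℝ} (hab : a ≤ b) (ξ : ℝ) : E k N M a b ξ ≤ (b - a) * M := by
  unfold E
  have hc : Continuous fun θ : ℝ => ‖F k N M θ ξ‖ := by
    unfold F
    fun_prop
  have h1 : ∫ θ in Set.Icc a b, ‖F k N M θ ξ‖ ≤ ∫ _θ in Set.Icc a b, (M : ℝ) :=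
    integral_mono hc.integrableOn_Icc (by simp) fun θ => F_norm_le _ _ _ _ _
  refine h1.trans (le_of_eq ?_)
  simp [hab]

lemma log_bound (s m : ℕ) (hs : 1 ≤ s) (hm : 1 ≤ m) : ∃ C : ℝ, 0 < C ∧ ∀ q : ℕ, 1 ≤ q →
    √(1 + Real.log ((m * q ^ 32 : ℕ) : ℝ)) ^ s ≤ C * (q : ℝ) ^ 2 := by
  have hs0 : (0 : ℝ) < s := by exact_mod_cast hs
  have hm0 : (0 : ℝ) < m := by exact_mod_cast hm
  have hlm : 0 ≤ Real.log m := Real.log_nonneg (by exact_mod_cast hm)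
  refine ⟨(1 + Real.log m + 16 * s) ^ s, by positivity, fun q hq => ?_⟩
  have hq1 : (1 : ℝ) ≤ q := by exact_mod_cast hq
  have hq0 : (0 : ℝ) < q := by linarith
  have hlq : 0 ≤ Real.log q := Real.log_nonneg hq1
  have e1 : Real.log ((m * q ^ 32 : ℕ) : ℝ) = Real.log m + 32 * Real.log q := by
    push_cast
    rw [Real.log_mul hm0.ne' (by positivity), Real.log_pow]
    push_cast
    ring
  have hδ : (0 : ℝ) < 2 / s := by positivity
  have h1 := Real.log_le_rpow_div hq0.le hδ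
  have h2 : (1 : ℝ) ≤ (q : ℝ) ^ (2 / (s : ℝ)) := Real.one_le_rpow hq1 hδ.le
  have h3 : (q : ℝ) ^ (2 / (s : ℝ)) / (2 / s) = s / 2 * (q : ℝ) ^ (2 / (s : ℝ)) := by
    field_simp
  rw [h3] at h1
  have hL1 : 1 ≤ 1 + Real.log ((m * q ^ 32 : ℕ) : ℝ) := by
    rw [e1]
    linarith
  have h4 : √(1 + Real.log ((m * q ^ 32 : ℕ) : ℝ)) ≤
      (1 + Real.log m + 16 * s) * (q : ℝ) ^ (2 / (s : ℝ)) := by
    have h5 : √(1 + Real.log ((m * q ^ 32 : ℕ) : ℝ)) ≤ 1 + Real.log ((m * q ^ 32 : ℕ) : ℝ) := by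
      rw [Real.sqrt_le_left (by linarith)]
      nlinarith
    refine h5.trans ?_
    rw [e1]
    nlinarith [mul_nonneg hlm (sub_nonneg.2 h2)]
  calc √(1 + Real.log ((m * q ^ 32 : ℕ) : ℝ)) ^ s
      ≤ ((1 + Real.log m + 16 * s) * (q : ℝ) ^ (2 / (s : ℝ))) ^ s :=
        pow_le_pow_left₀ (Real.sqrt_nonneg _) h4 s
    _ = _ := by
        rw [mul_pow, ← Real.rpow_natCast ((q : ℝ) ^ (2 / (s : ℝ))) s, ← Real.rpow_mul hq0.le,
          div_mul_cancel₀ _ hs0.ne']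
        congr 1
        exact_mod_cast Real.rpow_natCast (q : ℝ) 2

lemma Ubound {k s m : ℕ} (hk : 2 ≤ k) (hs : 2 * k + 1 ≤ s) (hm : 1 ≤ m) {a b : ℝ} (ha : 0 < a)
    (hab : a ≤ b) (hb : 1 ≤ b) : ∃ C : ℝ, 0 < C ∧ ∀ q : ℕ, 1 ≤ q →
    ∫⁻ θ, Err k (q ^ 32) (m * q ^ 32) (1 / (q : ℝ) ^ 2)
      (b * k * ((m : ℝ) * (q ^ 32 : ℕ)) ^ (k - 1)) θ ∂(boxM s a b) ≤
      ENNReal.ofReal (C * ((q : ℝ) ^ (32 * s) / ((q : ℝ) ^ (32 * k) * (q : ℝ) ^ 6))) := by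
  obtain ⟨C2, hC2, hlog⟩ := log_bound s m (by omega) hm
  obtain ⟨l, rfl⟩ : ∃ l, k = l + 1 := ⟨k - 1, by omega⟩
  have hm0 : (0 : ℝ) < m := by exact_mod_cast hm
  have hba : 0 ≤ b - a := sub_nonneg.2 hab
  have hb0 : 0 < b := by linarith
  set c3 : ℝ := (1 + (b - a)) * √(m * (1 + (b - a))) with hc3
  have hc30 : 0 < c3 := by positivity
  set C1 : ℝ := 2 * Real.pi * (b * (l + 1) * (m : ℝ) ^ l) ^ 2 * ((b - a) * m) ^ s with hC1
  have hC10 : 0 ≤ C1 := by positivity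
  refine ⟨C1 + 3 * (c3 ^ s * C2), by positivity, fun q hq => ?_⟩
  have hq1 : (1 : ℝ) ≤ q := by exact_mod_cast hq
  have hq0 : (0 : ℝ) < q := by linarith
  set M : ℕ := m * q ^ 32 with hM
  have hMpos : 1 ≤ M := by
    rw [hM]
    exact Nat.mul_pos hm (pow_pos hq 32)
  set L : ℝ := 1 + Real.log (M : ℝ) with hL
  have hL1 : 1 ≤ L := by
    have := Real.log_nonneg (x := (M : ℝ)) (by exact_mod_cast hMpos)
    rw [hL]
    linarith
  have hMr : (M : ℝ) = m * (q : ℝ) ^ 32 := by rw [hM]; push_cast; ring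
  set H : ℝ := b * ((l + 1 : ℕ) : ℝ) * ((m : ℝ) * (q ^ 32 : ℕ)) ^ (l + 1 - 1) with hH
  have hHe : H = (b * (l + 1) * (m : ℝ) ^ l) * (q : ℝ) ^ (32 * l) := by
    rw [hH, Nat.add_sub_cancel]
    push_cast
    rw [mul_pow, ← pow_mul]
    ring
  have hm1 : (1 : ℝ) ≤ m := by exact_mod_cast hm
  have hH1 : 1 ≤ H := by
    rw [hHe]
    have h1 : (1 : ℝ) ≤ (m : ℝ) ^ l := one_le_pow₀ hm1
    have h2 : (1 : ℝ) ≤ (q : ℝ) ^ (32 * l) := one_le_pow₀ hq1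
    have h3 : (1 : ℝ) ≤ b * (l + 1) := by
      have : (0 : ℝ) ≤ l := Nat.cast_nonneg l
      nlinarith
    exact one_le_mul_of_one_le_of_one_le (one_le_mul_of_one_le_of_one_le h3 h1) h2
  have hε0 : (0 : ℝ) < 1 / (q : ℝ) ^ 2 := by positivity
  have hε1 : 1 / (q : ℝ) ^ 2 ≤ 1 := by
    rw [div_le_one (by positivity)]
    exact one_le_pow₀ hq1
  set τ : ℝ := (q : ℝ) ^ 16 / (q : ℝ) ^ (32 * (l + 1)) with hτ
  set ρ : ℝ := 1 / (q : ℝ) ^ (32 * l) with hρ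
  have hτ0 : 0 < τ := by positivity
  have hρ0 : 0 < ρ := by positivity
  have hav := avg (s := s) (k := l + 1) (N := q ^ 32) (M := M) (a := a) (b := b) (τ := τ) (ρ := ρ)
    (ε := 1 / (q : ℝ) ^ 2) (H := H)
    (A1 := Real.pi * H ^ 2 * τ ^ 2 * ((b - a) * M) ^ s)
    (A2 := (c3 * √L * (q : ℝ) ^ 24) ^ s) (A3 := (c3 * √L * (q : ℝ) ^ 16) ^ s)
    hε0 hε1 (hε1.trans hH1) hτ0.le hρ0.le (by positivity) (by positivity) (by positivity)
    (fun ξ hξ => ?_) (fun ξ hξ1 hξ2 => ?_) (fun ξ hξ1 hξ2 => ?_)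
  · refine hav.trans (ENNReal.ofReal_le_ofReal ?_)
    have hlog' : √L ^ s ≤ C2 * (q : ℝ) ^ 2 := hlog q hq
    -- first term
    have t1 : 2 * τ * (Real.pi * H ^ 2 * τ ^ 2 * ((b - a) * M) ^ s) ≤
        C1 * ((q : ℝ) ^ (32 * s) / ((q : ℝ) ^ (32 * (l + 1)) * (q : ℝ) ^ 6)) := by
      rw [hHe, hτ, hMr, hC1]
      have e : 2 * ((q : ℝ) ^ 16 / (q : ℝ) ^ (32 * (l + 1))) *
          (Real.pi * ((b * (l + 1) * (m : ℝ) ^ l) * (q : ℝ) ^ (32 * l)) ^ 2 *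
            ((q : ℝ) ^ 16 / (q : ℝ) ^ (32 * (l + 1))) ^ 2 * ((b - a) * (m * (q : ℝ) ^ 32)) ^ s) =
          2 * Real.pi * (b * (l + 1) * (m : ℝ) ^ l) ^ 2 * ((b - a) * m) ^ s *
            ((q : ℝ) ^ (32 * s) / ((q : ℝ) ^ (32 * (l + 1)) * (q : ℝ) ^ 16)) := by
        rw [show (b - a) * (m * (q : ℝ) ^ 32) = ((b - a) * m) * (q : ℝ) ^ 32 by ring, mul_pow ((b - a) * m),
          ← pow_mul (q : ℝ) 32 s]
        rw [show 32 * (l + 1) = 32 * l + 32 by ring, pow_add]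
        field_simp
      rw [e]
      refine mul_le_mul_of_nonneg_left ?_ (by positivity)
      refine div_le_div_of_nonneg_left (by positivity) (by positivity) ?_
      exact mul_le_mul_of_nonneg_left (pow_le_pow_right₀ hq1 (by norm_num)) (by positivity)
    have t2 : 2 * ρ * (c3 * √L * (q : ℝ) ^ 24) ^ s ≤ 2 * (c3 ^ s * C2) *
        ((q : ℝ) ^ (32 * s) / ((q : ℝ) ^ (32 * (l + 1)) * (q : ℝ) ^ 6)) := by
      rw [mul_pow, mul_pow, ← pow_mul, hρ]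
      have h1 : c3 ^ s * √L ^ s ≤ c3 ^ s * (C2 * (q : ℝ) ^ 2) :=
        mul_le_mul_of_nonneg_left hlog' (by positivity)
      have h2 : 1 / (q : ℝ) ^ (32 * l) * (q : ℝ) ^ (24 * s) * (q : ℝ) ^ 2 ≤
          (q : ℝ) ^ (32 * s) / ((q : ℝ) ^ (32 * (l + 1)) * (q : ℝ) ^ 6) := by
        rw [le_div_iff₀ (by positivity)]
        have e : 1 / (q : ℝ) ^ (32 * l) * (q : ℝ) ^ (24 * s) * (q : ℝ) ^ 2 *
            ((q : ℝ) ^ (32 * (l + 1)) * (q : ℝ) ^ 6) = (q : ℝ) ^ (24 * s + 40) := by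
          rw [show 32 * (l + 1) = 32 * l + 32 by ring, pow_add, pow_add]
          field_simp
        rw [e]
        exact pow_le_pow_right₀ hq1 (by omega)
      calc 2 * (1 / (q : ℝ) ^ (32 * l)) * (c3 ^ s * √L ^ s * (q : ℝ) ^ (24 * s))
          = 2 * (c3 ^ s * √L ^ s) * (1 / (q : ℝ) ^ (32 * l) * (q : ℝ) ^ (24 * s)) := by ring
        _ ≤ 2 * (c3 ^ s * (C2 * (q : ℝ) ^ 2)) *
            (1 / (q : ℝ) ^ (32 * l) * (q : ℝ) ^ (24 * s)) := by gcongr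
        _ = 2 * (c3 ^ s * C2) * (1 / (q : ℝ) ^ (32 * l) * (q : ℝ) ^ (24 * s) * (q : ℝ) ^ 2) := by
            ring
        _ ≤ _ := mul_le_mul_of_nonneg_left h2 (by positivity)
    have t3 : (c3 * √L * (q : ℝ) ^ 16) ^ s ≤ (c3 ^ s * C2) *
        ((q : ℝ) ^ (32 * s) / ((q : ℝ) ^ (32 * (l + 1)) * (q : ℝ) ^ 6)) := by
      rw [mul_pow, mul_pow, ← pow_mul]
      have h1 : c3 ^ s * √L ^ s ≤ c3 ^ s * (C2 * (q : ℝ) ^ 2) :=
        mul_le_mul_of_nonneg_left hlog' (by positivity)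
      have h2 : (q : ℝ) ^ (16 * s) * (q : ℝ) ^ 2 ≤
          (q : ℝ) ^ (32 * s) / ((q : ℝ) ^ (32 * (l + 1)) * (q : ℝ) ^ 6) := by
        rw [le_div_iff₀ (by positivity), ← pow_add, ← pow_add, ← pow_add]
        exact pow_le_pow_right₀ hq1 (by omega)
      calc c3 ^ s * √L ^ s * (q : ℝ) ^ (16 * s)
          ≤ c3 ^ s * (C2 * (q : ℝ) ^ 2) * (q : ℝ) ^ (16 * s) := by gcongr
        _ = (c3 ^ s * C2) * ((q : ℝ) ^ (16 * s) * (q : ℝ) ^ 2) := by ring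
        _ ≤ _ := mul_le_mul_of_nonneg_left h2 (by positivity)
    calc _ ≤ C1 * ((q : ℝ) ^ (32 * s) / ((q : ℝ) ^ (32 * (l + 1)) * (q : ℝ) ^ 6)) +
          2 * (c3 ^ s * C2) * ((q : ℝ) ^ (32 * s) / ((q : ℝ) ^ (32 * (l + 1)) * (q : ℝ) ^ 6)) +
          (c3 ^ s * C2) * ((q : ℝ) ^ (32 * s) / ((q : ℝ) ^ (32 * (l + 1)) * (q : ℝ) ^ 6)) :=
          add_le_add (add_le_add t1 t2) t3
      _ = _ := by ring
  · -- small frequencies
    have h1 := g_le_sq hε0 hε1 (by linarith : 0 < H) ξ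
    have h2 : ξ ^ 2 ≤ τ ^ 2 := by
      rw [← sq_abs ξ]
      exact pow_le_pow_left₀ (abs_nonneg ξ) hξ 2
    have h3 : g (1 / (q : ℝ) ^ 2) H ξ ≤ Real.pi * H ^ 2 * τ ^ 2 :=
      h1.trans (mul_le_mul_of_nonneg_left h2 (by positivity))
    exact mul_le_mul h3 (pow_le_pow_left₀ (E_nonneg _ _ _ _ _ _) (E_triv hab ξ) s)
      (pow_nonneg (E_nonneg _ _ _ _ _ _) _) (by positivity)
  · -- middle frequencies
    have hξ0 : 0 < |ξ| := hτ0.trans hξ1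
    refine pow_le_pow_left₀ (E_nonneg _ _ _ _ _ _) ?_ s
    have hV : (M : ℝ) * ((b - a) + (1 + Real.log M) /
        (|ξ| * ((q ^ 32 : ℕ) : ℝ) ^ (l + 1 - 1))) ≤ m * (1 + (b - a)) * L * ((q : ℝ) ^ 24) ^ 2 := by
      have h1 : (q : ℝ) ^ 16 * (|ξ| * ((q ^ 32 : ℕ) : ℝ) ^ (l + 1 - 1)) ≥ 1 := by
        rw [Nat.add_sub_cancel]
        push_cast
        rw [← pow_mul]
        have h2 : τ * (q : ℝ) ^ (32 * l) * (q : ℝ) ^ 16 = 1 := by
          rw [hτ, show 32 * (l + 1) = 32 * l + 32 by ring, pow_add]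
          field_simp
        have h3 : τ * (q : ℝ) ^ (32 * l) ≤ |ξ| * (q : ℝ) ^ (32 * l) :=
          mul_le_mul_of_nonneg_right hξ1.le (by positivity)
        nlinarith [mul_le_mul_of_nonneg_right h3 (by positivity : (0 : ℝ) ≤ (q : ℝ) ^ 16)]
      have hpos : 0 < |ξ| * ((q ^ 32 : ℕ) : ℝ) ^ (l + 1 - 1) := by positivity
      have h4 : (1 + Real.log M) / (|ξ| * ((q ^ 32 : ℕ) : ℝ) ^ (l + 1 - 1)) ≤ L * (q : ℝ) ^ 16 := by
        rw [div_le_iff₀ hpos, ← hL, mul_assoc]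
        nlinarith
      have h5 : (b - a) ≤ (b - a) * (L * (q : ℝ) ^ 16) := by
        have : 1 ≤ L * (q : ℝ) ^ 16 := one_le_mul_of_one_le_of_one_le hL1 (one_le_pow₀ hq1)
        nlinarith
      calc _ ≤ (M : ℝ) * ((b - a) * (L * (q : ℝ) ^ 16) + L * (q : ℝ) ^ 16) :=
            mul_le_mul_of_nonneg_left (add_le_add h5 h4) (Nat.cast_nonneg _)
        _ = _ := by rw [hMr]; ring
    have h6 := first (k := l + 1) (N := q ^ 32) (M := M) (a := a) (b := b) (ξ := ξ) (by omega)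
      (Nat.one_le_pow _ _ hq) hMpos hab (abs_pos.1 hξ0) hV (by positivity)
    refine h6.trans (le_of_eq ?_)
    rw [Real.sqrt_mul (by positivity), Real.sqrt_mul (by positivity), Real.sqrt_sq (by positivity), hc3]
    ring
  · -- large frequencies
    have hξ0 : 0 < |ξ| := hτ0.trans hξ1
    refine pow_le_pow_left₀ (E_nonneg _ _ _ _ _ _) ?_ s
    have hV : (M : ℝ) * ((b - a) + (1 + Real.log M) /
        (|ξ| * ((q ^ 32 : ℕ) : ℝ) ^ (l + 1 - 1))) ≤ m * (1 + (b - a)) * L * ((q : ℝ) ^ 16) ^ 2 := by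
      have h1 : (|ξ| * ((q ^ 32 : ℕ) : ℝ) ^ (l + 1 - 1)) ≥ 1 := by
        rw [Nat.add_sub_cancel]
        push_cast
        rw [← pow_mul]
        have h2 : ρ * (q : ℝ) ^ (32 * l) = 1 := by
          rw [hρ]
          field_simp
        have h3 : ρ * (q : ℝ) ^ (32 * l) ≤ |ξ| * (q : ℝ) ^ (32 * l) :=
          mul_le_mul_of_nonneg_right hξ2.le (by positivity)
        linarith
      have hpos : 0 < |ξ| * ((q ^ 32 : ℕ) : ℝ) ^ (l + 1 - 1) := by positivity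
      have h4 : (1 + Real.log M) / (|ξ| * ((q ^ 32 : ℕ) : ℝ) ^ (l + 1 - 1)) ≤ L := by
        rw [div_le_iff₀ hpos, ← hL]
        nlinarith
      have h5 : (b - a) ≤ (b - a) * L := by nlinarith
      calc _ ≤ (M : ℝ) * ((b - a) * L + L) :=
            mul_le_mul_of_nonneg_left (add_le_add h5 h4) (Nat.cast_nonneg _)
        _ = _ := by rw [hMr]; ring
    have h6 := first (k := l + 1) (N := q ^ 32) (M := M) (a := a) (b := b) (ξ := ξ) (by omega)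
      (Nat.one_le_pow _ _ hq) hMpos hab (abs_pos.1 hξ0) hV (by positivity)
    refine h6.trans (le_of_eq ?_)
    rw [Real.sqrt_mul (by positivity), Real.sqrt_mul (by positivity), Real.sqrt_sq (by positivity), hc3]
    ring

end Pool.Agent.H164.GW
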