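import Pool.Agent.H164.GW.Main

/-!
# An upper bound for the coarse count
-/

set_option autoImplicit false

open MeasureTheory Finset Filter Topology
open scoped ENNReal

namespace Pool.Agent.H164.GW

/-- a Gaussian sum -/
noncomputable def K (c : ℝ) : ℝ := ∑' d : ℕ, Real.exp (-(Real.pi * (c * d) ^ 2))

lemma K_summable {c : ℝ} (hc : 0 < c) : Summable fun d : ℕ => Real.exp (-(Real.pi * (c * d) ^ 2)) := by
  have h1 : Summable fun d : ℕ => (Real.exp (-(Real.pi * c ^ 2))) ^ d := by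
    refine summable_geometric_of_lt_one (Real.exp_pos _).le ?_
    rw [Real.exp_lt_one_iff]
    have : 0 < Real.pi * c ^ 2 := by positivity
    linarith
  refine Summable.of_nonneg_of_le (fun d => (Real.exp_pos _).le) (fun d => ?_) h1
  rw [← Real.exp_nat_mul]
  refine Real.exp_le_exp.2 ?_
  have h2 : (d : ℝ) ≤ (d : ℝ) ^ 2 := by
    rcases Nat.eq_zero_or_pos d with h | h
    · rw [h]; simp
    · exact le_self_pow₀ (by exact_mod_cast h) (by norm_num)
  have h3 : 0 < Real.pi * c ^ 2 := by positivity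
  nlinarith [mul_le_mul_of_nonneg_left h2 h3.le]

lemma K_pos {c : ℝ} (hc : 0 < c) : 0 < K c := by
  unfold K
  exact (K_summable hc).tsum_pos (fun d => (Real.exp_pos _).le) 0 (Real.exp_pos _)

lemma sum_inj' {S : Finset ℕ} {φ : ℕ → ℕ} {c : ℝ} (hc : 0 < c)
    (hφ : ∀ x ∈ S, ∀ y ∈ S, φ x = φ y → x = y) :
    ∑ y ∈ S, Real.exp (-(Real.pi * (c * φ y) ^ 2)) ≤ K c := by
  have h1 : ∑ y ∈ S, Real.exp (-(Real.pi * (c * φ y) ^ 2)) =
      ∑ h ∈ S.image φ, Real.exp (-(Real.pi * (c * h) ^ 2)) :=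
    (sum_image (f := fun h : ℕ => Real.exp (-(Real.pi * (c * h) ^ 2))) hφ).symm
  rw [h1]
  exact (K_summable hc).sum_le_tsum _ fun d _ => (Real.exp_pos _).le

lemma gauss_sum {N M : ℕ} {v : ℕ → ℝ} {Δ H Y : ℝ} (hΔ : 0 < Δ) (hH : 0 < H)
    (hv : ∀ x ∈ Ico N M, ∀ y ∈ Ico N M, |(x : ℝ) - y| * Δ ≤ |v x - v y|) :
    ∑ x ∈ Ico N M, Real.exp (-(Real.pi * ((v x - Y) / H) ^ 2)) ≤ 2 * K (Δ / (2 * H)) := by
  set c : ℝ := Δ / (2 * H) with hc
  have hc0 : 0 < c := by positivity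
  rcases (Ico N M).eq_empty_or_nonempty with he | hne
  · rw [he, sum_empty]
    have := K_pos hc0
    linarith
  obtain ⟨z, hz, hmin⟩ := exists_min_image (Ico N M) (fun x => |v x - Y|) hne
  have hterm : ∀ x ∈ Ico N M, Real.exp (-(Real.pi * ((v x - Y) / H) ^ 2)) ≤
      Real.exp (-(Real.pi * (c * |(x : ℝ) - z|) ^ 2)) := by
    intro x hx
    refine Real.exp_le_exp.2 (neg_le_neg (mul_le_mul_of_nonneg_left ?_ Real.pi_pos.le))
    rw [← sq_abs ((v x - Y) / H)]
    refine pow_le_pow_left₀ (by positivity) ?_ 2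
    have h1 := hv x hx z hz
    have h2 : |v x - v z| ≤ |v x - Y| + |v z - Y| := by
      have := abs_sub_le (v x) Y (v z)
      rwa [abs_sub_comm Y (v z)] at this
    have h3 := hmin x hx
    rw [abs_div, abs_of_pos hH, le_div_iff₀ hH, hc]
    have h4 : Δ / (2 * H) * |(x : ℝ) - z| * H = |(x : ℝ) - z| * Δ / 2 := by
      field_simp
    rw [h4]
    linarith
  refine (sum_le_sum hterm).trans ?_
  have hz' := mem_Ico.1 hz
  have hunion : Ico N M = Ico N z ∪ Ico z M := by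
    ext x
    rw [mem_union, mem_Ico, mem_Ico, mem_Ico]
    omega
  rw [hunion, sum_union (Finset.disjoint_left.2 fun i h1 h2 => by
    rw [mem_Ico] at h1 h2
    omega)]
  have h1 : ∑ x ∈ Ico N z, Real.exp (-(Real.pi * (c * |(x : ℝ) - z|) ^ 2)) ≤ K c := by
    refine le_trans (le_of_eq ?_) (sum_inj' (S := Ico N z) (φ := fun x => z - x) hc0 ?_)
    · refine sum_congr rfl fun x hx => ?_
      rw [mem_Ico] at hx
      have e : ((z - x : ℕ) : ℝ) = (z : ℝ) - x := by
        rw [Nat.cast_sub hx.2.le]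
      have h0 : (0 : ℝ) ≤ (z : ℝ) - x := by
        have : (x : ℝ) ≤ z := by exact_mod_cast hx.2.le
        linarith
      rw [e, abs_sub_comm, abs_of_nonneg h0]
    · intro u hu v hv h
      rw [mem_Ico] at hu hv
      have h' : z - u = z - v := h
      omega
  have h2 : ∑ x ∈ Ico z M, Real.exp (-(Real.pi * (c * |(x : ℝ) - z|) ^ 2)) ≤ K c := by
    refine le_trans (le_of_eq ?_) (sum_inj' (S := Ico z M) (φ := fun x => x - z) hc0 ?_)
    · refine sum_congr rfl fun x hx => ?_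
      rw [mem_Ico] at hx
      have e : ((x - z : ℕ) : ℝ) = (x : ℝ) - z := by
        rw [Nat.cast_sub hx.1]
      have h0 : (0 : ℝ) ≤ (x : ℝ) - z := by
        have : (z : ℝ) ≤ x := by exact_mod_cast hx.1
        linarith
      rw [e, abs_of_nonneg h0]
    · intro u hu v hv h
      rw [mem_Ico] at hu hv
      have h' : u - z = v - z := h
      omega
  linarith

/-- the upper bound for the coarse count -/
lemma coarse_upper {n k P m : ℕ} {a b t H : ℝ} (hk : 1 ≤ k) (hP : 1 ≤ P) (ha : 0 < a)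
    {θ : Fin (n + 1) → ℝ} (hθ : ∀ i, θ i ∈ Set.Icc a b) (hH0 : 0 < H) :
    ∑ x ∈ Fintype.piFinset (fun _ : Fin (n + 1) => Ico P (m * P)),
      Real.exp (-(Real.pi * ((val k θ x - t) / H) ^ 2)) ≤
      ((m : ℝ) * P) ^ n * (2 * K (a * (P : ℝ) ^ (k - 1) / (2 * H))) := by
  classical
  have hP0 : (0 : ℝ) < P := by exact_mod_cast hP
  set X := Fintype.piFinset (fun _ : Fin (n + 1) => Ico P (m * P)) with hX
  set Y := Fintype.piFinset (fun _ : Fin n => Ico P (m * P)) with hY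
  have hmaps : ∀ x ∈ X, Fin.tail x ∈ Y := by
    intro x hx
    rw [hY, Fintype.mem_piFinset]
    intro i
    exact Fintype.mem_piFinset.1 hx i.succ
  rw [← sum_fiberwise_of_maps_to hmaps]
  have hfib : ∀ y ∈ Y, ∑ x ∈ X with Fin.tail x = y,
      Real.exp (-(Real.pi * ((val k θ x - t) / H) ^ 2)) ≤
      2 * K (a * (P : ℝ) ^ (k - 1) / (2 * H)) := by
    intro y _
    have h1 : ∑ x ∈ X with Fin.tail x = y, Real.exp (-(Real.pi * ((val k θ x - t) / H) ^ 2)) =
        ∑ x ∈ X with Fin.tail x = y, Real.exp (-(Real.pi * ((θ 0 * ((x 0 : ℕ) : ℝ) ^ k -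
          (t - ∑ i : Fin n, θ i.succ * (y i : ℝ) ^ k)) / H) ^ 2)) := by
      refine sum_congr rfl fun x hx => ?_
      have h2 : Fin.tail x = y := (mem_filter.1 hx).2
      have h3 : val k θ x - t = θ 0 * ((x 0 : ℕ) : ℝ) ^ k -
          (t - ∑ i : Fin n, θ i.succ * (y i : ℝ) ^ k) := by
        unfold val
        rw [Fin.sum_univ_succ, ← h2]
        unfold Fin.tail
        ring
      rw [h3]
    rw [h1]
    have h4 : ∀ x ∈ X.filter (fun x => Fin.tail x = y), ∀ x' ∈ X.filter (fun x => Fin.tail x = y),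
        x 0 = x' 0 → x = x' := by
      intro x hx x' hx' h
      have e1 : Fin.tail x = Fin.tail x' := (mem_filter.1 hx).2.trans (mem_filter.1 hx').2.symm
      funext i
      refine Fin.cases h (fun j => ?_) i
      exact congrFun e1 j
    have h5 := (sum_image (f := fun z : ℕ => Real.exp (-(Real.pi * ((θ 0 * (z : ℝ) ^ k -
          (t - ∑ i : Fin n, θ i.succ * (y i : ℝ) ^ k)) / H) ^ 2))) h4).symm
    rw [h5]
    have h6 : (X.filter (fun x => Fin.tail x = y)).image (fun x => x 0) ⊆ Ico P (m * P) := by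
      intro z hz
      obtain ⟨x, hx, rfl⟩ := mem_image.1 hz
      exact Fintype.mem_piFinset.1 (mem_filter.1 hx).1 0
    refine (sum_le_sum_of_subset_of_nonneg h6 fun _ _ _ => (Real.exp_pos _).le).trans ?_
    refine gauss_sum (v := fun z : ℕ => θ 0 * (z : ℝ) ^ k) (by positivity) hH0 ?_
    intro x hx z hz
    have h7 := gap (k := k) hk (mem_Ico.1 hx).1 (mem_Ico.1 hz).1
    rw [← mul_sub, abs_mul, abs_of_pos (ha.trans_le (hθ 0).1)]
    calc |(x : ℝ) - z| * (a * (P : ℝ) ^ (k - 1)) = a * (|(x : ℝ) - z| * (P : ℝ) ^ (k - 1)) := by ring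
      _ ≤ θ 0 * |(x : ℝ) ^ k - (z : ℝ) ^ k| :=
        mul_le_mul (hθ 0).1 h7 (by positivity) (ha.le.trans (hθ 0).1)
  refine (sum_le_sum hfib).trans ?_
  rw [sum_const, nsmul_eq_mul]
  have hK := K_pos (c := a * (P : ℝ) ^ (k - 1) / (2 * H)) (by positivity)
  refine mul_le_mul_of_nonneg_right ?_ (by positivity)
  rw [hY, Fintype.card_piFinset_const, Nat.card_Ico]
  have : ((m * P - P : ℕ) : ℝ) ≤ (m : ℝ) * P := by exact_mod_cast Nat.sub_le _ _
  push_cast
  exact pow_le_pow_left₀ (Nat.cast_nonneg _) this _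

end Pool.Agent.H164.GW
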