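import Pool.Agent.H164.GW.Cnt1

/-!
# Two-sided bounds for the number of representations
-/

set_option autoImplicit false

open MeasureTheory Finset Filter Topology
open scoped ENNReal

namespace Pool.Agent.H164.GW

lemma UboundE {k s m : ℕ} (hk : 2 ≤ k) (hs : 2 * k + 1 ≤ s) (hm : 1 ≤ m) {a b : ℝ} (ha : 0 < a)
    (hab : a ≤ b) (hb : 1 ≤ b) {ε : ℝ} (hε0 : 0 < ε) (hε1 : ε ≤ 1) :
    ∃ C : ℝ, 0 < C ∧ ∀ q : ℕ, 1 ≤ q →
    ∫⁻ θ, Err k (q ^ 32) (m * q ^ 32) ε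
      (b * k * ((m : ℝ) * (q ^ 32 : ℕ)) ^ (k - 1)) θ ∂(boxM s a b) ≤
      ENNReal.ofReal (C * ((q : ℝ) ^ (32 * s) / ((q : ℝ) ^ (32 * k) * (q : ℝ) ^ 6))) := by
  obtain ⟨C2, hC2, hlog⟩ := log_bound s m (by omega) hm
  obtain ⟨l, rfl⟩ : ∃ l, k = l + 1 := ⟨k - 1, by omega⟩
  have hm0 : (0 : ℝ) < m := by exact_mod_cast hm
  have hba : 0 ≤ b - a := sub_nonneg.2 hab
  have hb0 : 0 < b := by linarith
  set c3 : ℝ := (1 + (b - a)) * √(m * (1 + (b - a))) with hc3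
  have hc30 : 0 < c3 := by positivity
  set C1 : ℝ := 2 * Real.pi * (b * (l + 1) * (m : ℝ) ^ l) ^ 2 * ((b - a) * m) ^ s with hC1
  have hC10 : 0 ≤ C1 := by positivity
  refine ⟨C1 + 3 * (c3 ^ s * C2), by positivity, fun q hq => ?_⟩
  have hq1 : (1 : ℝ) ≤ q := by exact_mod_cast hq
  have hq0 : (0 : ℝ) < q := by linarith
  set M : ℕ := m * q ^ 32 with hM
  have hMpos : 1 ≤ M := by
    rw [hM]
    exact Nat.mul_pos hm (pow_pos hq 32)
  set L : ℝ := 1 + Real.log (M : ℝ) with hL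
  have hL1 : 1 ≤ L := by
    have := Real.log_nonneg (x := (M : ℝ)) (by exact_mod_cast hMpos)
    rw [hL]
    linarith
  have hMr : (M : ℝ) = m * (q : ℝ) ^ 32 := by rw [hM]; push_cast; ring
  set H : ℝ := b * ((l + 1 : ℕ) : ℝ) * ((m : ℝ) * (q ^ 32 : ℕ)) ^ (l + 1 - 1) with hH
  have hHe : H = (b * (l + 1) * (m : ℝ) ^ l) * (q : ℝ) ^ (32 * l) := by
    rw [hH, Nat.add_sub_cancel]
    push_cast
    rw [mul_pow, ← pow_mul]
    ring
  have hm1 : (1 : ℝ) ≤ m := by exact_mod_cast hm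
  have hH1 : 1 ≤ H := by
    rw [hHe]
    have h1 : (1 : ℝ) ≤ (m : ℝ) ^ l := one_le_pow₀ hm1
    have h2 : (1 : ℝ) ≤ (q : ℝ) ^ (32 * l) := one_le_pow₀ hq1
    have h3 : (1 : ℝ) ≤ b * (l + 1) := by
      have : (0 : ℝ) ≤ l := Nat.cast_nonneg l
      nlinarith
    exact one_le_mul_of_one_le_of_one_le (one_le_mul_of_one_le_of_one_le h3 h1) h2
  set τ : ℝ := (q : ℝ) ^ 16 / (q : ℝ) ^ (32 * (l + 1)) with hτ
  set ρ : ℝ := 1 / (q : ℝ) ^ (32 * l) with hρ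
  have hτ0 : 0 < τ := by positivity
  have hρ0 : 0 < ρ := by positivity
  have hav := avg (s := s) (k := l + 1) (N := q ^ 32) (M := M) (a := a) (b := b) (τ := τ) (ρ := ρ)
    (ε := ε) (H := H)
    (A1 := Real.pi * H ^ 2 * τ ^ 2 * ((b - a) * M) ^ s)
    (A2 := (c3 * √L * (q : ℝ) ^ 24) ^ s) (A3 := (c3 * √L * (q : ℝ) ^ 16) ^ s)
    hε0 hε1 (hε1.trans hH1) hτ0.le hρ0.le (by positivity) (by positivity) (by positivity)
    (fun ξ hξ => ?_) (fun ξ hξ1 hξ2 => ?_) (fun ξ hξ1 hξ2 => ?_)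
  · refine hav.trans (ENNReal.ofReal_le_ofReal ?_)
    have hlog' : √L ^ s ≤ C2 * (q : ℝ) ^ 2 := hlog q hq
    -- first term
    have t1 : 2 * τ * (Real.pi * H ^ 2 * τ ^ 2 * ((b - a) * M) ^ s) ≤
        C1 * ((q : ℝ) ^ (32 * s) / ((q : ℝ) ^ (32 * (l + 1)) * (q : ℝ) ^ 6)) := by
      rw [hHe, hτ, hMr, hC1]
      have e : 2 * ((q : ℝ) ^ 16 / (q : ℝ) ^ (32 * (l + 1))) *
          (Real.pi * ((b * (l + 1) * (m : ℝ) ^ l) * (q : ℝ) ^ (32 * l)) ^ 2 *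
            ((q : ℝ) ^ 16 / (q : ℝ) ^ (32 * (l + 1))) ^ 2 * ((b - a) * (m * (q : ℝ) ^ 32)) ^ s) =
          2 * Real.pi * (b * (l + 1) * (m : ℝ) ^ l) ^ 2 * ((b - a) * m) ^ s *
            ((q : ℝ) ^ (32 * s) / ((q : ℝ) ^ (32 * (l + 1)) * (q : ℝ) ^ 16)) := by
        rw [show (b - a) * (m * (q : ℝ) ^ 32) = ((b - a) * m) * (q : ℝ) ^ 32 by ring, mul_pow ((b - a) * m),
          ← pow_mul (q : ℝ) 32 s]
        rw [show 32 * (l + 1) = 32 * l + 32 by ring, pow_add]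
        field_simp
      rw [e]
      refine mul_le_mul_of_nonneg_left ?_ (by positivity)
      refine div_le_div_of_nonneg_left (by positivity) (by positivity) ?_
      exact mul_le_mul_of_nonneg_left (pow_le_pow_right₀ hq1 (by norm_num)) (by positivity)
    have t2 : 2 * ρ * (c3 * √L * (q : ℝ) ^ 24) ^ s ≤ 2 * (c3 ^ s * C2) *
        ((q : ℝ) ^ (32 * s) / ((q : ℝ) ^ (32 * (l + 1)) * (q : ℝ) ^ 6)) := by
      rw [mul_pow, mul_pow, ← pow_mul, hρ]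
      have h1 : c3 ^ s * √L ^ s ≤ c3 ^ s * (C2 * (q : ℝ) ^ 2) :=
        mul_le_mul_of_nonneg_left hlog' (by positivity)
      have h2 : 1 / (q : ℝ) ^ (32 * l) * (q : ℝ) ^ (24 * s) * (q : ℝ) ^ 2 ≤
          (q : ℝ) ^ (32 * s) / ((q : ℝ) ^ (32 * (l + 1)) * (q : ℝ) ^ 6) := by
        rw [le_div_iff₀ (by positivity)]
        have e : 1 / (q : ℝ) ^ (32 * l) * (q : ℝ) ^ (24 * s) * (q : ℝ) ^ 2 *
            ((q : ℝ) ^ (32 * (l + 1)) * (q : ℝ) ^ 6) = (q : ℝ) ^ (24 * s + 40) := by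
          rw [show 32 * (l + 1) = 32 * l + 32 by ring, pow_add, pow_add]
          field_simp
        rw [e]
        exact pow_le_pow_right₀ hq1 (by omega)
      calc 2 * (1 / (q : ℝ) ^ (32 * l)) * (c3 ^ s * √L ^ s * (q : ℝ) ^ (24 * s))
          = 2 * (c3 ^ s * √L ^ s) * (1 / (q : ℝ) ^ (32 * l) * (q : ℝ) ^ (24 * s)) := by ring
        _ ≤ 2 * (c3 ^ s * (C2 * (q : ℝ) ^ 2)) *
            (1 / (q : ℝ) ^ (32 * l) * (q : ℝ) ^ (24 * s)) := by gcongr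
        _ = 2 * (c3 ^ s * C2) * (1 / (q : ℝ) ^ (32 * l) * (q : ℝ) ^ (24 * s) * (q : ℝ) ^ 2) := by
            ring
        _ ≤ _ := mul_le_mul_of_nonneg_left h2 (by positivity)
    have t3 : (c3 * √L * (q : ℝ) ^ 16) ^ s ≤ (c3 ^ s * C2) *
        ((q : ℝ) ^ (32 * s) / ((q : ℝ) ^ (32 * (l + 1)) * (q : ℝ) ^ 6)) := by
      rw [mul_pow, mul_pow, ← pow_mul]
      have h1 : c3 ^ s * √L ^ s ≤ c3 ^ s * (C2 * (q : ℝ) ^ 2) :=
        mul_le_mul_of_nonneg_left hlog' (by positivity)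
      have h2 : (q : ℝ) ^ (16 * s) * (q : ℝ) ^ 2 ≤
          (q : ℝ) ^ (32 * s) / ((q : ℝ) ^ (32 * (l + 1)) * (q : ℝ) ^ 6) := by
        rw [le_div_iff₀ (by positivity), ← pow_add, ← pow_add, ← pow_add]
        exact pow_le_pow_right₀ hq1 (by omega)
      calc c3 ^ s * √L ^ s * (q : ℝ) ^ (16 * s)
          ≤ c3 ^ s * (C2 * (q : ℝ) ^ 2) * (q : ℝ) ^ (16 * s) := by gcongr
        _ = (c3 ^ s * C2) * ((q : ℝ) ^ (16 * s) * (q : ℝ) ^ 2) := by ring
        _ ≤ _ := mul_le_mul_of_nonneg_left h2 (by positivity)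
    calc _ ≤ C1 * ((q : ℝ) ^ (32 * s) / ((q : ℝ) ^ (32 * (l + 1)) * (q : ℝ) ^ 6)) +
          2 * (c3 ^ s * C2) * ((q : ℝ) ^ (32 * s) / ((q : ℝ) ^ (32 * (l + 1)) * (q : ℝ) ^ 6)) +
          (c3 ^ s * C2) * ((q : ℝ) ^ (32 * s) / ((q : ℝ) ^ (32 * (l + 1)) * (q : ℝ) ^ 6)) :=
          add_le_add (add_le_add t1 t2) t3
      _ = _ := by ring
  · -- small frequencies
    have h1 := g_le_sq hε0 hε1 (by linarith : 0 < H) ξ
    have h2 : ξ ^ 2 ≤ τ ^ 2 := by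
      rw [← sq_abs ξ]
      exact pow_le_pow_left₀ (abs_nonneg ξ) hξ 2
    have h3 : g ε H ξ ≤ Real.pi * H ^ 2 * τ ^ 2 :=
      h1.trans (mul_le_mul_of_nonneg_left h2 (by positivity))
    exact mul_le_mul h3 (pow_le_pow_left₀ (E_nonneg _ _ _ _ _ _) (E_triv hab ξ) s)
      (pow_nonneg (E_nonneg _ _ _ _ _ _) _) (by positivity)
  · -- middle frequencies
    have hξ0 : 0 < |ξ| := hτ0.trans hξ1
    refine pow_le_pow_left₀ (E_nonneg _ _ _ _ _ _) ?_ s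
    have hV : (M : ℝ) * ((b - a) + (1 + Real.log M) /
        (|ξ| * ((q ^ 32 : ℕ) : ℝ) ^ (l + 1 - 1))) ≤ m * (1 + (b - a)) * L * ((q : ℝ) ^ 24) ^ 2 := by
      have h1 : (q : ℝ) ^ 16 * (|ξ| * ((q ^ 32 : ℕ) : ℝ) ^ (l + 1 - 1)) ≥ 1 := by
        rw [Nat.add_sub_cancel]
        push_cast
        rw [← pow_mul]
        have h2 : τ * (q : ℝ) ^ (32 * l) * (q : ℝ) ^ 16 = 1 := by
          rw [hτ, show 32 * (l + 1) = 32 * l + 32 by ring, pow_add]
          field_simp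
        have h3 : τ * (q : ℝ) ^ (32 * l) ≤ |ξ| * (q : ℝ) ^ (32 * l) :=
          mul_le_mul_of_nonneg_right hξ1.le (by positivity)
        nlinarith [mul_le_mul_of_nonneg_right h3 (by positivity : (0 : ℝ) ≤ (q : ℝ) ^ 16)]
      have hpos : 0 < |ξ| * ((q ^ 32 : ℕ) : ℝ) ^ (l + 1 - 1) := by positivity
      have h4 : (1 + Real.log M) / (|ξ| * ((q ^ 32 : ℕ) : ℝ) ^ (l + 1 - 1)) ≤ L * (q : ℝ) ^ 16 := by
        rw [div_le_iff₀ hpos, ← hL, mul_assoc]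
        nlinarith
      have h5 : (b - a) ≤ (b - a) * (L * (q : ℝ) ^ 16) := by
        have : 1 ≤ L * (q : ℝ) ^ 16 := one_le_mul_of_one_le_of_one_le hL1 (one_le_pow₀ hq1)
        nlinarith
      calc _ ≤ (M : ℝ) * ((b - a) * (L * (q : ℝ) ^ 16) + L * (q : ℝ) ^ 16) :=
            mul_le_mul_of_nonneg_left (add_le_add h5 h4) (Nat.cast_nonneg _)
        _ = _ := by rw [hMr]; ring
    have h6 := first (k := l + 1) (N := q ^ 32) (M := M) (a := a) (b := b) (ξ := ξ) (by omega)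
      (Nat.one_le_pow _ _ hq) hMpos hab (abs_pos.1 hξ0) hV (by positivity)
    refine h6.trans (le_of_eq ?_)
    rw [Real.sqrt_mul (by positivity), Real.sqrt_mul (by positivity), Real.sqrt_sq (by positivity), hc3]
    ring
  · -- large frequencies
    have hξ0 : 0 < |ξ| := hτ0.trans hξ1
    refine pow_le_pow_left₀ (E_nonneg _ _ _ _ _ _) ?_ s
    have hV : (M : ℝ) * ((b - a) + (1 + Real.log M) /
        (|ξ| * ((q ^ 32 : ℕ) : ℝ) ^ (l + 1 - 1))) ≤ m * (1 + (b - a)) * L * ((q : ℝ) ^ 16) ^ 2 := by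
      have h1 : (|ξ| * ((q ^ 32 : ℕ) : ℝ) ^ (l + 1 - 1)) ≥ 1 := by
        rw [Nat.add_sub_cancel]
        push_cast
        rw [← pow_mul]
        have h2 : ρ * (q : ℝ) ^ (32 * l) = 1 := by
          rw [hρ]
          field_simp
        have h3 : ρ * (q : ℝ) ^ (32 * l) ≤ |ξ| * (q : ℝ) ^ (32 * l) :=
          mul_le_mul_of_nonneg_right hξ2.le (by positivity)
        linarith
      have hpos : 0 < |ξ| * ((q ^ 32 : ℕ) : ℝ) ^ (l + 1 - 1) := by positivity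
      have h4 : (1 + Real.log M) / (|ξ| * ((q ^ 32 : ℕ) : ℝ) ^ (l + 1 - 1)) ≤ L := by
        rw [div_le_iff₀ hpos, ← hL]
        nlinarith
      have h5 : (b - a) ≤ (b - a) * L := by nlinarith
      calc _ ≤ (M : ℝ) * ((b - a) * L + L) :=
            mul_le_mul_of_nonneg_left (add_le_add h5 h4) (Nat.cast_nonneg _)
        _ = _ := by rw [hMr]; ring
    have h6 := first (k := l + 1) (N := q ^ 32) (M := M) (a := a) (b := b) (ξ := ξ) (by omega)
      (Nat.one_le_pow _ _ hq) hMpos hab (abs_pos.1 hξ0) hV (by positivity)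
    refine h6.trans (le_of_eq ?_)
    rw [Real.sqrt_mul (by positivity), Real.sqrt_mul (by positivity), Real.sqrt_sq (by positivity), hc3]
    ring

/-- the error term at the scale `q`, with a fixed width -/
noncomputable def ErrE {s : ℕ} (k m : ℕ) (b ε : ℝ) (q : ℕ) (θ : Fin s → ℝ) : ℝ≥0∞ :=
  Err k (q ^ 32) (m * q ^ 32) ε (b * k * ((m : ℝ) * (q ^ 32 : ℕ)) ^ (k - 1)) θ

lemma ae_smallE {k s m : ℕ} (hk : 2 ≤ k) (hs : 2 * k + 1 ≤ s) (hm : 1 ≤ m) {a b : ℝ} (ha : 0 < a)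
    (hab : a ≤ b) (hb : 1 ≤ b) {ε : ℝ} (hε0 : 0 < ε) (hε1 : ε ≤ 1) : ∀ᵐ θ ∂(boxM s a b),
    ∀ᶠ j : ℕ in atTop, ErrE k m b ε (2 ^ j) θ < ENNReal.ofReal (T s k (2 ^ j)) := by
  obtain ⟨C, hC, hU⟩ := UboundE hk hs hm ha hab hb hε0 hε1
  have hsum : ∑' j : ℕ, boxM s a b
      {θ | ENNReal.ofReal (T s k (2 ^ j)) ≤ ErrE k m b ε (2 ^ j) θ} ≠ ∞ := by
    have hle : ∀ j : ℕ, boxM s a b
        {θ | ENNReal.ofReal (T s k (2 ^ j)) ≤ ErrE k m b ε (2 ^ j) θ} ≤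
        ENNReal.ofReal (C * (1 / 4 : ℝ) ^ j) := by
      intro j
      have hq : (1 : ℕ) ≤ 2 ^ j := Nat.one_le_two_pow
      have hq0 : (0 : ℝ) < ((2 ^ j : ℕ) : ℝ) := by exact_mod_cast hq
      have hT0 : 0 < T s k (2 ^ j) := by
        unfold T
        positivity
      refine (meas_ge_le_lintegral_div Err_meas.aemeasurable
        (by simpa using hT0) ENNReal.ofReal_ne_top).trans ?_
      refine (ENNReal.div_le_div_right (hU (2 ^ j) hq) _).trans ?_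
      rw [← ENNReal.ofReal_div_of_pos hT0]
      refine ENNReal.ofReal_le_ofReal (le_of_eq ?_)
      unfold T
      have e : ((1 / 4 : ℝ)) ^ j = 1 / (((2 ^ j : ℕ) : ℝ)) ^ 2 := by
        push_cast
        rw [← pow_mul, mul_comm j 2, pow_mul, one_div_pow]
        norm_num
      rw [e]
      generalize ((2 ^ j : ℕ) : ℝ) = q at hq0
      field_simp
    refine ne_top_of_le_ne_top ?_ (ENNReal.tsum_le_tsum hle)
    exact Summable.tsum_ofReal_ne_top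
      ((summable_geometric_of_lt_one (by norm_num) (by norm_num)).mul_left C)
  refine (ae_eventually_notMem hsum).mono fun θ hθ => hθ.mono fun j hj => ?_
  simpa only [Set.mem_ofPred_eq, not_le] using hj

open Classical in
/-- the number of representations -/
noncomputable def cnt {s : ℕ} (k N M : ℕ) (θ : Fin s → ℝ) (t : ℝ) : ℕ :=
  ((Fintype.piFinset (fun _ : Fin s => Ico N M)).filter fun x => |val k θ x - t| < 1).card

/-- the Gaussian count -/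
noncomputable def gs {s : ℕ} (k N M : ℕ) (θ : Fin s → ℝ) (ε t : ℝ) : ℝ :=
  ∑ x ∈ Fintype.piFinset (fun _ : Fin s => Ico N M),
    Real.exp (-(Real.pi * ((val k θ x - t) / ε) ^ 2))

lemma cnt_le {s k N M : ℕ} (θ : Fin s → ℝ) (t : ℝ) :
    (cnt k N M θ t : ℝ) ≤ Real.exp Real.pi * gs k N M θ 1 t := by
  classical
  unfold cnt gs
  rw [mul_sum]
  have h1 : ∀ x ∈ (Fintype.piFinset (fun _ : Fin s => Ico N M)).filter
      (fun x => |val k θ x - t| < 1), (1 : ℝ) ≤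
      Real.exp Real.pi * Real.exp (-(Real.pi * ((val k θ x - t) / 1) ^ 2)) := by
    intro x hx
    have h2 := (mem_filter.1 hx).2
    rw [← Real.exp_add, div_one]
    refine Real.one_le_exp ?_
    have h3 : (val k θ x - t) ^ 2 ≤ 1 := by
      rw [← sq_abs]
      nlinarith [abs_nonneg (val k θ x - t)]
    nlinarith [Real.pi_pos]
  calc _ = ∑ _x ∈ (Fintype.piFinset (fun _ : Fin s => Ico N M)).filter
          (fun x => |val k θ x - t| < 1), (1 : ℝ) := by rw [sum_const, nsmul_eq_mul, mul_one]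
    _ ≤ _ := sum_le_sum h1
    _ ≤ _ := sum_le_sum_of_subset_of_nonneg (filter_subset _ _) fun _ _ _ => by positivity

lemma le_cnt {s k N M : ℕ} (θ : Fin s → ℝ) (t : ℝ) {ε : ℝ} (hε : 0 < ε) (hε1 : ε ≤ 1) :
    gs k N M θ ε t ≤ (cnt k N M θ t : ℝ) +
      Real.exp (-(Real.pi * (1 / ε ^ 2 - 1))) * gs k N M θ 1 t := by
  classical
  unfold cnt gs
  rw [mul_sum, ← sum_filter_add_sum_filter_not (Fintype.piFinset (fun _ : Fin s => Ico N M))
    (fun x => |val k θ x - t| < 1)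
    (fun x => Real.exp (-(Real.pi * ((val k θ x - t) / ε) ^ 2)))]
  refine add_le_add ?_ ?_
  · calc _ ≤ ∑ _x ∈ (Fintype.piFinset (fun _ : Fin s => Ico N M)).filter
          (fun x => |val k θ x - t| < 1), (1 : ℝ) := by
          refine sum_le_sum fun x _ => ?_
          rw [Real.exp_le_one_iff]
          have : 0 ≤ Real.pi * ((val k θ x - t) / ε) ^ 2 := by positivity
          linarith
      _ = _ := by rw [sum_const, nsmul_eq_mul, mul_one]
  · refine le_trans ?_ (sum_le_sum_of_subset_of_nonneg (filter_subset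
      (fun x => ¬ |val k θ x - t| < 1) _) fun _ _ _ => by positivity)
    refine sum_le_sum fun x hx => ?_
    have h1 : 1 ≤ |val k θ x - t| := not_lt.1 (mem_filter.1 hx).2
    rw [← Real.exp_add]
    refine Real.exp_le_exp.2 ?_
    have h2 : 1 ≤ (val k θ x - t) ^ 2 := by
      rw [← sq_abs]
      nlinarith
    have h3 : 1 ≤ 1 / ε ^ 2 := by
      rw [le_div_iff₀ (by positivity), one_mul]
      exact pow_le_one₀ hε.le hε1
    rw [div_one, div_pow]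
    have h4 : (val k θ x - t) ^ 2 / ε ^ 2 = (val k θ x - t) ^ 2 * (1 / ε ^ 2) := by ring
    rw [h4]
    nlinarith [Real.pi_pos, mul_nonneg (sub_nonneg.2 h2) (sub_nonneg.2 h3),
      mul_nonneg Real.pi_pos.le (mul_nonneg (sub_nonneg.2 h2) (sub_nonneg.2 h3))]

end Pool.Agent.H164.GW
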