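import Pool.Agent.H164.GW.Cnt2

/-!
# Two-sided bounds for the number of representations, for almost all coefficients
-/

set_option autoImplicit false

open MeasureTheory Finset Filter Topology
open scoped ENNReal

namespace Pool.Agent.H164.GW

lemma compare_gs {s k N M : ℕ} {ε H : ℝ} (hε : 0 < ε) (hH : ε ≤ H) (θ : Fin s → ℝ) (t : ℝ) {A : ℝ}
    (hA : 0 < A) (h : Err k N M ε H θ < ENNReal.ofReal A) :
    |gs k N M θ ε t - ε / H * gs k N M θ H t| < A := by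
  have h1 := (compare (N := N) (M := M) (k := k) hε hH θ t).trans_lt h
  rw [ENNReal.ofReal_lt_ofReal_iff hA, sum_sub_distrib, ← mul_sum] at h1
  exact h1

lemma choose_width {c C : ℝ} (hc : 0 < c) (hC : 0 < C) : ∃ ε : ℝ, 0 < ε ∧ ε ≤ 1 ∧
    Real.exp (-(Real.pi * (1 / ε ^ 2 - 1))) * C ≤ ε * c / 4 := by
  have h1 := (Real.tendsto_pow_mul_exp_neg_atTop_nhds_zero 1).comp tendsto_natCast_atTop_atTop
  have hpos : 0 < c / (4 * C * Real.exp 1) := by positivity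
  have h2 := h1.eventually (gt_mem_nhds hpos)
  obtain ⟨N, hN⟩ := eventually_atTop.1 h2
  have h3 := hN (N + 1) (by omega)
  simp only [Function.comp_apply, pow_one] at h3
  set x : ℝ := ((N + 1 : ℕ) : ℝ) with hx
  have hx1 : 1 ≤ x := by
    rw [hx]
    exact_mod_cast (by omega : 1 ≤ N + 1)
  have hx0 : 0 < x := by linarith
  refine ⟨1 / x, by positivity, by rw [div_le_one hx0]; exact hx1, ?_⟩
  have e : 1 / (1 / x) ^ 2 = x ^ 2 := by
    field_simp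
  rw [e]
  have h4 : Real.exp (-(Real.pi * (x ^ 2 - 1))) ≤ Real.exp 1 * Real.exp (-x) := by
    rw [← Real.exp_add]
    refine Real.exp_le_exp.2 ?_
    have h5 : x ≤ x ^ 2 := le_self_pow₀ hx1 (by norm_num)
    have := Real.two_le_pi
    nlinarith
  rw [lt_div_iff₀ (by positivity)] at h3
  have h6 : Real.exp (-(Real.pi * (x ^ 2 - 1))) * C ≤ Real.exp 1 * Real.exp (-x) * C :=
    mul_le_mul_of_nonneg_right h4 hC.le
  have h7 : 1 / x * c / 4 = (c / 4) / x := by ring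
  rw [h7, le_div_iff₀ hx0]
  calc Real.exp (-(Real.pi * (x ^ 2 - 1))) * C * x ≤ Real.exp 1 * Real.exp (-x) * C * x :=
        mul_le_mul_of_nonneg_right h6 hx0.le
    _ ≤ c / 4 := by nlinarith

lemma both {k n m : ℕ} (hk : 2 ≤ k) (hn : 2 * k ≤ n) (hm : 2 ≤ m) {a b : ℝ} (ha : 0 < a)
    (hab : a ≤ b) (hb : 1 ≤ b) : ∀ᵐ θ ∂(boxM (n + 1) a b), (∀ i, θ i ∈ Set.Icc a b) ∧
    ∃ c C : ℝ, 0 < c ∧ 0 < C ∧ ∃ J : ℕ, ∀ j : ℕ, J ≤ j → ∀ t : ℝ,
      (cnt k ((2 ^ j) ^ 32) (m * (2 ^ j) ^ 32) θ t : ℝ) ≤ C * (((2 ^ j) ^ 32 : ℕ) : ℝ) ^ (n + 1 - k) ∧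
      ((n * b * 2 ^ k + b) * (((2 ^ j) ^ 32 : ℕ) : ℝ) ^ k ≤ t →
        t < a * ((m : ℝ) * ((2 ^ j) ^ 32 : ℕ)) ^ k →
        c * (((2 ^ j) ^ 32 : ℕ) : ℝ) ^ (n + 1 - k) ≤
          (cnt k ((2 ^ j) ^ 32) (m * (2 ^ j) ^ 32) θ t : ℝ)) := by
  have hk0 : (0 : ℝ) < k := by exact_mod_cast (by omega : 0 < k)
  have hk1 : (1 : ℝ) ≤ k := by exact_mod_cast (by omega : 1 ≤ k)
  have hm0 : (0 : ℝ) < m := by exact_mod_cast (by omega : 0 < m)
  have hm1 : (1 : ℝ) ≤ m := by exact_mod_cast (by omega : 1 ≤ m)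
  have hb0 : 0 < b := by linarith
  set h0 : ℝ := b * k * (m : ℝ) ^ (k - 1) with hh0
  have hh0pos : 0 < h0 := by positivity
  set lam : ℝ := a / (2 * h0) with hlam
  have hlam0 : 0 < lam := by positivity
  have hK := K_pos hlam0
  set CU : ℝ := (m : ℝ) ^ n / h0 * (2 * K lam) + 1 with hCU
  have hCU0 : 0 < CU := by positivity
  set c0 : ℝ := Real.exp (-Real.pi) / h0 with hc0
  have hc00 : 0 < c0 := by positivity
  obtain ⟨ε, hε0, hε1, hεc⟩ := choose_width hc00 hCU0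
  have hmem : ∀ᵐ θ ∂(boxM (n + 1) a b), ∀ i, θ i ∈ Set.Icc a b := by
    rw [boxM_eq]
    refine (ae_restrict_mem (MeasurableSet.univ_pi fun _ => measurableSet_Icc)).mono fun θ hθ i => ?_
    exact hθ i (Set.mem_univ i)
  filter_upwards [hmem, ae_smallE (s := n + 1) (m := m) hk (by omega) (by omega) ha hab hb hε0 hε1,
    ae_smallE (s := n + 1) (m := m) hk (by omega) (by omega) ha hab hb one_pos le_rfl] with θ hθ h1 h2
  refine ⟨hθ, ε * c0 / 2, Real.exp Real.pi * CU, by positivity, by positivity, ?_⟩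
  obtain ⟨J1, hJ1⟩ := eventually_atTop.1 (h1.and h2)
  obtain ⟨J2, hJ2⟩ := exists_nat_ge (4 / (ε * c0))
  refine ⟨max J1 J2, fun j hj t => ?_⟩
  obtain ⟨hE1, hE2⟩ := hJ1 j ((le_max_left _ _).trans hj)
  have hj2 : (J2 : ℝ) ≤ j := by exact_mod_cast (le_max_right _ _).trans hj
  have hq : 1 ≤ 2 ^ j := Nat.one_le_two_pow
  have hjq : (j : ℝ) ≤ ((2 ^ j : ℕ) : ℝ) := by exact_mod_cast Nat.lt_two_pow_self.le
  generalize 2 ^ j = q at hq hjq hE1 hE2
  have hq1 : (1 : ℝ) ≤ q := by exact_mod_cast hq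
  have hq0 : (0 : ℝ) < q := by linarith
  set P : ℕ := q ^ 32 with hP
  have hP1 : 1 ≤ P := Nat.one_le_pow _ _ hq
  have hPr : (P : ℝ) = (q : ℝ) ^ 32 := by rw [hP]; push_cast; rfl
  have hP0 : (0 : ℝ) < P := by exact_mod_cast hP1
  have hPr1 : (1 : ℝ) ≤ P := by exact_mod_cast hP1
  set H : ℝ := b * k * ((m : ℝ) * P) ^ (k - 1) with hH
  have hHe : H = h0 * (P : ℝ) ^ (k - 1) := by
    rw [hH, hh0, mul_pow]
    ring
  have hH1 : 1 ≤ H := one_le_mul_of_one_le_of_one_le (one_le_mul_of_one_le_of_one_le hb hk1)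
    (one_le_pow₀ (one_le_mul_of_one_le_of_one_le hm1 hPr1))
  have hH0 : 0 < H := by linarith
  set Dq : ℝ := (P : ℝ) ^ (n + 1 - k) with hDq
  have hDq0 : 0 < Dq := by positivity
  have hDe : (P : ℝ) ^ n / (P : ℝ) ^ (k - 1) = Dq := by
    rw [hDq, div_eq_iff (by positivity), ← pow_add]
    congr 1
    omega
  have hT0 : 0 < T (n + 1) k q := by
    unfold T
    positivity
  have hTe : T (n + 1) k q = Dq / (q : ℝ) ^ 4 := by
    unfold T
    rw [← div_div]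
    congr 1
    rw [hDq, hPr, ← pow_mul, div_eq_iff (by positivity), ← pow_add]
    congr 1
    omega
  have hTD : T (n + 1) k q ≤ Dq := by
    rw [hTe]
    exact div_le_self hDq0.le (one_le_pow₀ hq1)
  -- the upper bound
  have hup : gs k P (m * P) θ 1 t ≤ CU * Dq := by
    have h3 := compare_gs (N := P) (M := m * P) (k := k) (H := H) one_pos hH1 θ t hT0 hE2
    have h4 := (abs_lt.1 h3).2
    have h5 := coarse_upper (n := n) (P := P) (m := m) (t := t) (H := H) (by omega : 1 ≤ k) hP1 ha hθ hH0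
    have e1 : a * (P : ℝ) ^ (k - 1) / (2 * H) = lam := by
      rw [hHe, hlam]
      field_simp
    rw [e1] at h5
    have h6 : 1 / H * gs k P (m * P) θ H t ≤ 1 / H * (((m : ℝ) * P) ^ n * (2 * K lam)) :=
      mul_le_mul_of_nonneg_left h5 (by positivity)
    have e2 : 1 / H * (((m : ℝ) * P) ^ n * (2 * K lam)) = (m : ℝ) ^ n / h0 * (2 * K lam) * Dq := by
      rw [hHe, ← hDe, mul_pow]
      field_simp
    rw [e2] at h6
    rw [hCU]
    linarith
  refine ⟨?_, fun ht1 ht2 => ?_⟩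
  · refine (cnt_le θ t).trans ?_
    rw [mul_assoc]
    exact mul_le_mul_of_nonneg_left hup (Real.exp_pos _).le
  · have h3 := compare_gs (N := P) (M := m * P) (k := k) (H := H) hε0 (hε1.trans hH1) θ t hT0 hE1
    have h4 := (abs_lt.1 h3).1
    have h5 := coarse (n := n) (P := P) (k := k) (m := m) (by omega) hm ha hθ ht1 ht2 rfl hH0
    have h6 : ε / H * ((P : ℝ) ^ n * Real.exp (-Real.pi)) ≤ ε / H * gs k P (m * P) θ H t :=
      mul_le_mul_of_nonneg_left h5 (by positivity)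
    have e2 : ε / H * ((P : ℝ) ^ n * Real.exp (-Real.pi)) = ε * c0 * Dq := by
      rw [hHe, ← hDe, hc0]
      field_simp
    rw [e2] at h6
    have h7 := le_cnt (N := P) (M := m * P) (k := k) θ t hε0 hε1
    have h8 : Real.exp (-(Real.pi * (1 / ε ^ 2 - 1))) * gs k P (m * P) θ 1 t ≤
        ε * c0 / 4 * Dq := by
      calc _ ≤ Real.exp (-(Real.pi * (1 / ε ^ 2 - 1))) * (CU * Dq) :=
            mul_le_mul_of_nonneg_left hup (Real.exp_pos _).le
        _ = Real.exp (-(Real.pi * (1 / ε ^ 2 - 1))) * CU * Dq := by ring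
        _ ≤ _ := mul_le_mul_of_nonneg_right hεc hDq0.le
    have h9 : T (n + 1) k q ≤ ε * c0 / 4 * Dq := by
      rw [hTe, div_eq_mul_inv, mul_comm]
      refine mul_le_mul_of_nonneg_right ?_ hDq0.le
      rw [inv_le_comm₀ (by positivity) (by positivity)]
      have h10 : (ε * c0 / 4)⁻¹ = 4 / (ε * c0) := by
        field_simp
      rw [h10]
      have h11 : (q : ℝ) ≤ (q : ℝ) ^ 4 := le_self_pow₀ hq1 (by norm_num)
      linarith
    nlinarith

/-- the points of the shell with coordinates at least `η r` -/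
def Shell {s : ℕ} (k : ℕ) (θ : Fin s → ℝ) (η r : ℝ) : Set (Fin s → ℕ) :=
  {x | (∀ i, η * r ≤ x i) ∧ |∑ i, θ i * (x i : ℝ) ^ k - r ^ k| < 1}

/-- two-sided bounds for the number of points of shells -/
def TwoSided {s : ℕ} (k : ℕ) (θ : Fin s → ℝ) : Prop :=
  ∃ η₀ : ℝ, 0 < η₀ ∧ ∀ η : ℝ, 0 < η → η ≤ η₀ → ∃ c C r₀ : ℝ, 0 < c ∧ ∀ r : ℝ, r₀ ≤ r →
    (Shell k θ η r).Finite ∧ c * r ^ (s - k) ≤ ((Shell k θ η r).ncard : ℝ) ∧
      ((Shell k θ η r).ncard : ℝ) ≤ C * r ^ (s - k)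

lemma two_box {k n : ℕ} (hk : 2 ≤ k) (hn : 2 * k ≤ n) {a b : ℝ} (ha : 0 < a)
    (hab : a ≤ b) (hb : 1 ≤ b) : ∀ᵐ θ ∂(boxM (n + 1) a b), TwoSided k θ := by
  have hall : ∀ᵐ θ ∂(boxM (n + 1) a b), ∀ m : ℕ, 2 ≤ m → (∀ i, θ i ∈ Set.Icc a b) ∧
    ∃ c C : ℝ, 0 < c ∧ 0 < C ∧ ∃ J : ℕ, ∀ j : ℕ, J ≤ j → ∀ t : ℝ,
      (cnt k ((2 ^ j) ^ 32) (m * (2 ^ j) ^ 32) θ t : ℝ) ≤ C * (((2 ^ j) ^ 32 : ℕ) : ℝ) ^ (n + 1 - k) ∧
      ((n * b * 2 ^ k + b) * (((2 ^ j) ^ 32 : ℕ) : ℝ) ^ k ≤ t →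
        t < a * ((m : ℝ) * ((2 ^ j) ^ 32 : ℕ)) ^ k →
        c * (((2 ^ j) ^ 32 : ℕ) : ℝ) ^ (n + 1 - k) ≤
          (cnt k ((2 ^ j) ^ 32) (m * (2 ^ j) ^ 32) θ t : ℝ)) := by
    rw [ae_all_iff]
    intro m
    by_cases hm : 2 ≤ m
    · exact (both hk hn hm ha hab hb).mono fun θ hθ _ => hθ
    · exact ae_of_all _ fun θ h => absurd h hm
  refine hall.mono fun θ hθ => ?_
  have hb0 : 0 < b := by linarith
  set C0 : ℝ := n * b * 2 ^ k + b with hC0
  have hC00 : 0 < C0 := by positivity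
  refine ⟨min 1 (1 / (C0 * 2 ^ (32 * k))), lt_min one_pos (by positivity), fun η hη hη1 => ?_⟩
  have hη2 : η ≤ 1 := hη1.trans (min_le_left _ _)
  have hη3 : C0 * 2 ^ (32 * k) * η ^ k ≤ 1 := by
    have h1 : η ^ k ≤ η := by
      calc η ^ k ≤ η ^ 1 := pow_le_pow_of_le_one hη.le hη2 (by omega)
        _ = η := pow_one η
    have h2 : η ≤ 1 / (C0 * 2 ^ (32 * k)) := hη1.trans (min_le_right _ _)
    rw [le_div_iff₀ (by positivity)] at h2
    nlinarith [mul_le_mul_of_nonneg_left h1 (by positivity : 0 ≤ C0 * 2 ^ (32 * k))]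
  obtain ⟨m0, hm0⟩ := exists_nat_gt (2 * 2 ^ (32 * k) * (1 / η) ^ k / a)
  set m : ℕ := m0 + 2 with hm
  have hmk : 2 * 2 ^ (32 * k) * (1 / η) ^ k < a * (m : ℝ) ^ k := by
    rw [div_lt_iff₀ ha] at hm0
    have h1 : (m0 : ℝ) ≤ (m : ℝ) ^ k := by
      have h2 : (m : ℝ) ≤ (m : ℝ) ^ k := le_self_pow₀ (by exact_mod_cast (by omega : 1 ≤ m)) (by omega)
      have h3 : (m0 : ℝ) ≤ m := by exact_mod_cast (by omega : m0 ≤ m)
      linarith
    nlinarith
  obtain ⟨hbox, c, C, hc, hC, J, hJ⟩ := hθ m (by omega)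
  refine ⟨c * η ^ (n + 1 - k), C * η ^ (n + 1 - k), max 1 ((2 ^ 32) ^ J / η), by positivity,
    fun r hr => ?_⟩
  have hr1 : 1 ≤ r := (le_max_left _ _).trans hr
  have hr0 : 0 < r := by linarith
  have hrJ : (2 ^ 32) ^ J ≤ η * r := by
    have := (le_max_right _ _).trans hr
    rw [div_le_iff₀ hη] at this
    linarith
  have h1le : 1 ≤ η * r := le_trans (one_le_pow₀ (by norm_num)) hrJ
  obtain ⟨j, hj1, hj2⟩ := exists_nat_pow_near h1le (by norm_num : (1 : ℝ) < 2 ^ 32)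
  have hjJ : J ≤ j := by
    by_contra hcon
    have h3 : (2 ^ 32 : ℝ) ^ (j + 1) ≤ (2 ^ 32) ^ J := pow_le_pow_right₀ (by norm_num) (by omega)
    linarith
  have hPj : ∀ i : ℕ, (((2 ^ i) ^ 32 : ℕ) : ℝ) = (2 ^ 32) ^ i := by
    intro i
    push_cast
    rw [← pow_mul, ← pow_mul, mul_comm]
  -- `r ^ k` in terms of the scales
  have hrk : r ^ k < (1 / η) ^ k * ((2 ^ 32) ^ (j + 1)) ^ k := by
    rw [← mul_pow]
    refine pow_lt_pow_left₀ ?_ hr0.le (by omega)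
    rw [one_div, inv_mul_eq_div, lt_div_iff₀ hη]
    linarith
  have hPk : (((2 : ℝ) ^ 32) ^ (j + 1)) ^ k = 2 ^ (32 * k) * ((2 ^ 32) ^ j) ^ k := by
    rw [← pow_mul, ← pow_mul, ← pow_mul, ← pow_mul, ← pow_add]
    congr 1
    ring
  have hrk1 : 1 ≤ r ^ k := one_le_pow₀ hr1
  -- the upper bound
  have hsubU : Shell k θ η r ⊆ ↑((Fintype.piFinset
      (fun _ : Fin (n + 1) => Ico ((2 ^ j) ^ 32) (m * (2 ^ j) ^ 32))).filter
        fun x => |val k θ x - r ^ k| < 1) := by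
    rintro x ⟨hx1, hx2⟩
    rw [mem_coe, mem_filter, Fintype.mem_piFinset]
    refine ⟨fun i => ?_, hx2⟩
    rw [mem_Ico]
    constructor
    · have h1 : (((2 ^ j) ^ 32 : ℕ) : ℝ) ≤ x i := by
        rw [hPj]
        exact hj1.trans (hx1 i)
      exact_mod_cast h1
    · by_contra hcon
      have h1 : (m : ℝ) * (2 ^ 32) ^ j ≤ x i := by
        rw [← hPj]
        exact_mod_cast not_lt.1 hcon
      have h2 : ((m : ℝ) * (2 ^ 32) ^ j) ^ k ≤ (x i : ℝ) ^ k := pow_le_pow_left₀ (by positivity) h1 k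
      have h3 : a * ((m : ℝ) * (2 ^ 32) ^ j) ^ k ≤ θ i * (x i : ℝ) ^ k :=
        mul_le_mul (hbox i).1 h2 (by positivity) (ha.le.trans (hbox i).1)
      have h4 : θ i * (x i : ℝ) ^ k ≤ ∑ i, θ i * (x i : ℝ) ^ k :=
        single_le_sum (f := fun i => θ i * (x i : ℝ) ^ k)
          (fun i _ => mul_nonneg (ha.le.trans (hbox i).1) (by positivity)) (mem_univ i)
      have h5 := (abs_lt.1 hx2).2
      rw [mul_pow] at h3
      have h6 : (0 : ℝ) < ((2 ^ 32) ^ j) ^ k := by positivity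
      rw [hPk] at hrk
      have h7 := mul_lt_mul_of_pos_right hmk h6
      have h8 : 2 * r ^ k < 2 * 2 ^ (32 * k) * (1 / η) ^ k * ((2 ^ 32) ^ j) ^ k := by
        calc 2 * r ^ k < 2 * ((1 / η) ^ k * (2 ^ (32 * k) * ((2 ^ 32) ^ j) ^ k)) := by linarith
          _ = _ := by ring
      have h9 : a * ((m : ℝ) ^ k * ((2 ^ 32) ^ j) ^ k) = a * (m : ℝ) ^ k * ((2 ^ 32) ^ j) ^ k := by ring
      rw [h9] at h3
      have hA := h3.trans h4
      have hB : ∑ i, θ i * (x i : ℝ) ^ k < r ^ k + 1 := by linarith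
      have hC' : r ^ k + 1 ≤ 2 * r ^ k := by linarith
      exact lt_irrefl _ (hA.trans_lt (hB.trans_le (hC'.trans (h8.trans h7).le)))
  have hfin : (Shell k θ η r).Finite := (Finset.finite_toSet _).subset hsubU
  refine ⟨hfin, ?_, ?_⟩
  · -- the lower bound
    obtain ⟨-, hlow⟩ := hJ (j + 1) (by omega) (r ^ k)
    have h1 := hlow (by
      rw [hPj]
      have h2 : (((2 : ℝ) ^ 32) ^ j) ^ k ≤ (η * r) ^ k := pow_le_pow_left₀ (by positivity) hj1 k
      rw [hPk, ← mul_assoc]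
      calc C0 * 2 ^ (32 * k) * ((2 ^ 32) ^ j) ^ k ≤ C0 * 2 ^ (32 * k) * (η * r) ^ k :=
            mul_le_mul_of_nonneg_left h2 (by positivity)
        _ = C0 * 2 ^ (32 * k) * η ^ k * r ^ k := by rw [mul_pow]; ring
        _ ≤ 1 * r ^ k := mul_le_mul_of_nonneg_right hη3 (by positivity)
        _ = r ^ k := one_mul _) (by
      rw [hPj, mul_pow]
      have h6 : (0 : ℝ) < ((2 ^ 32) ^ (j + 1)) ^ k := by positivity
      have h7 : (1 / η) ^ k ≤ a * (m : ℝ) ^ k := by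
        have h8 : (0 : ℝ) < (1 / η) ^ k := by positivity
        have h9 : (1 : ℝ) ≤ 2 ^ (32 * k) := one_le_pow₀ (by norm_num)
        nlinarith
      calc r ^ k < (1 / η) ^ k * ((2 ^ 32) ^ (j + 1)) ^ k := hrk
        _ ≤ a * (m : ℝ) ^ k * ((2 ^ 32) ^ (j + 1)) ^ k := mul_le_mul_of_nonneg_right h7 h6.le
        _ = _ := by ring)
    have hsubL : (↑((Fintype.piFinset
        (fun _ : Fin (n + 1) => Ico ((2 ^ (j + 1)) ^ 32) (m * (2 ^ (j + 1)) ^ 32))).filter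
        fun x => |val k θ x - r ^ k| < 1) : Set (Fin (n + 1) → ℕ)) ⊆ Shell k θ η r := by
      intro x hx
      rw [mem_coe, mem_filter, Fintype.mem_piFinset] at hx
      refine ⟨fun i => ?_, hx.2⟩
      have h2 : (((2 ^ (j + 1)) ^ 32 : ℕ) : ℝ) ≤ x i := by exact_mod_cast (mem_Ico.1 (hx.1 i)).1
      rw [hPj] at h2
      linarith
    have h3 := Set.ncard_le_ncard hsubL hfin
    rw [Set.ncard_coe_finset] at h3
    have h4 : ((cnt k ((2 ^ (j + 1)) ^ 32) (m * (2 ^ (j + 1)) ^ 32) θ (r ^ k) : ℕ) : ℝ) ≤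
        ((Shell k θ η r).ncard : ℝ) := by exact_mod_cast h3
    refine le_trans ?_ (h1.trans h4)
    rw [hPj, mul_assoc, ← mul_pow]
    refine mul_le_mul_of_nonneg_left ?_ hc.le
    exact pow_le_pow_left₀ (by positivity) hj2.le _
  · obtain ⟨hupp, -⟩ := hJ j hjJ (r ^ k)
    have h3 := Set.ncard_le_ncard hsubU (Finset.finite_toSet _)
    rw [Set.ncard_coe_finset] at h3
    have h4 : ((Shell k θ η r).ncard : ℝ) ≤
        ((cnt k ((2 ^ j) ^ 32) (m * (2 ^ j) ^ 32) θ (r ^ k) : ℕ) : ℝ) := by exact_mod_cast h3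
    refine (h4.trans hupp).trans ?_
    rw [hPj, mul_assoc, ← mul_pow]
    refine mul_le_mul_of_nonneg_left ?_ hC.le
    exact pow_le_pow_left₀ (by positivity) hj1 _

/-- two-sided bounds for almost all coefficients -/
theorem two_sided {k s : ℕ} (hk : 2 ≤ k) (hs : 2 * k + 1 ≤ s) :
    ∀ᵐ θ : Fin s → ℝ, (∀ i, 0 < θ i) → TwoSided k θ := by
  obtain ⟨n, rfl⟩ : ∃ n, s = n + 1 := ⟨s - 1, by omega⟩
  have h1 : ∀ c : ℕ, ∀ᵐ θ : Fin (n + 1) → ℝ,
      θ ∈ (Set.univ.pi fun _ : Fin (n + 1) => Set.Icc (1 / ((c : ℝ) + 1)) ((c : ℝ) + 1)) →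
        TwoSided k θ := by
    intro c
    have hc : (1 : ℝ) ≤ (c : ℝ) + 1 := by linarith [Nat.cast_nonneg (α := ℝ) c]
    have h2 := two_box (k := k) (n := n) hk (by omega) (a := 1 / ((c : ℝ) + 1)) (b := (c : ℝ) + 1)
      (by positivity) (by
        rw [div_le_iff₀ (by linarith)]
        nlinarith) hc
    rw [boxM_eq] at h2
    rwa [ae_restrict_iff' (MeasurableSet.univ_pi fun _ => measurableSet_Icc)] at h2
  refine (ae_all_iff.2 h1).mono fun θ hθ hpos => ?_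
  obtain ⟨c, hc⟩ := exists_nat_ge (∑ i, (θ i + 1 / θ i))
  refine hθ c fun i _ => ?_
  have h3 : θ i + 1 / θ i ≤ c := by
    refine le_trans ?_ hc
    exact single_le_sum (f := fun i => θ i + 1 / θ i)
      (fun i _ => add_nonneg (hpos i).le (one_div_nonneg.2 (hpos i).le)) (mem_univ i)
  have h4 := hpos i
  have h5 : 0 < 1 / θ i := by positivity
  constructor
  · rw [div_le_iff₀ (by positivity)]
    have h6 : 1 / θ i ≤ (c : ℝ) + 1 := by linarith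
    rw [div_le_iff₀ h4] at h6
    linarith
  · linarith

end Pool.Agent.H164.GW
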