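import Pool.Agent.H164.GW.Avg

/-!
# The coarse count
-/

set_option autoImplicit false

open MeasureTheory Finset Filter Topology
open scoped ENNReal

namespace Pool.Agent.H164.GW

lemma greedy {k : ℕ} (hk : 1 ≤ k) {θ Y : ℝ} (hθ : 0 < θ) (hY : 0 ≤ Y) :
    ∃ x : ℕ, θ * (x : ℝ) ^ k ≤ Y ∧ Y < θ * ((x : ℝ) + 1) ^ k := by
  classical
  have hex : ∃ x : ℕ, Y < θ * ((x : ℝ) + 1) ^ k := by
    obtain ⟨x, hx⟩ := exists_nat_gt (Y / θ)
    refine ⟨x, ?_⟩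
    rw [div_lt_iff₀ hθ] at hx
    have h1 : (x : ℝ) + 1 ≤ ((x : ℝ) + 1) ^ k := le_self_pow₀ (by linarith [Nat.cast_nonneg (α := ℝ) x]) (by omega)
    nlinarith
  refine ⟨Nat.find hex, ?_, Nat.find_spec hex⟩
  rcases Nat.eq_zero_or_pos (Nat.find hex) with h | h
  · rw [h, Nat.cast_zero, zero_pow (by omega), mul_zero]
    exact hY
  · have h1 := Nat.find_min hex (m := Nat.find hex - 1) (by omega)
    rw [not_lt] at h1
    have h2 : ((Nat.find hex - 1 : ℕ) : ℝ) + 1 = (Nat.find hex : ℝ) := by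
      rw [Nat.cast_sub (by omega)]
      push_cast
      ring
    rwa [h2] at h1

lemma pow_diff (l x : ℕ) : ((x : ℝ) + 1) ^ (l + 1) - (x : ℝ) ^ (l + 1) ≤ (l + 1) * ((x : ℝ) + 1) ^ l := by
  induction l with
  | zero => simp
  | succ l ih =>
    have hx : (0 : ℝ) ≤ x := Nat.cast_nonneg x
    have h1 : (x : ℝ) ^ (l + 1) ≤ ((x : ℝ) + 1) ^ (l + 1) :=
      pow_le_pow_left₀ hx (by linarith) _
    have h2 : ((x : ℝ) + 1) ^ (l + 1 + 1) - (x : ℝ) ^ (l + 1 + 1) =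
        ((x : ℝ) + 1) * (((x : ℝ) + 1) ^ (l + 1) - (x : ℝ) ^ (l + 1)) + (x : ℝ) ^ (l + 1) := by
      ring
    rw [h2]
    have h3 := mul_le_mul_of_nonneg_left ih (by linarith : (0 : ℝ) ≤ (x : ℝ) + 1)
    calc _ ≤ ((x : ℝ) + 1) * ((l + 1) * ((x : ℝ) + 1) ^ l) + ((x : ℝ) + 1) ^ (l + 1) :=
          add_le_add h3 h1
      _ = _ := by push_cast; ring

lemma last {k P m : ℕ} {a b θ Y : ℝ} (hk : 1 ≤ k) (ha : 0 < a)
    (hθ : θ ∈ Set.Icc a b) (hY1 : b * (P : ℝ) ^ k ≤ Y) (hY2 : Y < a * ((m : ℝ) * P) ^ k) :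
    ∃ x ∈ Ico P (m * P), |θ * (x : ℝ) ^ k - Y| ≤ b * k * ((m : ℝ) * P) ^ (k - 1) := by
  have hθ0 : 0 < θ := ha.trans_le hθ.1
  have hb0 : 0 < b := hθ0.trans_le hθ.2
  obtain ⟨x, hx1, hx2⟩ := greedy hk hθ0 (le_trans (by positivity) hY1)
  have hx0 : (0 : ℝ) ≤ x := Nat.cast_nonneg x
  have h1 : P ≤ x := by
    by_contra hc
    have h2 : (x : ℝ) + 1 ≤ P := by exact_mod_cast (by omega : x + 1 ≤ P)
    have h3 : ((x : ℝ) + 1) ^ k ≤ (P : ℝ) ^ k := pow_le_pow_left₀ (by positivity) h2 k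
    have h4 : θ * ((x : ℝ) + 1) ^ k ≤ b * (P : ℝ) ^ k :=
      mul_le_mul hθ.2 h3 (by positivity) hb0.le
    linarith
  have h2 : x < m * P := by
    by_contra hc
    have h3 : (m : ℝ) * P ≤ x := by exact_mod_cast (by omega : m * P ≤ x)
    have h4 : ((m : ℝ) * P) ^ k ≤ (x : ℝ) ^ k := pow_le_pow_left₀ (by positivity) h3 k
    have h5 : a * ((m : ℝ) * P) ^ k ≤ θ * (x : ℝ) ^ k :=
      mul_le_mul hθ.1 h4 (by positivity) hθ0.le
    linarith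
  refine ⟨x, mem_Ico.2 ⟨h1, h2⟩, ?_⟩
  obtain ⟨l, rfl⟩ : ∃ l, k = l + 1 := ⟨k - 1, by omega⟩
  have h3 := pow_diff l x
  have h4 : (x : ℝ) + 1 ≤ (m : ℝ) * P := by exact_mod_cast (by omega : x + 1 ≤ m * P)
  have h5 : ((x : ℝ) + 1) ^ l ≤ ((m : ℝ) * P) ^ l := pow_le_pow_left₀ (by positivity) h4 l
  rw [abs_sub_comm, abs_of_nonneg (by linarith), Nat.add_sub_cancel]
  have h6 : Y - θ * (x : ℝ) ^ (l + 1) ≤ θ * (((x : ℝ) + 1) ^ (l + 1) - (x : ℝ) ^ (l + 1)) := by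
    rw [mul_sub]
    linarith
  refine h6.trans ?_
  calc θ * (((x : ℝ) + 1) ^ (l + 1) - (x : ℝ) ^ (l + 1))
      ≤ θ * ((l + 1) * ((x : ℝ) + 1) ^ l) := mul_le_mul_of_nonneg_left h3 hθ0.le
    _ ≤ b * ((l + 1) * ((m : ℝ) * P) ^ l) := by
        refine mul_le_mul hθ.2 ?_ (by positivity) hb0.le
        exact mul_le_mul_of_nonneg_left h5 (by positivity)
    _ = _ := by push_cast; ring

lemma coarse {n k P m : ℕ} {a b t H : ℝ} (hk : 1 ≤ k) (hm : 2 ≤ m) (ha : 0 < a)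
    {θ : Fin (n + 1) → ℝ} (hθ : ∀ i, θ i ∈ Set.Icc a b)
    (ht1 : (n * b * 2 ^ k + b) * (P : ℝ) ^ k ≤ t) (ht2 : t < a * ((m : ℝ) * P) ^ k)
    (hH : b * k * ((m : ℝ) * P) ^ (k - 1) = H) (hH0 : 0 < H) :
    (P : ℝ) ^ n * Real.exp (-Real.pi) ≤
      ∑ x ∈ Fintype.piFinset (fun _ : Fin (n + 1) => Ico P (m * P)),
        Real.exp (-(Real.pi * ((val k θ x - t) / H) ^ 2)) := by
  classical
  have hb0 : 0 < b := ha.trans_le ((hθ 0).1.trans (hθ 0).2)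
  set Y0 := Fintype.piFinset (fun _ : Fin n => Ico P (2 * P)) with hY0
  have hex : ∀ y ∈ Y0, ∃ x ∈ Ico P (m * P),
      |θ 0 * (x : ℝ) ^ k - (t - ∑ i : Fin n, θ i.succ * (y i : ℝ) ^ k)| ≤ H := by
    intro y hy
    rw [hY0, Fintype.mem_piFinset] at hy
    have h1 : ∑ i : Fin n, θ i.succ * (y i : ℝ) ^ k ≤ n * b * 2 ^ k * (P : ℝ) ^ k := by
      calc ∑ i : Fin n, θ i.succ * (y i : ℝ) ^ k ≤ ∑ _i : Fin n, b * (2 * (P : ℝ)) ^ k := by
            refine sum_le_sum fun i _ => ?_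
            have h2 := mem_Ico.1 (hy i)
            have h3 : (y i : ℝ) ≤ 2 * P := by exact_mod_cast h2.2.le
            exact mul_le_mul (hθ _).2 (pow_le_pow_left₀ (Nat.cast_nonneg _) h3 k) (by positivity)
              hb0.le
        _ = _ := by
            rw [sum_const, card_univ, Fintype.card_fin, nsmul_eq_mul, mul_pow]
            ring
    have h2 : 0 ≤ ∑ i : Fin n, θ i.succ * (y i : ℝ) ^ k :=
      sum_nonneg fun i _ => mul_nonneg (ha.le.trans (hθ _).1) (by positivity)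
    obtain ⟨x, hx, hx'⟩ := last (P := P) (m := m) (Y := t - ∑ i : Fin n, θ i.succ * (y i : ℝ) ^ k)
      hk ha (hθ 0) (by nlinarith) (by linarith)
    exact ⟨x, hx, hx'.trans hH.le⟩
  choose! f hf1 hf2 using hex
  have hinj : ∀ y ∈ Y0, ∀ z ∈ Y0, (Fin.cons (f y) y : Fin (n + 1) → ℕ) = Fin.cons (f z) z → y = z := by
    intro y _ z _ h
    exact (Fin.cons_inj.1 h).2
  have hsub : Y0.image (fun y => (Fin.cons (f y) y : Fin (n + 1) → ℕ)) ⊆
      Fintype.piFinset (fun _ : Fin (n + 1) => Ico P (m * P)) := by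
    intro x hx
    obtain ⟨y, hy, rfl⟩ := mem_image.1 hx
    rw [Fintype.mem_piFinset]
    intro i
    refine Fin.cases ?_ (fun j => ?_) i
    · rw [Fin.cons_zero]
      exact hf1 y hy
    · rw [Fin.cons_succ]
      rw [hY0, Fintype.mem_piFinset] at hy
      have h2 := mem_Ico.1 (hy j)
      refine mem_Ico.2 ⟨h2.1, h2.2.trans_le (Nat.mul_le_mul_right P hm)⟩
  have h3 : ∑ x ∈ Y0.image (fun y => (Fin.cons (f y) y : Fin (n + 1) → ℕ)),
      Real.exp (-(Real.pi * ((val k θ x - t) / H) ^ 2)) ≤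
      ∑ x ∈ Fintype.piFinset (fun _ : Fin (n + 1) => Ico P (m * P)),
        Real.exp (-(Real.pi * ((val k θ x - t) / H) ^ 2)) :=
    sum_le_sum_of_subset_of_nonneg hsub fun _ _ _ => (Real.exp_pos _).le
  refine le_trans ?_ h3
  rw [sum_image hinj]
  have hcard : (Y0.card : ℝ) = (P : ℝ) ^ n := by
    rw [hY0, Fintype.card_piFinset_const, Nat.card_Ico]
    have : 2 * P - P = P := by omega
    rw [this]
    push_cast
    rfl
  rw [← hcard, ← nsmul_eq_mul]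
  refine card_nsmul_le_sum _ _ _ fun y hy => ?_
  refine Real.exp_le_exp.2 (neg_le_neg ?_)
  have h4 : val k θ (Fin.cons (f y) y : Fin (n + 1) → ℕ) - t =
      θ 0 * (f y : ℝ) ^ k - (t - ∑ i : Fin n, θ i.succ * (y i : ℝ) ^ k) := by
    unfold val
    rw [Fin.sum_univ_succ]
    simp only [Fin.cons_zero, Fin.cons_succ]
    ring
  rw [h4]
  have h5 := hf2 y hy
  have h6 : ((θ 0 * (f y : ℝ) ^ k - (t - ∑ i : Fin n, θ i.succ * (y i : ℝ) ^ k)) / H) ^ 2 ≤ 1 := by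
    rw [sq_le_one_iff_abs_le_one, abs_div, abs_of_pos hH0, div_le_one hH0]
    exact h5
  nlinarith [Real.pi_pos]

end Pool.Agent.H164.GW
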