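import Mathlib

/-!
# Exponential sums over `k`-th powers with a generic coefficient

Second moments over the coefficient.
-/

set_option autoImplicit false

open MeasureTheory Finset Filter Topology
open scoped ENNReal

namespace Pool.Agent.H164.GW

/-- the exponential sum over the `k`-th powers of the integers in `[N, M)` -/
noncomputable def F (k N M : ℕ) (θ ξ : ℝ) : ℂ :=
  ∑ x ∈ Ico N M, Complex.exp (((2 * Real.pi * ξ * (θ * (x : ℝ) ^ k) : ℝ) : ℂ) * Complex.I)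

lemma F_cont (k N M : ℕ) : Continuous fun p : ℝ × ℝ => F k N M p.1 p.2 := by
  unfold F
  fun_prop

lemma F_norm_le (k N M : ℕ) (θ ξ : ℝ) : ‖F k N M θ ξ‖ ≤ M := by
  unfold F
  refine (norm_sum_le _ _).trans ?_
  simp only [Complex.norm_exp_ofReal_mul_I]
  rw [sum_const, Nat.card_Ico, nsmul_eq_mul, mul_one]
  exact_mod_cast Nat.sub_le _ _

lemma F_sq (k N M : ℕ) (θ ξ : ℝ) : ‖F k N M θ ξ‖ ^ 2 =
    ∑ x ∈ Ico N M, ∑ y ∈ Ico N M,
      Real.cos (2 * Real.pi * ξ * ((x : ℝ) ^ k - (y : ℝ) ^ k) * θ) := by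
  have h1 : (F k N M θ ξ).re = ∑ x ∈ Ico N M, Real.cos (2 * Real.pi * ξ * (θ * (x : ℝ) ^ k)) := by
    unfold F
    rw [Complex.re_sum]
    exact sum_congr rfl fun x _ => Complex.exp_ofReal_mul_I_re _
  have h2 : (F k N M θ ξ).im = ∑ x ∈ Ico N M, Real.sin (2 * Real.pi * ξ * (θ * (x : ℝ) ^ k)) := by
    unfold F
    rw [Complex.im_sum]
    exact sum_congr rfl fun x _ => Complex.exp_ofReal_mul_I_im _
  rw [Complex.sq_norm, Complex.normSq_apply, h1, h2, sum_mul_sum, sum_mul_sum, ← sum_add_distrib]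
  refine sum_congr rfl fun x _ => ?_
  rw [← sum_add_distrib]
  refine sum_congr rfl fun y _ => ?_
  rw [← Real.cos_sub]
  congr 1
  ring

lemma int_cos {a b c : ℝ} (hab : a ≤ b) (hc : c ≠ 0) :
    ∫ θ in Set.Icc a b, Real.cos (c * θ) ≤ 2 / |c| := by
  rw [integral_Icc_eq_integral_Ioc, ← intervalIntegral.integral_of_le hab,
    intervalIntegral.integral_comp_mul_left (fun x => Real.cos x) hc, integral_cos, smul_eq_mul]
  refine (le_abs_self _).trans ?_
  rw [abs_mul, abs_inv, mul_comm, ← div_eq_mul_inv]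
  refine div_le_div_of_nonneg_right ?_ (abs_nonneg c)
  refine (abs_sub _ _).trans ?_
  have := Real.abs_sin_le_one (c * b)
  have := Real.abs_sin_le_one (c * a)
  linarith

lemma gap {k N x y : ℕ} (hk : 1 ≤ k) (hx : N ≤ x) (hy : N ≤ y) :
    |(x : ℝ) - y| * (N : ℝ) ^ (k - 1) ≤ |(x : ℝ) ^ k - (y : ℝ) ^ k| := by
  obtain ⟨l, rfl⟩ : ∃ l, k = l + 1 := ⟨k - 1, by omega⟩
  rw [Nat.add_sub_cancel]
  have key : ∀ u v : ℕ, N ≤ u → v ≤ u →
      ((u : ℝ) - v) * (N : ℝ) ^ l ≤ (u : ℝ) ^ (l + 1) - (v : ℝ) ^ (l + 1) := by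
    intro u v hu hvu
    have h1 : (v : ℝ) ≤ u := by exact_mod_cast hvu
    have h2 : (N : ℝ) ^ l ≤ (u : ℝ) ^ l := pow_le_pow_left₀ (by positivity) (by exact_mod_cast hu) l
    have h3 : (v : ℝ) ^ l ≤ (u : ℝ) ^ l := pow_le_pow_left₀ (by positivity) h1 l
    have h4 : (0 : ℝ) ≤ v := by positivity
    rw [pow_succ, pow_succ]
    nlinarith [mul_le_mul_of_nonneg_left h2 (sub_nonneg.2 h1), mul_le_mul_of_nonneg_left h3 h4]
  rcases le_total y x with h | h
  · have h1 : (y : ℝ) ≤ x := by exact_mod_cast h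
    rw [abs_of_nonneg (sub_nonneg.2 h1)]
    exact (key x y hx h).trans (le_abs_self _)
  · have h1 : (x : ℝ) ≤ y := by exact_mod_cast h
    rw [abs_sub_comm, abs_of_nonneg (sub_nonneg.2 h1), abs_sub_comm]
    exact (key y x hy h).trans (le_abs_self _)

lemma sum_inj {S : Finset ℕ} {φ : ℕ → ℕ} {M : ℕ} (hφ : ∀ x ∈ S, ∀ y ∈ S, φ x = φ y → x = y)
    (hmap : ∀ y ∈ S, φ y < M) : ∑ y ∈ S, (1 : ℝ) / ((φ y : ℝ) + 1) ≤ 1 + Real.log M := by
  have h1 : ∑ y ∈ S, (1 : ℝ) / ((φ y : ℝ) + 1) = ∑ h ∈ S.image φ, (1 : ℝ) / ((h : ℝ) + 1) :=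
    (sum_image (f := fun h : ℕ => (1 : ℝ) / ((h : ℝ) + 1)) hφ).symm
  rw [h1]
  have h2 : ∑ h ∈ S.image φ, (1 : ℝ) / ((h : ℝ) + 1) ≤ ∑ h ∈ range M, (1 : ℝ) / ((h : ℝ) + 1) := by
    refine sum_le_sum_of_subset_of_nonneg ?_ fun i _ _ => by positivity
    intro i hi
    obtain ⟨y, hy, rfl⟩ := mem_image.1 hi
    exact mem_range.2 (hmap y hy)
  refine h2.trans ?_
  have h3 := harmonic_le_one_add_log M
  unfold harmonic at h3
  push_cast at h3
  simpa [one_div] using h3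

lemma harm {N M x : ℕ} (hx : x ∈ Ico N M) :
    ∑ y ∈ (Ico N M).erase x, (1 : ℝ) / |(x : ℝ) - y| ≤ 2 * (1 + Real.log M) := by
  rw [mem_Ico] at hx
  have hsub : (Ico N M).erase x ⊆ Ico N x ∪ Ico (x + 1) M := by
    intro y hy
    rw [mem_erase, mem_Ico] at hy
    rw [mem_union, mem_Ico, mem_Ico]
    omega
  refine (sum_le_sum_of_subset_of_nonneg hsub fun i _ _ => by positivity).trans ?_
  rw [sum_union (Finset.disjoint_left.2 fun i h1 h2 => by
    rw [mem_Ico] at h1 h2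
    omega)]
  have h1 : ∑ y ∈ Ico N x, (1 : ℝ) / |(x : ℝ) - y| ≤ 1 + Real.log M := by
    refine le_trans (le_of_eq ?_) (sum_inj (S := Ico N x) (φ := fun y => x - 1 - y) (M := M) ?_ ?_)
    · refine sum_congr rfl fun y hy => ?_
      rw [mem_Ico] at hy
      have e : ((x - 1 - y : ℕ) : ℝ) + 1 = (x : ℝ) - y := by
        have : (x - 1 - y) + 1 + y = x := by omega
        have h : (((x - 1 - y) + 1 + y : ℕ) : ℝ) = (x : ℝ) := by rw [this]
        push_cast at h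
        linarith
      have h0 : (0 : ℝ) ≤ (x : ℝ) - y := by
        have : (y : ℝ) ≤ x := by exact_mod_cast hy.2.le
        linarith
      rw [e, abs_of_nonneg h0]
    · intro u hu v hv h
      rw [mem_Ico] at hu hv
      have h' : x - 1 - u = x - 1 - v := h
      omega
    · intro u hu
      rw [mem_Ico] at hu
      omega
  have h2 : ∑ y ∈ Ico (x + 1) M, (1 : ℝ) / |(x : ℝ) - y| ≤ 1 + Real.log M := by
    refine le_trans (le_of_eq ?_) (sum_inj (S := Ico (x + 1) M) (φ := fun y => y - x - 1) (M := M)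
      ?_ ?_)
    · refine sum_congr rfl fun y hy => ?_
      rw [mem_Ico] at hy
      have e : ((y - x - 1 : ℕ) : ℝ) + 1 = (y : ℝ) - x := by
        have : (y - x - 1) + 1 + x = y := by omega
        have h : (((y - x - 1) + 1 + x : ℕ) : ℝ) = (y : ℝ) := by rw [this]
        push_cast at h
        linarith
      have h0 : (0 : ℝ) ≤ (y : ℝ) - x := by
        have : (x : ℝ) ≤ y := by exact_mod_cast (by omega : x ≤ y)
        linarith
      rw [e, abs_sub_comm, abs_of_nonneg h0]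
    · intro u hu v hv h
      rw [mem_Ico] at hu hv
      have h' : u - x - 1 = v - x - 1 := h
      omega
    · intro u hu
      rw [mem_Ico] at hu
      omega
  linarith

/-- the second moment over the coefficient -/
lemma second {k N M : ℕ} (hk : 1 ≤ k) (hN : 1 ≤ N) (hM : 1 ≤ M) {a b ξ : ℝ} (hab : a ≤ b)
    (hξ : ξ ≠ 0) :
    ∫ θ in Set.Icc a b, ‖F k N M θ ξ‖ ^ 2 ≤
      M * ((b - a) + (1 + Real.log M) / (|ξ| * (N : ℝ) ^ (k - 1))) := by
  have hL : 0 ≤ 1 + Real.log M := by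
    have := Real.log_nonneg (x := (M : ℝ)) (by exact_mod_cast hM)
    linarith
  have hξ0 : 0 < |ξ| := abs_pos.2 hξ
  have hN0 : (0 : ℝ) < (N : ℝ) ^ (k - 1) := by
    have : (0 : ℝ) < N := by exact_mod_cast hN
    positivity
  set W : ℝ := 1 / (Real.pi * (|ξ| * (N : ℝ) ^ (k - 1))) with hW
  have hW0 : 0 ≤ W := by positivity
  simp_rw [F_sq]
  rw [integral_finsetSum _ fun x _ => ?_]
  swap
  · exact Continuous.integrableOn_Icc (by fun_prop)
  have hx : ∀ x ∈ Ico N M, ∫ θ in Set.Icc a b, ∑ y ∈ Ico N M,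
      Real.cos (2 * Real.pi * ξ * ((x : ℝ) ^ k - (y : ℝ) ^ k) * θ) ≤
      (b - a) + W * (2 * (1 + Real.log M)) := by
    intro x hx
    rw [integral_finsetSum _ fun y _ => ?_]
    swap
    · exact Continuous.integrableOn_Icc (by fun_prop)
    rw [← add_sum_erase _ _ hx]
    refine add_le_add ?_ ?_
    · simp [sub_self, hab]
    · refine le_trans ?_ (mul_le_mul_of_nonneg_left (harm hx) hW0)
      rw [mul_sum]
      refine sum_le_sum fun y hy => ?_
      rw [mem_erase, mem_Ico] at hy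
      rw [mem_Ico] at hx
      have hxy : (0 : ℝ) < |(x : ℝ) - y| := by
        rw [abs_pos, sub_ne_zero]
        intro h
        exact hy.1 (by exact_mod_cast h.symm)
      have hg := gap (k := k) hk hx.1 hy.2.1
      have hpos : 0 < |(x : ℝ) ^ k - (y : ℝ) ^ k| := lt_of_lt_of_le (by positivity) hg
      have hne : 2 * Real.pi * ξ * ((x : ℝ) ^ k - (y : ℝ) ^ k) ≠ 0 :=
        mul_ne_zero (mul_ne_zero (by positivity) hξ) (abs_pos.1 hpos)
      refine (int_cos hab hne).trans ?_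
      rw [hW, abs_mul, abs_mul, abs_of_pos (by positivity : (0 : ℝ) < 2 * Real.pi), one_div_mul_one_div]
      rw [div_le_div_iff₀ (by positivity) (by positivity)]
      have h5 : |ξ| * (|(x : ℝ) - y| * (N : ℝ) ^ (k - 1)) ≤ |ξ| * |(x : ℝ) ^ k - (y : ℝ) ^ k| :=
        mul_le_mul_of_nonneg_left hg hξ0.le
      nlinarith [Real.pi_pos, mul_le_mul_of_nonneg_left h5 Real.pi_pos.le]
  refine (sum_le_sum hx).trans ?_
  rw [sum_const, Nat.card_Ico, nsmul_eq_mul]
  have h6 : W * (2 * (1 + Real.log M)) ≤ (1 + Real.log M) / (|ξ| * (N : ℝ) ^ (k - 1)) := by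
    rw [hW, le_div_iff₀ (by positivity)]
    have h7 : 1 / (Real.pi * (|ξ| * (N : ℝ) ^ (k - 1))) * (2 * (1 + Real.log M)) *
        (|ξ| * (N : ℝ) ^ (k - 1)) = (2 / Real.pi) * (1 + Real.log M) := by
      field_simp
    rw [h7]
    have h8 : 2 / Real.pi ≤ 1 := by
      rw [div_le_one Real.pi_pos]
      exact Real.two_le_pi
    nlinarith
  have h9 : 0 ≤ (b - a) + (1 + Real.log M) / (|ξ| * (N : ℝ) ^ (k - 1)) :=
    add_nonneg (sub_nonneg.2 hab) (by positivity)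
  calc ((M - N : ℕ) : ℝ) * ((b - a) + W * (2 * (1 + Real.log M)))
      ≤ ((M - N : ℕ) : ℝ) * ((b - a) + (1 + Real.log M) / (|ξ| * (N : ℝ) ^ (k - 1))) := by
        gcongr
    _ ≤ _ := by
        refine mul_le_mul_of_nonneg_right ?_ h9
        exact_mod_cast Nat.sub_le _ _

/-- the first moment over the coefficient -/
lemma first {k N M : ℕ} (hk : 1 ≤ k) (hN : 1 ≤ N) (hM : 1 ≤ M) {a b ξ V : ℝ} (hab : a ≤ b)
    (hξ : ξ ≠ 0) (hV : M * ((b - a) + (1 + Real.log M) / (|ξ| * (N : ℝ) ^ (k - 1))) ≤ V)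
    (hV0 : 0 < V) :
    ∫ θ in Set.Icc a b, ‖F k N M θ ξ‖ ≤ (1 + (b - a)) * √V := by
  have h2 := (second hk hN hM hab hξ).trans hV
  have hc : Continuous fun θ : ℝ => ‖F k N M θ ξ‖ := by
    unfold F
    fun_prop
  have hs : 0 < √V := Real.sqrt_pos.2 hV0
  have h1 : ∫ θ in Set.Icc a b, ‖F k N M θ ξ‖ ≤
      ∫ θ in Set.Icc a b, (‖F k N M θ ξ‖ ^ 2 * (√V)⁻¹ + √V) := by
    refine integral_mono (hc.integrableOn_Icc) (Continuous.integrableOn_Icc (by fun_prop)) ?_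
    intro θ
    simp only
    have h3 : 0 ≤ (‖F k N M θ ξ‖ - √V) ^ 2 := sq_nonneg _
    have h4 : ‖F k N M θ ξ‖ ^ 2 * (√V)⁻¹ + √V = (‖F k N M θ ξ‖ ^ 2 + √V ^ 2) / √V := by
      field_simp
    rw [h4, le_div_iff₀ hs]
    nlinarith [norm_nonneg (F k N M θ ξ), mul_nonneg (norm_nonneg (F k N M θ ξ)) hs.le]
  refine h1.trans ?_
  rw [integral_add (Continuous.integrableOn_Icc (by fun_prop)) (by simp), integral_mul_const]
  have h5 : (∫ θ in Set.Icc a b, ‖F k N M θ ξ‖ ^ 2) * (√V)⁻¹ ≤ √V := by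
    rw [← div_eq_mul_inv, div_le_iff₀ hs, Real.mul_self_sqrt hV0.le]
    exact h2
  have h6 : ∫ _θ in Set.Icc a b, √V = (b - a) * √V := by
    simp [hab]
  rw [h6]
  linarith

end Pool.Agent.H164.GW
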