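import Pool.Agent.H164.GW.Main
import Pool.Agent.H164.LS.Core

/-!
# Lipschitz bounds for the error term
-/

set_option autoImplicit false

open MeasureTheory Finset Filter Topology
open scoped ENNReal

namespace Pool.Agent.H164.GW

lemma exp_lip (x y : ℝ) :
    ‖Complex.exp ((x : ℂ) * Complex.I) - Complex.exp ((y : ℂ) * Complex.I)‖ ≤ |x - y| := by
  have h1 : Complex.exp ((x : ℂ) * Complex.I) - Complex.exp ((y : ℂ) * Complex.I) =
      Complex.exp ((y : ℂ) * Complex.I) * (Complex.exp (Complex.I * ((x - y : ℝ) : ℂ)) - 1) := by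
    rw [mul_sub, ← Complex.exp_add, mul_one]
    congr 2
    push_cast
    ring
  rw [h1, norm_mul, Complex.norm_exp_ofReal_mul_I, one_mul]
  exact Real.norm_exp_I_mul_ofReal_sub_one_le

lemma F_lip {k N M : ℕ} {θ θ' δ ξ : ℝ} (hδ : |θ - θ'| ≤ δ) :
    ‖F k N M θ ξ‖ ≤ ‖F k N M θ' ξ‖ + 2 * Real.pi * |ξ| * δ * (M : ℝ) ^ (k + 1) := by
  have hδ0 : 0 ≤ δ := (abs_nonneg _).trans hδ
  have h1 : ‖F k N M θ ξ - F k N M θ' ξ‖ ≤ 2 * Real.pi * |ξ| * δ * (M : ℝ) ^ (k + 1) := by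
    unfold F
    rw [← sum_sub_distrib]
    refine (norm_sum_le _ _).trans ?_
    calc ∑ x ∈ Ico N M, ‖Complex.exp (((2 * Real.pi * ξ * (θ * (x : ℝ) ^ k) : ℝ) : ℂ) * Complex.I) -
          Complex.exp (((2 * Real.pi * ξ * (θ' * (x : ℝ) ^ k) : ℝ) : ℂ) * Complex.I)‖
        ≤ ∑ _x ∈ Ico N M, 2 * Real.pi * |ξ| * δ * (M : ℝ) ^ k := by
          refine sum_le_sum fun x hx => (exp_lip _ _).trans ?_
          have h2 : 2 * Real.pi * ξ * (θ * (x : ℝ) ^ k) - 2 * Real.pi * ξ * (θ' * (x : ℝ) ^ k) =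
              2 * Real.pi * ξ * (θ - θ') * (x : ℝ) ^ k := by ring
          rw [h2, abs_mul, abs_mul, abs_mul, abs_of_pos (by positivity : (0 : ℝ) < 2 * Real.pi),
            abs_of_nonneg (by positivity : (0 : ℝ) ≤ (x : ℝ) ^ k)]
          have h3 : (x : ℝ) ^ k ≤ (M : ℝ) ^ k :=
            pow_le_pow_left₀ (Nat.cast_nonneg _) (by exact_mod_cast (mem_Ico.1 hx).2.le) k
          gcongr
      _ ≤ _ := by
          rw [sum_const, Nat.card_Ico, nsmul_eq_mul, pow_succ]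
          have h4 : ((M - N : ℕ) : ℝ) ≤ M := by exact_mod_cast Nat.sub_le _ _
          have h5 : 0 ≤ 2 * Real.pi * |ξ| * δ * (M : ℝ) ^ k := by positivity
          nlinarith
  have h6 := norm_sub_norm_le (F k N M θ ξ) (F k N M θ' ξ)
  linarith

lemma prod_lip {s : ℕ} {M d : ℝ} (hM : 0 ≤ M) (hd : 0 ≤ d) {u v : Fin s → ℝ} (hu0 : ∀ i, 0 ≤ u i)
    (hu : ∀ i, u i ≤ M) (hv0 : ∀ i, 0 ≤ v i) (hv : ∀ i, v i ≤ M) (h : ∀ i, u i ≤ v i + d)
    (S : Finset (Fin s)) : ∏ i ∈ S, u i ≤ ∏ i ∈ S, v i + S.card * M ^ (S.card - 1) * d := by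
  classical
  induction S using Finset.induction_on with
  | empty => simp
  | insert j S hj ih =>
    rw [prod_insert hj, prod_insert hj, card_insert_of_notMem hj, Nat.add_sub_cancel]
    have hv1 : ∏ i ∈ S, v i ≤ M ^ S.card := by
      calc ∏ i ∈ S, v i ≤ ∏ _i ∈ S, M := prod_le_prod (fun i _ => hv0 i) fun i _ => hv i
        _ = M ^ S.card := by rw [prod_const]
    have hv2 : 0 ≤ ∏ i ∈ S, v i := prod_nonneg fun i _ => hv0 i
    have hc : M * (S.card * M ^ (S.card - 1)) = S.card * M ^ S.card := by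
      rcases Nat.eq_zero_or_pos S.card with h0 | h0
      · rw [h0]
        simp
      · obtain ⟨c, hc⟩ : ∃ c, S.card = c + 1 := ⟨S.card - 1, by omega⟩
        rw [hc, Nat.add_sub_cancel, pow_succ]
        ring
    have hc2 : 0 ≤ (S.card : ℝ) * M ^ (S.card - 1) * d := by positivity
    calc u j * ∏ i ∈ S, u i ≤ u j * (∏ i ∈ S, v i + S.card * M ^ (S.card - 1) * d) :=
          mul_le_mul_of_nonneg_left ih (hu0 j)
      _ = u j * ∏ i ∈ S, v i + u j * (S.card * M ^ (S.card - 1) * d) := by ring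
      _ ≤ (v j + d) * ∏ i ∈ S, v i + M * (S.card * M ^ (S.card - 1) * d) :=
          add_le_add (mul_le_mul_of_nonneg_right (h j) hv2) (mul_le_mul_of_nonneg_right (hu j) hc2)
      _ = v j * ∏ i ∈ S, v i + d * ∏ i ∈ S, v i + M * (S.card * M ^ (S.card - 1)) * d := by ring
      _ ≤ v j * ∏ i ∈ S, v i + d * M ^ S.card + S.card * M ^ S.card * d := by
          rw [hc]
          have := mul_le_mul_of_nonneg_left hv1 hd
          linarith
      _ = _ := by push_cast; ring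

lemma xi_G {ε : ℝ} (hε : 0 < ε) (ξ : ℝ) : |ξ| * G ε ξ ≤ 2 / ε * G (ε / 2) ξ := by
  unfold G
  set y : ℝ := ε * |ξ| with hy
  have hy0 : 0 ≤ y := by positivity
  have e1 : |ξ| * (ε * Real.exp (-(Real.pi * ε ^ 2) * ξ ^ 2)) = y * Real.exp (-(Real.pi * y ^ 2)) := by
    rw [hy, mul_pow, sq_abs]
    rw [show -(Real.pi * ε ^ 2) * ξ ^ 2 = -(Real.pi * (ε ^ 2 * ξ ^ 2)) by ring]
    ring
  have e2 : 2 / ε * (ε / 2 * Real.exp (-(Real.pi * (ε / 2) ^ 2) * ξ ^ 2)) =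
      Real.exp (-(Real.pi * y ^ 2 / 4)) := by
    rw [hy, mul_pow, sq_abs]
    rw [show -(Real.pi * (ε / 2) ^ 2) * ξ ^ 2 = -(Real.pi * (ε ^ 2 * ξ ^ 2) / 4) by ring]
    field_simp
  rw [e1, e2]
  have h1 : y ≤ Real.exp (y ^ 2) := by
    have := Real.add_one_le_exp (y ^ 2)
    nlinarith [sq_nonneg (y - 1)]
  calc y * Real.exp (-(Real.pi * y ^ 2)) ≤ Real.exp (y ^ 2) * Real.exp (-(Real.pi * y ^ 2)) :=
        mul_le_mul_of_nonneg_right h1 (Real.exp_pos _).le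
    _ = Real.exp (y ^ 2 + -(Real.pi * y ^ 2)) := by rw [Real.exp_add]
    _ ≤ _ := by
        refine Real.exp_le_exp.2 ?_
        have := Real.two_le_pi
        nlinarith [sq_nonneg y]

/-- the part of the error term with large frequencies -/
noncomputable def Errc {s : ℕ} (k N M : ℕ) (ε H τ : ℝ) (θ : Fin s → ℝ) : ℝ≥0∞ :=
  ∫⁻ ξ in (Set.Icc (-τ) τ)ᶜ, ENNReal.ofReal (g ε H ξ * ∏ i, ‖F k N M (θ i) ξ‖)

lemma Err_le {s k N M : ℕ} {ε H τ : ℝ} (hε : 0 < ε) (hε1 : ε ≤ 1) (hH : ε ≤ H) (_hτ : 0 ≤ τ)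
    (θ : Fin s → ℝ) : Err k N M ε H θ ≤
      ENNReal.ofReal (2 * τ * (Real.pi * H ^ 2 * τ ^ 2 * (M : ℝ) ^ s)) + Errc k N M ε H τ θ := by
  have hH0 : 0 < H := hε.trans_le hH
  unfold Err Errc
  rw [← lintegral_add_compl _ (measurableSet_Icc (a := -τ) (b := τ))]
  refine add_le_add ?_ le_rfl
  have h1 : ∀ ξ ∈ Set.Icc (-τ) τ, ENNReal.ofReal (g ε H ξ * ∏ i, ‖F k N M (θ i) ξ‖) ≤
      ENNReal.ofReal (Real.pi * H ^ 2 * τ ^ 2 * (M : ℝ) ^ s) := by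
    intro ξ hξ
    refine ENNReal.ofReal_le_ofReal ?_
    have h2 : |ξ| ≤ τ := abs_le.2 hξ
    have h3 : ξ ^ 2 ≤ τ ^ 2 := by
      rw [← sq_abs ξ]
      exact pow_le_pow_left₀ (abs_nonneg ξ) h2 2
    have h4 := (g_le_sq hε hε1 hH0 ξ).trans
      (mul_le_mul_of_nonneg_left h3 (by positivity : 0 ≤ Real.pi * H ^ 2))
    have h5 : ∏ i, ‖F k N M (θ i) ξ‖ ≤ (M : ℝ) ^ s := by
      calc ∏ i, ‖F k N M (θ i) ξ‖ ≤ ∏ _i : Fin s, (M : ℝ) :=
            prod_le_prod (fun i _ => norm_nonneg _) fun i _ => F_norm_le _ _ _ _ _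
        _ = (M : ℝ) ^ s := by rw [prod_const, card_univ, Fintype.card_fin]
    exact mul_le_mul h4 h5 (prod_nonneg fun i _ => norm_nonneg _) (by positivity)
  refine (setLIntegral_mono' measurableSet_Icc h1).trans ?_
  rw [setLIntegral_const, Real.volume_Icc, ← ENNReal.ofReal_mul (by positivity)]
  refine ENNReal.ofReal_le_ofReal (le_of_eq ?_)
  ring

lemma Errc_lip {s k N M : ℕ} {ε H τ δ : ℝ} (hε : 0 < ε) (hH : ε ≤ H) (hδ : 0 ≤ δ)
    {θ θ' : Fin s → ℝ} (h : ∀ i, |θ i - θ' i| ≤ δ) : Errc k N M ε H τ θ ≤ Errc k N M ε H τ θ' +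
      ENNReal.ofReal (s * (M : ℝ) ^ (s - 1) * (2 * Real.pi * δ * (M : ℝ) ^ (k + 1)) * (2 / ε)) := by
  have hH0 : 0 < H := hε.trans_le hH
  set W : ℝ := s * (M : ℝ) ^ (s - 1) * (2 * Real.pi * δ * (M : ℝ) ^ (k + 1)) with hW
  have hW0 : 0 ≤ W := by positivity
  have h1 : ∀ ξ : ℝ, ENNReal.ofReal (g ε H ξ * ∏ i, ‖F k N M (θ i) ξ‖) ≤
      ENNReal.ofReal (g ε H ξ * ∏ i, ‖F k N M (θ' i) ξ‖) +
        ENNReal.ofReal (W * (2 / ε)) * ENNReal.ofReal (G (ε / 2) ξ) := by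
    intro ξ
    have hg0 := g_nonneg hε hH ξ
    have h2 := prod_lip (s := s) (M := (M : ℝ)) (d := 2 * Real.pi * |ξ| * δ * (M : ℝ) ^ (k + 1))
      (Nat.cast_nonneg M) (by positivity) (u := fun i => ‖F k N M (θ i) ξ‖)
      (v := fun i => ‖F k N M (θ' i) ξ‖) (fun i => norm_nonneg _) (fun i => F_norm_le _ _ _ _ _)
      (fun i => norm_nonneg _) (fun i => F_norm_le _ _ _ _ _) (fun i => F_lip (h i)) univ
    rw [card_univ, Fintype.card_fin] at h2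
    rw [← ENNReal.ofReal_mul (by positivity), ← ENNReal.ofReal_add
      (mul_nonneg hg0 (prod_nonneg fun i _ => norm_nonneg _))
      (mul_nonneg (by positivity) (G_nonneg (by positivity) ξ))]
    refine ENNReal.ofReal_le_ofReal ?_
    have h3 := mul_le_mul_of_nonneg_left h2 hg0
    have h4 : g ε H ξ * (s * (M : ℝ) ^ (s - 1) * (2 * Real.pi * |ξ| * δ * (M : ℝ) ^ (k + 1))) ≤
        W * (2 / ε) * G (ε / 2) ξ := by
      calc g ε H ξ * (s * (M : ℝ) ^ (s - 1) * (2 * Real.pi * |ξ| * δ * (M : ℝ) ^ (k + 1)))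
          = W * (|ξ| * g ε H ξ) := by rw [hW]; ring
        _ ≤ W * (2 / ε * G (ε / 2) ξ) := by
            refine mul_le_mul_of_nonneg_left ?_ hW0
            exact (mul_le_mul_of_nonneg_left (g_le_G hε hH0 ξ) (abs_nonneg ξ)).trans (xi_G hε ξ)
        _ = _ := by ring
    calc _ ≤ _ := h3
      _ ≤ _ := by
        rw [mul_add]
        exact add_le_add le_rfl h4
  unfold Errc
  refine (lintegral_mono h1).trans ?_
  have hm : Measurable fun ξ : ℝ => ENNReal.ofReal (g ε H ξ * ∏ i, ‖F k N M (θ' i) ξ‖) := by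
    refine ENNReal.measurable_ofReal.comp (Continuous.measurable ?_)
    refine g_cont.mul (continuous_finsetProd _ fun i _ => ?_)
    have h4 : Continuous fun ξ : ℝ => ((θ' i, ξ) : ℝ × ℝ) := by fun_prop
    exact ((F_cont k N M).comp h4).norm
  rw [lintegral_add_left hm, lintegral_const_mul' _ _ ENNReal.ofReal_ne_top]
  refine add_le_add le_rfl ?_
  calc ENNReal.ofReal (W * (2 / ε)) * ∫⁻ ξ in (Set.Icc (-τ) τ)ᶜ, ENNReal.ofReal (G (ε / 2) ξ)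
      ≤ ENNReal.ofReal (W * (2 / ε)) * 1 := by
        refine mul_le_mul_right ?_ _
        exact (setLIntegral_le_lintegral _ _).trans (lint_G (by positivity)).le
    _ = _ := mul_one _

lemma Errc_meas {s k N M : ℕ} {ε H τ : ℝ} :
    Measurable fun θ : Fin s → ℝ => Errc k N M ε H τ θ := by
  unfold Errc
  refine Measurable.lintegral_prod_right' (f := fun p : (Fin s → ℝ) × ℝ =>
    ENNReal.ofReal (g ε H p.2 * ∏ i, ‖F k N M (p.1 i) p.2‖)) ?_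
  refine ENNReal.measurable_ofReal.comp (Continuous.measurable ?_)
  have hg : Continuous fun p : (Fin s → ℝ) × ℝ => g ε H p.2 := g_cont.comp continuous_snd
  refine hg.mul (continuous_finsetProd _ fun i _ => ?_)
  have h4 : Continuous fun p : (Fin s → ℝ) × ℝ => ((p.1 i, p.2) : ℝ × ℝ) := by fun_prop
  exact ((F_cont k N M).comp h4).norm

lemma avgc {s k N M : ℕ} {ε H a b τ ρ A2 A3 : ℝ} (hε : 0 < ε) (hε1 : ε ≤ 1) (hH : ε ≤ H)
    (hρ : 0 ≤ ρ) (hA2 : 0 ≤ A2) (hA3 : 0 ≤ A3)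
    (h2 : ∀ ξ : ℝ, τ < |ξ| → |ξ| ≤ ρ → E k N M a b ξ ^ s ≤ A2)
    (h3 : ∀ ξ : ℝ, τ < |ξ| → ρ < |ξ| → E k N M a b ξ ^ s ≤ A3) :
    ∫⁻ θ, Errc k N M ε H τ θ ∂(boxM s a b) ≤ ENNReal.ofReal (2 * ρ * A2 + A3) := by
  have hH0 : 0 < H := hε.trans_le hH
  have : IsFiniteMeasure (boxM s a b) := by
    unfold boxM
    infer_instance
  unfold Errc
  rw [lintegral_lintegral_swap]
  swap
  · refine Measurable.aemeasurable ?_
    refine ENNReal.measurable_ofReal.comp (Continuous.measurable ?_)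
    have hg : Continuous fun p : (Fin s → ℝ) × ℝ => g ε H p.2 := g_cont.comp continuous_snd
    refine hg.mul (continuous_finsetProd _ fun i _ => ?_)
    have h4 : Continuous fun p : (Fin s → ℝ) × ℝ => ((p.1 i, p.2) : ℝ × ℝ) := by fun_prop
    exact ((F_cont k N M).comp h4).norm
  have h5 : ∀ ξ : ℝ, ∫⁻ θ, ENNReal.ofReal (g ε H ξ * ∏ i, ‖F k N M (θ i) ξ‖) ∂(boxM s a b) =
      ENNReal.ofReal (g ε H ξ * E k N M a b ξ ^ s) := by
    intro ξ
    have hg0 := g_nonneg hε hH ξ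
    simp_rw [ENNReal.ofReal_mul hg0]
    rw [lintegral_const_mul' _ _ ENNReal.ofReal_ne_top, prod_avg]
  simp_rw [h5]
  have h6 : ∀ ξ ∈ (Set.Icc (-τ) τ)ᶜ, ENNReal.ofReal (g ε H ξ * E k N M a b ξ ^ s) ≤
      (Set.Icc (-ρ) ρ).indicator (fun _ => ENNReal.ofReal A2) ξ +
      ENNReal.ofReal A3 * ENNReal.ofReal (G ε ξ) := by
    intro ξ hξ
    have hc1 : τ < |ξ| := by
      by_contra hc
      exact hξ (abs_le.1 (not_lt.1 hc))
    have hE0 : 0 ≤ E k N M a b ξ ^ s := pow_nonneg (E_nonneg _ _ _ _ _ _) _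
    by_cases hc2 : |ξ| ≤ ρ
    · have : ξ ∈ Set.Icc (-ρ) ρ := abs_le.1 hc2
      rw [Set.indicator_of_mem this]
      have h7 : g ε H ξ * E k N M a b ξ ^ s ≤ A2 := by
        calc g ε H ξ * E k N M a b ξ ^ s ≤ 1 * E k N M a b ξ ^ s :=
              mul_le_mul_of_nonneg_right (g_le_one hε hε1 hH0 ξ) hE0
          _ ≤ A2 := by rw [one_mul]; exact h2 ξ hc1 hc2
      exact (ENNReal.ofReal_le_ofReal h7).trans le_self_add
    · rw [not_le] at hc2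
      have h8 : g ε H ξ * E k N M a b ξ ^ s ≤ A3 * G ε ξ := by
        rw [mul_comm A3]
        exact mul_le_mul (g_le_G hε hH0 ξ) (h3 ξ hc1 hc2) hE0 (G_nonneg hε ξ)
      refine (ENNReal.ofReal_le_ofReal h8).trans ?_
      rw [ENNReal.ofReal_mul hA3]
      exact le_add_left (le_refl _)
  refine (setLIntegral_mono' measurableSet_Icc.compl h6).trans ?_
  refine (setLIntegral_le_lintegral _ _).trans ?_
  have hm2 : Measurable ((Set.Icc (-ρ) ρ).indicator (fun _ : ℝ => ENNReal.ofReal A2)) :=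
    measurable_const.indicator measurableSet_Icc
  rw [lintegral_add_left hm2, lintegral_indicator_const measurableSet_Icc,
    lintegral_const_mul' _ _ ENNReal.ofReal_ne_top, lint_G hε, mul_one,
    Real.volume_Icc, ← ENNReal.ofReal_mul hA2, ← ENNReal.ofReal_add (by nlinarith) hA3]
  refine ENNReal.ofReal_le_ofReal (le_of_eq ?_)
  ring

lemma Ubound2 {k s m κ : ℕ} (hk : 2 ≤ k) (hs : 1 ≤ s) (hκ1 : κ + 38 ≤ 8 * s)
    (hκ2 : κ + 32 * k + 6 ≤ 16 * s) (hm : 1 ≤ m) {a b : ℝ} (ha : 0 < a)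
    (hab : a ≤ b) (hb : 1 ≤ b) : ∃ C : ℝ, 0 < C ∧ ∀ q : ℕ, 1 ≤ q →
    ∫⁻ θ, Errc k (q ^ 32) (m * q ^ 32) (1 / (q : ℝ) ^ 2)
      (b * k * ((m : ℝ) * (q ^ 32 : ℕ)) ^ (k - 1)) ((q : ℝ) ^ 16 / (q : ℝ) ^ (32 * k)) θ
        ∂(boxM s a b) ≤
      ENNReal.ofReal (C * ((q : ℝ) ^ (32 * s) / ((q : ℝ) ^ (32 * k) * (q : ℝ) ^ (4 + κ)))) := by
  obtain ⟨C2, hC2, hlog⟩ := log_bound s m hs hm
  obtain ⟨l, rfl⟩ : ∃ l, k = l + 1 := ⟨k - 1, by omega⟩
  have hm0 : (0 : ℝ) < m := by exact_mod_cast hm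
  have hba : 0 ≤ b - a := sub_nonneg.2 hab
  have hb0 : 0 < b := by linarith
  set c3 : ℝ := (1 + (b - a)) * √(m * (1 + (b - a))) with hc3
  have hc30 : 0 < c3 := by positivity
  refine ⟨3 * (c3 ^ s * C2), by positivity, fun q hq => ?_⟩
  have hq1 : (1 : ℝ) ≤ q := by exact_mod_cast hq
  have hq0 : (0 : ℝ) < q := by linarith
  set M : ℕ := m * q ^ 32 with hM
  have hMpos : 1 ≤ M := by
    rw [hM]
    exact Nat.mul_pos hm (pow_pos hq 32)
  set L : ℝ := 1 + Real.log (M : ℝ) with hL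
  have hL1 : 1 ≤ L := by
    have := Real.log_nonneg (x := (M : ℝ)) (by exact_mod_cast hMpos)
    rw [hL]
    linarith
  have hMr : (M : ℝ) = m * (q : ℝ) ^ 32 := by rw [hM]; push_cast; ring
  set H : ℝ := b * ((l + 1 : ℕ) : ℝ) * ((m : ℝ) * (q ^ 32 : ℕ)) ^ (l + 1 - 1) with hH
  have hHe : H = (b * (l + 1) * (m : ℝ) ^ l) * (q : ℝ) ^ (32 * l) := by
    rw [hH, Nat.add_sub_cancel]
    push_cast
    rw [mul_pow, ← pow_mul]
    ring
  have hm1 : (1 : ℝ) ≤ m := by exact_mod_cast hm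
  have hH1 : 1 ≤ H := by
    rw [hHe]
    have h1 : (1 : ℝ) ≤ (m : ℝ) ^ l := one_le_pow₀ hm1
    have h2 : (1 : ℝ) ≤ (q : ℝ) ^ (32 * l) := one_le_pow₀ hq1
    have h3 : (1 : ℝ) ≤ b * (l + 1) := by
      have : (0 : ℝ) ≤ l := Nat.cast_nonneg l
      nlinarith
    exact one_le_mul_of_one_le_of_one_le (one_le_mul_of_one_le_of_one_le h3 h1) h2
  have hε0 : (0 : ℝ) < 1 / (q : ℝ) ^ 2 := by positivity
  have hε1 : 1 / (q : ℝ) ^ 2 ≤ 1 := by
    rw [div_le_one (by positivity)]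
    exact one_le_pow₀ hq1
  set τ : ℝ := (q : ℝ) ^ 16 / (q : ℝ) ^ (32 * (l + 1)) with hτ
  set ρ : ℝ := 1 / (q : ℝ) ^ (32 * l) with hρ
  have hτ0 : 0 < τ := by positivity
  have hρ0 : 0 < ρ := by positivity
  have hav := avgc (s := s) (k := l + 1) (N := q ^ 32) (M := M) (a := a) (b := b) (τ := τ) (ρ := ρ)
    (ε := 1 / (q : ℝ) ^ 2) (H := H)
    (A2 := (c3 * √L * (q : ℝ) ^ 24) ^ s) (A3 := (c3 * √L * (q : ℝ) ^ 16) ^ s)
    hε0 hε1 (hε1.trans hH1) hρ0.le (by positivity) (by positivity)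
    (fun ξ hξ1 hξ2 => ?_) (fun ξ hξ1 hξ2 => ?_)
  · refine hav.trans (ENNReal.ofReal_le_ofReal ?_)
    have hlog' : √L ^ s ≤ C2 * (q : ℝ) ^ 2 := hlog q hq
    have t2 : 2 * ρ * (c3 * √L * (q : ℝ) ^ 24) ^ s ≤ 2 * (c3 ^ s * C2) *
        ((q : ℝ) ^ (32 * s) / ((q : ℝ) ^ (32 * (l + 1)) * (q : ℝ) ^ (4 + κ))) := by
      rw [mul_pow, mul_pow, ← pow_mul, hρ]
      have h1 : c3 ^ s * √L ^ s ≤ c3 ^ s * (C2 * (q : ℝ) ^ 2) :=
        mul_le_mul_of_nonneg_left hlog' (by positivity)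
      have h2 : 1 / (q : ℝ) ^ (32 * l) * (q : ℝ) ^ (24 * s) * (q : ℝ) ^ 2 ≤
          (q : ℝ) ^ (32 * s) / ((q : ℝ) ^ (32 * (l + 1)) * (q : ℝ) ^ (4 + κ)) := by
        rw [le_div_iff₀ (by positivity)]
        have e : 1 / (q : ℝ) ^ (32 * l) * (q : ℝ) ^ (24 * s) * (q : ℝ) ^ 2 *
            ((q : ℝ) ^ (32 * (l + 1)) * (q : ℝ) ^ (4 + κ)) = (q : ℝ) ^ (24 * s + 38 + κ) := by
          rw [show 32 * (l + 1) = 32 * l + 32 by ring, pow_add, pow_add]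
          field_simp
          rw [← pow_add, ← pow_add]
        rw [e]
        exact pow_le_pow_right₀ hq1 (by omega)
      calc 2 * (1 / (q : ℝ) ^ (32 * l)) * (c3 ^ s * √L ^ s * (q : ℝ) ^ (24 * s))
          = 2 * (c3 ^ s * √L ^ s) * (1 / (q : ℝ) ^ (32 * l) * (q : ℝ) ^ (24 * s)) := by ring
        _ ≤ 2 * (c3 ^ s * (C2 * (q : ℝ) ^ 2)) *
            (1 / (q : ℝ) ^ (32 * l) * (q : ℝ) ^ (24 * s)) := by gcongr
        _ = 2 * (c3 ^ s * C2) * (1 / (q : ℝ) ^ (32 * l) * (q : ℝ) ^ (24 * s) * (q : ℝ) ^ 2) := by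
            ring
        _ ≤ _ := mul_le_mul_of_nonneg_left h2 (by positivity)
    have t3 : (c3 * √L * (q : ℝ) ^ 16) ^ s ≤ (c3 ^ s * C2) *
        ((q : ℝ) ^ (32 * s) / ((q : ℝ) ^ (32 * (l + 1)) * (q : ℝ) ^ (4 + κ))) := by
      rw [mul_pow, mul_pow, ← pow_mul]
      have h1 : c3 ^ s * √L ^ s ≤ c3 ^ s * (C2 * (q : ℝ) ^ 2) :=
        mul_le_mul_of_nonneg_left hlog' (by positivity)
      have h2 : (q : ℝ) ^ (16 * s) * (q : ℝ) ^ 2 ≤
          (q : ℝ) ^ (32 * s) / ((q : ℝ) ^ (32 * (l + 1)) * (q : ℝ) ^ (4 + κ)) := by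
        rw [le_div_iff₀ (by positivity), ← pow_add, ← pow_add, ← pow_add]
        exact pow_le_pow_right₀ hq1 (by omega)
      calc c3 ^ s * √L ^ s * (q : ℝ) ^ (16 * s)
          ≤ c3 ^ s * (C2 * (q : ℝ) ^ 2) * (q : ℝ) ^ (16 * s) := by gcongr
        _ = (c3 ^ s * C2) * ((q : ℝ) ^ (16 * s) * (q : ℝ) ^ 2) := by ring
        _ ≤ _ := mul_le_mul_of_nonneg_left h2 (by positivity)
    calc _ ≤ 2 * (c3 ^ s * C2) * ((q : ℝ) ^ (32 * s) / ((q : ℝ) ^ (32 * (l + 1)) * (q : ℝ) ^ (4 + κ))) +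
          (c3 ^ s * C2) * ((q : ℝ) ^ (32 * s) / ((q : ℝ) ^ (32 * (l + 1)) * (q : ℝ) ^ (4 + κ))) :=
          add_le_add t2 t3
      _ = _ := by ring
  · -- middle frequencies
    have hξ0 : 0 < |ξ| := hτ0.trans hξ1
    refine pow_le_pow_left₀ (E_nonneg _ _ _ _ _ _) ?_ s
    have hV : (M : ℝ) * ((b - a) + (1 + Real.log M) /
        (|ξ| * ((q ^ 32 : ℕ) : ℝ) ^ (l + 1 - 1))) ≤ m * (1 + (b - a)) * L * ((q : ℝ) ^ 24) ^ 2 := by
      have h1 : (q : ℝ) ^ 16 * (|ξ| * ((q ^ 32 : ℕ) : ℝ) ^ (l + 1 - 1)) ≥ 1 := by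
        rw [Nat.add_sub_cancel]
        push_cast
        rw [← pow_mul]
        have h2 : τ * (q : ℝ) ^ (32 * l) * (q : ℝ) ^ 16 = 1 := by
          rw [hτ, show 32 * (l + 1) = 32 * l + 32 by ring, pow_add]
          field_simp
        have h3 : τ * (q : ℝ) ^ (32 * l) ≤ |ξ| * (q : ℝ) ^ (32 * l) :=
          mul_le_mul_of_nonneg_right hξ1.le (by positivity)
        nlinarith [mul_le_mul_of_nonneg_right h3 (by positivity : (0 : ℝ) ≤ (q : ℝ) ^ 16)]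
      have hpos : 0 < |ξ| * ((q ^ 32 : ℕ) : ℝ) ^ (l + 1 - 1) := by positivity
      have h4 : (1 + Real.log M) / (|ξ| * ((q ^ 32 : ℕ) : ℝ) ^ (l + 1 - 1)) ≤ L * (q : ℝ) ^ 16 := by
        rw [div_le_iff₀ hpos, ← hL, mul_assoc]
        nlinarith
      have h5 : (b - a) ≤ (b - a) * (L * (q : ℝ) ^ 16) := by
        have : 1 ≤ L * (q : ℝ) ^ 16 := one_le_mul_of_one_le_of_one_le hL1 (one_le_pow₀ hq1)
        nlinarith
      calc _ ≤ (M : ℝ) * ((b - a) * (L * (q : ℝ) ^ 16) + L * (q : ℝ) ^ 16) :=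
            mul_le_mul_of_nonneg_left (add_le_add h5 h4) (Nat.cast_nonneg _)
        _ = _ := by rw [hMr]; ring
    have h6 := first (k := l + 1) (N := q ^ 32) (M := M) (a := a) (b := b) (ξ := ξ) (by omega)
      (Nat.one_le_pow _ _ hq) hMpos hab (abs_pos.1 hξ0) hV (by positivity)
    refine h6.trans (le_of_eq ?_)
    rw [Real.sqrt_mul (by positivity), Real.sqrt_mul (by positivity), Real.sqrt_sq (by positivity), hc3]
    ring
  · -- large frequencies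
    have hξ0 : 0 < |ξ| := hτ0.trans hξ1
    refine pow_le_pow_left₀ (E_nonneg _ _ _ _ _ _) ?_ s
    have hV : (M : ℝ) * ((b - a) + (1 + Real.log M) /
        (|ξ| * ((q ^ 32 : ℕ) : ℝ) ^ (l + 1 - 1))) ≤ m * (1 + (b - a)) * L * ((q : ℝ) ^ 16) ^ 2 := by
      have h1 : (|ξ| * ((q ^ 32 : ℕ) : ℝ) ^ (l + 1 - 1)) ≥ 1 := by
        rw [Nat.add_sub_cancel]
        push_cast
        rw [← pow_mul]
        have h2 : ρ * (q : ℝ) ^ (32 * l) = 1 := by
          rw [hρ]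
          field_simp
        have h3 : ρ * (q : ℝ) ^ (32 * l) ≤ |ξ| * (q : ℝ) ^ (32 * l) :=
          mul_le_mul_of_nonneg_right hξ2.le (by positivity)
        linarith
      have hpos : 0 < |ξ| * ((q ^ 32 : ℕ) : ℝ) ^ (l + 1 - 1) := by positivity
      have h4 : (1 + Real.log M) / (|ξ| * ((q ^ 32 : ℕ) : ℝ) ^ (l + 1 - 1)) ≤ L := by
        rw [div_le_iff₀ hpos, ← hL]
        nlinarith
      have h5 : (b - a) ≤ (b - a) * L := by nlinarith
      calc _ ≤ (M : ℝ) * ((b - a) * L + L) :=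
            mul_le_mul_of_nonneg_left (add_le_add h5 h4) (Nat.cast_nonneg _)
        _ = _ := by rw [hMr]; ring
    have h6 := first (k := l + 1) (N := q ^ 32) (M := M) (a := a) (b := b) (ξ := ξ) (by omega)
      (Nat.one_le_pow _ _ hq) hMpos hab (abs_pos.1 hξ0) hV (by positivity)
    refine h6.trans (le_of_eq ?_)
    rw [Real.sqrt_mul (by positivity), Real.sqrt_mul (by positivity), Real.sqrt_sq (by positivity), hc3]
    ring

end Pool.Agent.H164.GW
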