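import Pool.Agent.H164.GW.Dim1

/-!
# The number of bad cubes at one scale
-/

set_option autoImplicit false

open MeasureTheory Finset Filter Topology
open scoped ENNReal

namespace Pool.Agent.H164.GW

/-- a cube of the grid of side `δ` -/
def Cube {s : ℕ} (a δ : ℝ) (n : Fin s → ℕ) : Set (Fin s → ℝ) :=
  Set.univ.pi fun i => Set.Ico (a + n i * δ) (a + ((n i : ℝ) + 1) * δ)

lemma cube_vol {s : ℕ} {a δ : ℝ} (hδ : 0 ≤ δ) (n : Fin s → ℕ) :
    volume (Cube a δ n) = ENNReal.ofReal (δ ^ s) := by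
  unfold Cube
  rw [volume_pi_pi]
  simp only [Real.volume_Ico]
  have : ∀ i : Fin s, a + ((n i : ℝ) + 1) * δ - (a + n i * δ) = δ := fun i => by ring
  simp only [this]
  rw [prod_const, card_univ, Fintype.card_fin, ENNReal.ofReal_pow hδ]

lemma cube_meas {s : ℕ} {a δ : ℝ} (n : Fin s → ℕ) : MeasurableSet (Cube a δ n) :=
  MeasurableSet.univ_pi fun _ => measurableSet_Ico

lemma cube_disj {s : ℕ} {a δ : ℝ} (hδ : 0 < δ) {n n' : Fin s → ℕ} (h : n ≠ n') :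
    Disjoint (Cube a δ n) (Cube a δ n') := by
  obtain ⟨i, hi⟩ := Function.ne_iff.1 h
  rw [Set.disjoint_left]
  intro θ h1 h2
  have h3 := h1 i (Set.mem_univ i)
  have h4 := h2 i (Set.mem_univ i)
  rw [Set.mem_Ico] at h3 h4
  rcases lt_or_gt_of_ne hi with h5 | h5
  · have h6 : (n i : ℝ) + 1 ≤ n' i := by exact_mod_cast h5
    nlinarith
  · have h6 : (n' i : ℝ) + 1 ≤ n i := by exact_mod_cast h5
    nlinarith

lemma cube_dist {s : ℕ} {a δ : ℝ} {n : Fin s → ℕ} {θ θ' : Fin s → ℝ}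
    (h1 : θ ∈ Cube a δ n) (h2 : θ' ∈ Cube a δ n) (i : Fin s) : |θ i - θ' i| ≤ δ := by
  have h3 := h1 i (Set.mem_univ i)
  have h4 := h2 i (Set.mem_univ i)
  rw [Set.mem_Ico] at h3 h4
  rw [abs_le]
  constructor <;> nlinarith

lemma cube_diam {s : ℕ} {a δ : ℝ} (n : Fin s → ℕ) :
    Metric.ediam (Cube a δ n) ≤ ENNReal.ofReal δ := by
  rw [Metric.ediam_le_iff]
  intro x hx y hy
  rw [edist_pi_le_iff]
  intro i
  rw [edist_dist, Real.dist_eq]
  exact ENNReal.ofReal_le_ofReal (cube_dist hx hy i)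

lemma cube_box {s R : ℕ} {a b δ : ℝ} (hR : 0 < R) (hδ : δ = (b - a) / R) (hab : a ≤ b)
    {n : Fin s → ℕ} (hn : n ∈ Fintype.piFinset fun _ : Fin s => range R) {θ : Fin s → ℝ}
    (h : θ ∈ Cube a δ n) (i : Fin s) : θ i ∈ Set.Icc a b := by
  have h1 := h i (Set.mem_univ i)
  rw [Set.mem_Ico] at h1
  have hR0 : (0 : ℝ) < R := by exact_mod_cast hR
  have hδ0 : 0 ≤ δ := by
    rw [hδ]
    exact div_nonneg (sub_nonneg.2 hab) hR0.le
  have h2 : (n i : ℝ) + 1 ≤ R := by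
    have := mem_range.1 (Fintype.mem_piFinset.1 hn i)
    exact_mod_cast this
  have h3 : (R : ℝ) * δ = b - a := by
    rw [hδ]
    field_simp
  constructor
  · have : 0 ≤ (n i : ℝ) * δ := by positivity
    linarith
  · nlinarith

lemma cube_cover {s R : ℕ} {a b δ : ℝ} (hR : 0 < R) (hδ : δ = (b - a) / R) (hab : a < b)
    {θ : Fin s → ℝ} (h : ∀ i, θ i ∈ Set.Ico a b) :
    ∃ n ∈ Fintype.piFinset (fun _ : Fin s => range R), θ ∈ Cube a δ n := by
  have hR0 : (0 : ℝ) < R := by exact_mod_cast hR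
  have hδ0 : 0 < δ := by
    rw [hδ]
    exact div_pos (sub_pos.2 hab) hR0
  have h3 : (R : ℝ) * δ = b - a := by
    rw [hδ]
    field_simp
  refine ⟨fun i => ⌊(θ i - a) / δ⌋₊, Fintype.mem_piFinset.2 fun i => mem_range.2 ?_, fun i _ => ?_⟩
  · rw [Nat.floor_lt (div_nonneg (by linarith [(h i).1]) hδ0.le), div_lt_iff₀ hδ0, h3]
    linarith [(h i).2]
  · have h4 := Nat.floor_le (div_nonneg (by linarith [(h i).1] : 0 ≤ θ i - a) hδ0.le)
    have h5 := Nat.lt_floor_add_one ((θ i - a) / δ)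
    rw [le_div_iff₀ hδ0] at h4
    rw [div_lt_iff₀ hδ0] at h5
    rw [Set.mem_Ico]
    constructor <;> linarith

open Classical in
/-- the bad cubes of side `(b - a) / R` at the scale `q` -/
noncomputable def Bad (s k m : ℕ) (a b : ℝ) (q R : ℕ) : Finset (Fin s → ℕ) :=
  (Fintype.piFinset fun _ : Fin s => range R).filter fun n =>
    ∃ θ ∈ Cube a ((b - a) / R) n, ENNReal.ofReal (T s k q) ≤ ErrQ k m b q θ

lemma bad_card {k s m κ : ℕ} (hk : 2 ≤ k) (hs : 1 ≤ s) (hκ1 : κ + 38 ≤ 8 * s)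
    (hκ2 : κ + 32 * k + 6 ≤ 16 * s) (hm : 1 ≤ m) {a b : ℝ} (ha : 0 < a)
    (hab : a < b) (hb : 1 ≤ b) : ∃ C : ℝ, 0 < C ∧ ∃ R0 : ℕ, 0 < R0 ∧ ∃ q0 : ℕ, ∀ q : ℕ, q0 ≤ q →
      1 ≤ q → ((Bad s k m a b q (R0 * q ^ (64 * k + 6))).card : ℝ) *
        ((b - a) / (R0 * q ^ (64 * k + 6) : ℕ)) ^ s ≤ C / (q : ℝ) ^ κ := by
  classical
  obtain ⟨C, hC, hU⟩ := Ubound2 hk hs hκ1 hκ2 hm ha hab.le hb
  have hℓ : 0 < b - a := sub_pos.2 hab
  have hb0 : 0 < b := by linarith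
  have hm0 : (0 : ℝ) < m := by exact_mod_cast hm
  have hm1 : (1 : ℝ) ≤ m := by exact_mod_cast hm
  obtain ⟨R1, hR1⟩ := exists_nat_ge (16 * Real.pi * s * (m : ℝ) ^ (s + k) * (b - a))
  obtain ⟨q0, hq0⟩ := exists_nat_ge (8 * Real.pi * (b * k * (m : ℝ) ^ (k - 1)) ^ 2 * (m : ℝ) ^ s)
  refine ⟨2 * C, by positivity, R1 + 1, by omega, q0, fun q hq hq1' => ?_⟩
  have hq1 : (1 : ℝ) ≤ q := by exact_mod_cast hq1'
  have hqp : (0 : ℝ) < q := by linarith
  set R : ℕ := (R1 + 1) * q ^ (64 * k + 6) with hR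
  have hRpos : 0 < R := by
    rw [hR]
    positivity
  have hR0 : (0 : ℝ) < R := by exact_mod_cast hRpos
  set δ : ℝ := (b - a) / R with hδ
  have hδ0 : 0 < δ := by positivity
  set H : ℝ := b * k * ((m : ℝ) * (q ^ 32 : ℕ)) ^ (k - 1) with hH
  set τ : ℝ := (q : ℝ) ^ 16 / (q : ℝ) ^ (32 * k) with hτ
  set Tq : ℝ := T s k q with hTq
  have hTpos : 0 < Tq := by
    rw [hTq]
    unfold T
    positivity
  have hk1 : (1 : ℝ) ≤ k := by exact_mod_cast (by omega : 1 ≤ k)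
  have hP1 : (1 : ℝ) ≤ ((q ^ 32 : ℕ) : ℝ) := by
    push_cast
    exact one_le_pow₀ hq1
  have hH1 : 1 ≤ H := one_le_mul_of_one_le_of_one_le (one_le_mul_of_one_le_of_one_le hb hk1)
    (one_le_pow₀ (one_le_mul_of_one_le_of_one_le hm1 hP1))
  have hε0 : (0 : ℝ) < 1 / (q : ℝ) ^ 2 := by positivity
  have hε1 : 1 / (q : ℝ) ^ 2 ≤ 1 := by
    rw [div_le_one (by positivity)]
    exact one_le_pow₀ hq1
  have hMr : ((m * q ^ 32 : ℕ) : ℝ) = m * (q : ℝ) ^ 32 := by push_cast; ring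
  -- the contribution of the small frequencies
  have hD1 : 2 * τ * (Real.pi * H ^ 2 * τ ^ 2 * ((m * q ^ 32 : ℕ) : ℝ) ^ s) ≤ Tq / 4 := by
    obtain ⟨l, rfl⟩ : ∃ l, k = l + 1 := ⟨k - 1, by omega⟩
    rw [hTq]
    unfold T
    rw [Nat.add_sub_cancel] at hq0
    rw [hH, hτ, hMr, Nat.add_sub_cancel]
    have e : 2 * ((q : ℝ) ^ 16 / (q : ℝ) ^ (32 * (l + 1))) *
          (Real.pi * (b * ((l + 1 : ℕ) : ℝ) * ((m : ℝ) * ((q ^ 32 : ℕ) : ℝ)) ^ l) ^ 2 *
            ((q : ℝ) ^ 16 / (q : ℝ) ^ (32 * (l + 1))) ^ 2 * (m * (q : ℝ) ^ 32) ^ s) =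
          (8 * Real.pi * (b * ((l + 1 : ℕ) : ℝ) * (m : ℝ) ^ l) ^ 2 * (m : ℝ) ^ s) / (q : ℝ) ^ 12 *
            ((q : ℝ) ^ (32 * s) / ((q : ℝ) ^ (32 * (l + 1)) * (q : ℝ) ^ 4)) / 4 := by
      push_cast
      rw [mul_pow (m : ℝ) ((q : ℝ) ^ 32) s, mul_pow (m : ℝ) ((q : ℝ) ^ 32) l,
        ← pow_mul (q : ℝ) 32 s, ← pow_mul (q : ℝ) 32 l]
      rw [show 32 * (l + 1) = 32 * l + 32 by ring, pow_add]
      field_simp
      ring
    rw [e]
    have h1 : (8 * Real.pi * (b * ((l + 1 : ℕ) : ℝ) * (m : ℝ) ^ l) ^ 2 * (m : ℝ) ^ s) / (q : ℝ) ^ 12 ≤ 1 := by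
      rw [div_le_one (by positivity)]
      have h2 : (q0 : ℝ) ≤ q := by exact_mod_cast hq
      have h3 : (q : ℝ) ≤ (q : ℝ) ^ 12 := le_self_pow₀ hq1 (by norm_num)
      linarith
    have h4 : (0 : ℝ) < (q : ℝ) ^ (32 * s) / ((q : ℝ) ^ (32 * (l + 1)) * (q : ℝ) ^ 4) := by positivity
    have h5 := mul_le_mul_of_nonneg_right h1 h4.le
    rw [one_mul] at h5
    linarith
  -- the variation on a cube
  have hW : s * ((m * q ^ 32 : ℕ) : ℝ) ^ (s - 1) * (2 * Real.pi * δ *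
      ((m * q ^ 32 : ℕ) : ℝ) ^ (k + 1)) * (2 / (1 / (q : ℝ) ^ 2)) ≤ Tq / 4 := by
    obtain ⟨r, rfl⟩ : ∃ r, s = r + 1 := ⟨s - 1, by omega⟩
    rw [hTq]
    unfold T
    rw [hMr, Nat.add_sub_cancel, hδ, hR]
    have e : ((r + 1 : ℕ) : ℝ) * (m * (q : ℝ) ^ 32) ^ r * (2 * Real.pi *
        ((b - a) / (((R1 + 1) * q ^ (64 * k + 6) : ℕ) : ℝ)) * (m * (q : ℝ) ^ 32) ^ (k + 1)) *
        (2 / (1 / (q : ℝ) ^ 2)) =
        (16 * Real.pi * ((r + 1 : ℕ) : ℝ) * (m : ℝ) ^ (r + 1 + k) * (b - a)) / (R1 + 1) *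
          ((q : ℝ) ^ (32 * (r + 1)) / ((q : ℝ) ^ (32 * k) * (q : ℝ) ^ 4)) / 4 := by
      push_cast
      rw [mul_pow, mul_pow, ← pow_mul, ← pow_mul, show 64 * k + 6 = 32 * k + 32 * k + 4 + 2 by ring,
        show 32 * (r + 1) = 32 * r + 32 by ring, show 32 * (k + 1) = 32 * k + 32 by ring,
        show r + 1 + k = r + (k + 1) by ring]
      simp only [pow_add]
      field_simp
      ring
    rw [e]
    have h1 : (16 * Real.pi * ((r + 1 : ℕ) : ℝ) * (m : ℝ) ^ (r + 1 + k) * (b - a)) / (R1 + 1) ≤ 1 := by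
      rw [div_le_one (by positivity)]
      linarith
    have h4 : (0 : ℝ) < (q : ℝ) ^ (32 * (r + 1)) / ((q : ℝ) ^ (32 * k) * (q : ℝ) ^ 4) := by positivity
    have h5 := mul_le_mul_of_nonneg_right h1 h4.le
    rw [one_mul] at h5
    linarith
  -- the bad cubes are contained in a set of small measure
  set S' : Set (Fin s → ℝ) := {θ | ENNReal.ofReal (Tq / 2) ≤
    Errc k (q ^ 32) (m * q ^ 32) (1 / (q : ℝ) ^ 2) H τ θ} with hS'
  have hsub : ∀ n ∈ Bad s k m a b q R, Cube a δ n ⊆ S' := by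
    intro n hn θ' hθ'
    unfold Bad at hn
    rw [mem_filter] at hn
    obtain ⟨hn1, θ, hθ, hT⟩ := hn
    rw [hS', Set.mem_ofPred_eq]
    have h1 := Err_le (s := s) (k := k) (N := q ^ 32) (M := m * q ^ 32) (H := H) (τ := τ) hε0 hε1
      (hε1.trans hH1) (by positivity) θ
    have h2 := Errc_lip (s := s) (k := k) (N := q ^ 32) (M := m * q ^ 32) (H := H) (τ := τ) hε0
      (hε1.trans hH1) hδ0.le (fun i => cube_dist hθ hθ' i)
    have h3 : ENNReal.ofReal Tq ≤ ENNReal.ofReal (Tq / 4) +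
        (Errc k (q ^ 32) (m * q ^ 32) (1 / (q : ℝ) ^ 2) H τ θ' + ENNReal.ofReal (Tq / 4)) := by
      refine hT.trans ?_
      unfold ErrQ
      refine h1.trans (add_le_add (ENNReal.ofReal_le_ofReal hD1) ?_)
      exact h2.trans (add_le_add le_rfl (ENNReal.ofReal_le_ofReal hW))
    have h4 : ENNReal.ofReal Tq = ENNReal.ofReal (Tq / 2) + ENNReal.ofReal (Tq / 2) := by
      rw [← ENNReal.ofReal_add (by positivity) (by positivity)]
      congr 1
      ring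
    have h5 : ENNReal.ofReal (Tq / 4) +
        (Errc k (q ^ 32) (m * q ^ 32) (1 / (q : ℝ) ^ 2) H τ θ' + ENNReal.ofReal (Tq / 4)) =
        ENNReal.ofReal (Tq / 2) + Errc k (q ^ 32) (m * q ^ 32) (1 / (q : ℝ) ^ 2) H τ θ' := by
      have : ENNReal.ofReal (Tq / 2) = ENNReal.ofReal (Tq / 4) + ENNReal.ofReal (Tq / 4) := by
        rw [← ENNReal.ofReal_add (by positivity) (by positivity)]
        congr 1
        ring
      rw [this]
      ring
    rw [h4, h5] at h3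
    exact (ENNReal.add_le_add_iff_left ENNReal.ofReal_ne_top).1 h3
  have hmeas : boxM s a b S' ≤ ENNReal.ofReal (2 * C / (q : ℝ) ^ κ) := by
    have h1 := meas_ge_le_lintegral_div (μ := boxM s a b)
      (f := fun θ : Fin s → ℝ => Errc k (q ^ 32) (m * q ^ 32) (1 / (q : ℝ) ^ 2) H τ θ)
      Errc_meas.aemeasurable (ε := ENNReal.ofReal (Tq / 2))
      (by simpa using hTpos) ENNReal.ofReal_ne_top
    refine h1.trans ?_
    refine (ENNReal.div_le_div_right (hU q hq1') _).trans ?_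
    rw [← ENNReal.ofReal_div_of_pos (by positivity)]
    refine ENNReal.ofReal_le_ofReal (le_of_eq ?_)
    rw [hTq]
    unfold T
    rw [pow_add]
    field_simp
  have hvol : ((Bad s k m a b q R).card : ℝ≥0∞) * ENNReal.ofReal (δ ^ s) ≤ boxM s a b S' := by
    have h1 : volume (⋃ n ∈ Bad s k m a b q R, Cube a δ n) =
        ∑ n ∈ Bad s k m a b q R, volume (Cube a δ n) :=
      measure_biUnion_finset (fun n _ n' _ h => cube_disj hδ0 h) fun n _ => cube_meas n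
    have h2 : ∑ n ∈ Bad s k m a b q R, volume (Cube a δ n) =
        ((Bad s k m a b q R).card : ℝ≥0∞) * ENNReal.ofReal (δ ^ s) := by
      rw [sum_congr rfl fun n _ => cube_vol hδ0.le n, sum_const, nsmul_eq_mul]
    rw [← h2, ← h1, boxM_eq]
    rw [Measure.restrict_apply' (MeasurableSet.univ_pi fun _ => measurableSet_Icc)]
    refine measure_mono ?_
    intro θ hθ
    simp only [Set.mem_iUnion] at hθ
    obtain ⟨n, hn, hθ⟩ := hθ
    refine ⟨hsub n hn hθ, fun i _ => ?_⟩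
    unfold Bad at hn
    exact cube_box hRpos hδ hab.le (mem_filter.1 hn).1 hθ i
  have hfin := hvol.trans hmeas
  rw [← ENNReal.ofReal_natCast, ← ENNReal.ofReal_mul (by positivity)] at hfin
  exact (ENNReal.ofReal_le_ofReal_iff (by positivity)).1 hfin

end Pool.Agent.H164.GW
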