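import Pool.Agent.H164.GW.Dim2

/-!
# The dimension of the set of exceptional coefficients
-/

set_option autoImplicit false

open MeasureTheory Finset Filter Topology
open scoped ENNReal

namespace Pool.Agent.H164.GW

/-- coefficients with small error terms are good -/
lemma good_of_small {k n m : ℕ} (hk : 2 ≤ k) (hm : 2 ≤ m) {a b : ℝ} (ha : 0 < a) (hb : 1 ≤ b)
    (hmk : (n * b * 2 ^ k + b) * 2 ^ (32 * k) < a * (m : ℝ) ^ k) {θ : Fin (n + 1) → ℝ}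
    (hθ2 : ∀ i, θ i ∈ Set.Icc a b)
    (hθ1 : ∀ᶠ j : ℕ in atTop, ErrQ k m b (2 ^ j) θ < ENNReal.ofReal (T (n + 1) k (2 ^ j))) :
    Good k θ := by
  set C1 : ℝ := n * b * 2 ^ k + b with hC1
  have hC10 : 0 < C1 := by positivity
  have hk0 : (0 : ℝ) < k := by exact_mod_cast (by omega : 0 < k)
  have hc0 : 0 < Real.exp (-Real.pi) / (b * k * (m : ℝ) ^ (k - 1)) := by
    have : (0 : ℝ) < m := by exact_mod_cast (by omega : 0 < m)
    have : 0 < b := by linarith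
    positivity
  obtain ⟨J1, hJ1⟩ := eventually_atTop.1 (hθ1.and (numeric n k m hc0))
  obtain ⟨J2, hJ2⟩ := exists_nat_gt (C1 * 2 ^ (32 * k))
  set J := max J1 J2 with hJ
  have hy : (1 : ℝ) < 2 ^ (32 * k) := one_lt_pow₀ (by norm_num) (by omega)
  refine ⟨max 1 (C1 * (2 ^ (32 * k)) ^ J), fun t ht => ?_⟩
  have ht1 : 1 ≤ t := le_trans (le_max_left _ _) ht
  have htJ : C1 * (2 ^ (32 * k)) ^ J ≤ t := le_trans (le_max_right _ _) ht
  have htC : (2 ^ (32 * k)) ^ J ≤ t / C1 := by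
    rw [le_div_iff₀ hC10, mul_comm]
    exact htJ
  have h1le : 1 ≤ t / C1 := le_trans (one_le_pow₀ hy.le) htC
  obtain ⟨j, hj1, hj2⟩ := exists_nat_pow_near h1le hy
  have hjJ : J ≤ j := by
    by_contra hc
    have h3 : (2 ^ (32 * k) : ℝ) ^ (j + 1) ≤ (2 ^ (32 * k)) ^ J := pow_le_pow_right₀ hy.le (by omega)
    linarith
  rw [le_div_iff₀ hC10] at hj1
  rw [div_lt_iff₀ hC10] at hj2
  have hPk : (((2 ^ j) ^ 32 : ℕ) : ℝ) ^ k = (2 ^ (32 * k)) ^ j := by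
    push_cast
    rw [← pow_mul, ← pow_mul, ← pow_mul]
    congr 1
    ring
  obtain ⟨h4, h5⟩ := hJ1 j ((le_max_left _ _).trans hjJ)
  obtain ⟨x, hx1, hx2⟩ := step (k := k) (n := n) (m := m) (t := t) (by omega) (by omega) ha hb hθ2
    (q := 2 ^ j) Nat.one_le_two_pow h4 (by rw [hPk]; linarith)
    (by
      rw [mul_pow, hPk]
      rw [pow_succ] at hj2
      have h6 : (0 : ℝ) < (2 ^ (32 * k)) ^ j := by positivity
      nlinarith) h5
  refine ⟨x, hx1, hx2.trans_le ?_⟩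
  -- `t ≤ (2 ^ j) ^ (40 k)`
  have h7 : t ≤ (((2 ^ j : ℕ) : ℝ)) ^ (40 * k) := by
    have h8 : C1 * 2 ^ (32 * k) ≤ (2 : ℝ) ^ (8 * k * j) := by
      have h9 : (j : ℝ) ≤ (2 : ℝ) ^ (8 * k * j) := by
        have h10 : j ≤ 2 ^ j := Nat.lt_two_pow_self.le
        have h11 : (2 : ℕ) ^ j ≤ 2 ^ (8 * k * j) := by
          refine Nat.pow_le_pow_right (by norm_num) ?_
          nlinarith
        exact_mod_cast h10.trans h11
      have h12 : (J2 : ℝ) ≤ j := by exact_mod_cast (le_max_right _ _).trans hjJ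
      linarith
    have h13 : (((2 ^ j : ℕ) : ℝ)) ^ (40 * k) = (2 : ℝ) ^ (8 * k * j) * (2 ^ (32 * k)) ^ j := by
      push_cast
      rw [← pow_mul, ← pow_mul, ← pow_add]
      congr 1
      ring
    rw [h13]
    rw [pow_succ] at hj2
    have h6 : (0 : ℝ) < (2 ^ (32 * k)) ^ j := by positivity
    nlinarith
  have hq0 : (0 : ℝ) < ((2 ^ j : ℕ) : ℝ) := by exact_mod_cast Nat.one_le_two_pow
  have ht0 : 0 < t := by linarith
  rw [Real.rpow_neg ht0.le, ← one_div]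
  refine one_div_le_one_div_of_le (Real.rpow_pos_of_pos ht0 _) ?_
  have h14 := Real.rpow_le_rpow ht0.le h7 (by positivity : (0 : ℝ) ≤ 1 / (40 * k : ℝ))
  refine h14.trans (le_of_eq ?_)
  have h15 := Real.pow_rpow_inv_natCast hq0.le (n := 40 * k) (by omega)
  rw [one_div]
  push_cast at h15 ⊢
  exact h15

/-- the exceptional coefficients in a box -/
lemma dim_box {k n κ : ℕ} (hk : 2 ≤ k) (hκ1 : κ + 38 ≤ 8 * (n + 1))
    (hκ2 : κ + 32 * k + 6 ≤ 16 * (n + 1)) {a b : ℝ} (ha : 0 < a) (hab : a < b) (hb : 1 ≤ b)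
    {D : ℝ} (hD0 : 0 < D) (hD : ((n + 1 : ℕ) : ℝ) - κ / ((64 * k + 6 : ℕ) : ℝ) < D) :
    dimH {θ : Fin (n + 1) → ℝ | (∀ i, θ i ∈ Set.Ico a b) ∧ ¬ Good k θ} ≤ ENNReal.ofReal D := by
  classical
  obtain ⟨m0, hm0⟩ := exists_nat_gt ((n * b * 2 ^ k + b) * 2 ^ (32 * k) / a)
  set m : ℕ := m0 + 2 with hm
  have hmk : (n * b * 2 ^ k + b) * 2 ^ (32 * k) < a * (m : ℝ) ^ k := by
    rw [div_lt_iff₀ ha] at hm0
    have h1 : (m0 : ℝ) ≤ (m : ℝ) ^ k := by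
      have h2 : (m : ℝ) ≤ (m : ℝ) ^ k := le_self_pow₀ (by exact_mod_cast (by omega : 1 ≤ m)) (by omega)
      have h3 : (m0 : ℝ) ≤ m := by exact_mod_cast (by omega : m0 ≤ m)
      linarith
    nlinarith
  obtain ⟨C, hC, R0, hR0, q0, hcard⟩ := bad_card (s := n + 1) (m := m) (κ := κ) hk (by omega) hκ1 hκ2
    (by omega) ha hab hb
  set e : ℕ := 64 * k + 6 with he
  have hℓ : 0 < b - a := sub_pos.2 hab
  have hR0' : (0 : ℝ) < R0 := by exact_mod_cast hR0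
  set δ : ℕ → ℝ := fun j => (b - a) / (R0 * (2 ^ (j + q0)) ^ e : ℕ) with hδ
  have hδ0 : ∀ j, 0 < δ j := fun j => by
    simp only [hδ]
    positivity
  set B : ℕ → Finset (Fin (n + 1) → ℕ) := fun j =>
    Bad (n + 1) k m a b (2 ^ (j + q0)) (R0 * (2 ^ (j + q0)) ^ e) with hB
  set A : (Σ j : ℕ, (B j)) → Set (Fin (n + 1) → ℝ) := fun q => Cube a (δ q.1) q.2 with hA
  set r : (Σ j : ℕ, (B j)) → ℝ := fun q => δ q.1 with hr
  have hs : Summable fun q => (r q) ^ D := by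
    rw [summable_sigma_of_nonneg (fun q => Real.rpow_nonneg (hδ0 _).le _)]
    refine ⟨fun n => (hasSum_fintype _).summable, ?_⟩
    set ρ : ℝ := (2 : ℝ) ^ (e * (((n + 1 : ℕ) : ℝ) - D) - κ) with hρ
    have hρ0 : 0 < ρ := Real.rpow_pos_of_pos (by norm_num) _
    have he0 : (0 : ℝ) < e := by
      rw [he]
      positivity
    have hρ1 : ρ < 1 := by
      rw [hρ]
      refine Real.rpow_lt_one_of_one_lt_of_neg (by norm_num) ?_
      have h1 : ((n + 1 : ℕ) : ℝ) - D < κ / e := by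
        have := hD
        linarith
      rw [lt_div_iff₀ he0] at h1
      linarith
    refine Summable.of_nonneg_of_le (fun j => tsum_nonneg fun t => Real.rpow_nonneg (hδ0 _).le _)
      (fun j => ?_) (((summable_geometric_of_lt_one hρ0.le hρ1).mul_left
        (C * ((b - a) / R0) ^ (D - ((n + 1 : ℕ) : ℝ)) * ρ ^ q0)))
    have h0 : ∑ x : (B j), (r ⟨j, x⟩) ^ D = ((B j).card : ℝ) * (δ j) ^ D := by
      have : ∀ x : (B j), (r ⟨j, x⟩) ^ D = (δ j) ^ D := fun x => rfl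
      rw [Finset.sum_congr rfl (fun x _ => this x), Finset.sum_const, Finset.card_univ,
        Fintype.card_coe, nsmul_eq_mul]
    rw [tsum_fintype, h0]
    have hq0j : q0 ≤ 2 ^ (j + q0) :=
      Nat.lt_two_pow_self.le.trans (Nat.pow_le_pow_right (by norm_num) (by omega))
    have h1 := hcard (2 ^ (j + q0)) hq0j Nat.one_le_two_pow
    have h1' : ((B j).card : ℝ) * (δ j) ^ (n + 1) ≤ C / (((2 ^ (j + q0) : ℕ) : ℝ)) ^ κ := h1
    have hsplit : (δ j) ^ D = (δ j) ^ (n + 1) * (δ j) ^ (D - ((n + 1 : ℕ) : ℝ)) := by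
      rw [← Real.rpow_natCast (δ j) (n + 1), ← Real.rpow_add (hδ0 j)]
      congr 1
      ring
    rw [hsplit, ← mul_assoc]
    refine (mul_le_mul_of_nonneg_right h1' (Real.rpow_nonneg (hδ0 j).le _)).trans (le_of_eq ?_)
    have hx0 : (0 : ℝ) < (2 : ℝ) ^ (j + q0) := by positivity
    have h2 : (δ j) ^ (D - ((n + 1 : ℕ) : ℝ)) = ((b - a) / R0) ^ (D - ((n + 1 : ℕ) : ℝ)) *
        ((2 : ℝ) ^ (j + q0)) ^ ((e : ℝ) * (((n + 1 : ℕ) : ℝ) - D)) := by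
      have e1 : δ j = ((b - a) / R0) * (((2 : ℝ) ^ (j + q0)) ^ (e : ℝ))⁻¹ := by
        simp only [hδ]
        rw [Real.rpow_natCast]
        push_cast
        rw [div_mul_eq_div_div, div_eq_mul_inv]
      rw [e1, Real.mul_rpow (by positivity) (by positivity), Real.inv_rpow (by positivity),
        ← Real.rpow_mul hx0.le, ← Real.rpow_neg hx0.le]
      congr 2
      ring
    rw [h2]
    have h3 : ρ ^ q0 * ρ ^ j = ((2 : ℝ) ^ (j + q0)) ^ ((e : ℝ) * (((n + 1 : ℕ) : ℝ) - D)) /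
        (((2 ^ (j + q0) : ℕ) : ℝ)) ^ κ := by
      push_cast
      rw [← Real.rpow_natCast ((2 : ℝ) ^ (j + q0)) κ, ← Real.rpow_sub hx0, ← pow_add, hρ,
        ← Real.rpow_natCast _ (q0 + j), ← Real.rpow_mul (by norm_num : (0 : ℝ) ≤ 2),
        ← Real.rpow_natCast 2 (j + q0), ← Real.rpow_mul (by norm_num : (0 : ℝ) ≤ 2)]
      congr 1
      push_cast
      ring
    rw [mul_assoc (C * ((b - a) / R0) ^ (D - ((n + 1 : ℕ) : ℝ))), h3]
    ring
  refine (dimH_mono ?_).trans (Pool.Agent.H164.LS.dimH_limsup A hD0 r (fun q => (hδ0 _).le)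
    (fun q => cube_diam _) hs)
  rintro θ ⟨hθ, hbad⟩
  have hfreq : ∃ᶠ j : ℕ in atTop,
      ENNReal.ofReal (T (n + 1) k (2 ^ j)) ≤ ErrQ k m b (2 ^ j) θ := by
    intro hcon
    refine hbad (good_of_small hk (by omega) ha hb hmk (fun i => ⟨(hθ i).1, (hθ i).2.le⟩) ?_)
    exact hcon.mono fun j hj => not_le.1 hj
  have h1 : ∀ n₁ : ℕ, ∃ q : (Σ j : ℕ, (B j)), n₁ ≤ q.1 ∧ θ ∈ A q := by
    intro n₁
    obtain ⟨j, hj, hj'⟩ := frequently_atTop.1 hfreq (n₁ + q0)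
    obtain ⟨i, rfl⟩ : ∃ i, j = i + q0 := ⟨j - q0, by omega⟩
    have hRpos : 0 < R0 * (2 ^ (i + q0)) ^ e := by positivity
    obtain ⟨x, hx, hx'⟩ := cube_cover (R := R0 * (2 ^ (i + q0)) ^ e) hRpos rfl hab hθ
    have hx2 : x ∈ B i := by
      simp only [hB]
      unfold Bad
      rw [mem_filter]
      exact ⟨hx, θ, hx', hj'⟩
    exact ⟨⟨i, ⟨x, hx2⟩⟩, by
      show n₁ ≤ i
      omega, hx'⟩
  show {q | θ ∈ A q}.Infinite
  intro hf
  obtain ⟨N, hN⟩ : ∃ N : ℕ, ∀ q ∈ {q | θ ∈ A q}, q.1 < N := by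
    obtain ⟨N, hN⟩ := (hf.image (fun q : (Σ j : ℕ, (B j)) => q.1)).bddAbove
    exact ⟨N + 1, fun q hq => Nat.lt_succ_of_le (hN (Set.mem_image_of_mem _ hq))⟩
  obtain ⟨q, hq1, hq2⟩ := h1 N
  exact absurd (hN q hq2) (not_lt.2 hq1)

/-- the exceptional coefficients -/
theorem dim_bad {k s κ : ℕ} (hk : 2 ≤ k) (hκ1 : κ + 38 ≤ 8 * s) (hκ2 : κ + 32 * k + 6 ≤ 16 * s) :
    dimH {θ : Fin s → ℝ | (∀ i, 0 < θ i) ∧ ¬ Good k θ} ≤
      ENNReal.ofReal (s - κ / ((64 * k + 6 : ℕ) : ℝ)) := by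
  obtain ⟨n, rfl⟩ : ∃ n, s = n + 1 := ⟨s - 1, by omega⟩
  have hcov : {θ : Fin (n + 1) → ℝ | (∀ i, 0 < θ i) ∧ ¬ Good k θ} ⊆
      ⋃ c : ℕ, {θ : Fin (n + 1) → ℝ |
        (∀ i, θ i ∈ Set.Ico (1 / ((c : ℝ) + 2)) ((c : ℝ) + 2)) ∧ ¬ Good k θ} := by
    rintro θ ⟨hpos, hbad⟩
    obtain ⟨c, hc⟩ := exists_nat_ge (∑ i, (θ i + 1 / θ i))
    refine Set.mem_iUnion.2 ⟨c, fun i => ?_, hbad⟩
    have h3 : θ i + 1 / θ i ≤ c := by
      refine le_trans ?_ hc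
      exact single_le_sum (f := fun i => θ i + 1 / θ i)
        (fun i _ => add_nonneg (hpos i).le (one_div_nonneg.2 (hpos i).le)) (mem_univ i)
    have h4 := hpos i
    have h5 : 0 < 1 / θ i := by positivity
    constructor
    · rw [div_le_iff₀ (by positivity)]
      have h6 : 1 / θ i ≤ (c : ℝ) + 2 := by linarith
      rw [div_le_iff₀ h4] at h6
      linarith
    · linarith
  refine (dimH_mono hcov).trans ?_
  rw [dimH_iUnion]
  refine iSup_le fun c => ?_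
  have hc : (0 : ℝ) ≤ c := Nat.cast_nonneg c
  have he0 : (0 : ℝ) < ((64 * k + 6 : ℕ) : ℝ) := by positivity
  have hpos : 0 < ((n + 1 : ℕ) : ℝ) - κ / ((64 * k + 6 : ℕ) : ℝ) := by
    rw [sub_pos, div_lt_iff₀ he0]
    have h1 : (κ : ℝ) + 38 ≤ 8 * ((n + 1 : ℕ) : ℝ) := by exact_mod_cast hκ1
    have h2 : (6 : ℝ) ≤ ((64 * k + 6 : ℕ) : ℝ) := by
      push_cast
      linarith [Nat.cast_nonneg (α := ℝ) k]
    have h3 : (134 : ℝ) ≤ ((64 * k + 6 : ℕ) : ℝ) := by exact_mod_cast (by omega : 134 ≤ 64 * k + 6)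
    have h4 : (0 : ℝ) < ((n + 1 : ℕ) : ℝ) := by positivity
    nlinarith
  refine ENNReal.le_of_forall_pos_le_add fun η hη _ => ?_
  have h1 := dim_box (k := k) (n := n) (κ := κ) hk hκ1 hκ2 (a := 1 / ((c : ℝ) + 2))
    (b := (c : ℝ) + 2) (by positivity) (by
      rw [div_lt_iff₀ (by linarith)]
      nlinarith) (by linarith) (D := ((n + 1 : ℕ) : ℝ) - κ / ((64 * k + 6 : ℕ) : ℝ) + η)
    (add_pos hpos (by exact_mod_cast hη)) (by
      have : (0 : ℝ) < η := by exact_mod_cast hη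
      linarith)
  refine h1.trans ?_
  rw [ENNReal.ofReal_add hpos.le (NNReal.coe_nonneg η), ENNReal.ofReal_coe_nnreal]

end Pool.Agent.H164.GW
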