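import Pool.Agent.H164.GW.Core

/-!
# Comparison of a fine and a coarse count
-/

set_option autoImplicit false

open MeasureTheory Finset Filter Topology
open scoped ENNReal

namespace Pool.Agent.H164.GW

/-- a Gaussian -/
noncomputable def G (ε ξ : ℝ) : ℝ := ε * Real.exp (-(Real.pi * ε ^ 2) * ξ ^ 2)

lemma G_nonneg {ε : ℝ} (hε : 0 < ε) (ξ : ℝ) : 0 ≤ G ε ξ := by
  unfold G
  positivity

lemma G_cont (ε : ℝ) : Continuous (G ε) := by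
  unfold G
  fun_prop

lemma G_int {ε : ℝ} (hε : 0 < ε) : Integrable (G ε) := by
  unfold G
  exact (integrable_exp_neg_mul_sq (by positivity)).const_mul ε

lemma four {ε : ℝ} (hε : 0 < ε) (u : ℝ) :
    ∫ ξ : ℝ, ((G ε ξ : ℝ) : ℂ) * Complex.exp (((2 * Real.pi * ξ * u : ℝ) : ℂ) * Complex.I) =
      ((Real.exp (-(Real.pi * (u / ε) ^ 2)) : ℝ) : ℂ) := by
  have hb : 0 < (((Real.pi * ε ^ 2 : ℝ) : ℂ)).re := by
    rw [Complex.ofReal_re]
    positivity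
  have h := fourierIntegral_gaussian hb (((2 * Real.pi * u : ℝ) : ℂ))
  have hεC : (ε : ℂ) ≠ 0 := by exact_mod_cast hε.ne'
  have hπC : (Real.pi : ℂ) ≠ 0 := by exact_mod_cast Real.pi_ne_zero
  have h1 : ((Real.pi : ℂ) / ((Real.pi * ε ^ 2 : ℝ) : ℂ)) ^ (1 / 2 : ℂ) = ((1 / ε : ℝ) : ℂ) := by
    have e1 : ((Real.pi : ℂ) / ((Real.pi * ε ^ 2 : ℝ) : ℂ)) = (((1 / ε) ^ 2 : ℝ) : ℂ) := by
      push_cast
      field_simp
    rw [e1]
    have e2 : (1 / 2 : ℂ) = ((1 / 2 : ℝ) : ℂ) := by push_cast; ring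
    rw [e2, ← Complex.ofReal_cpow (by positivity), ← Real.sqrt_eq_rpow, Real.sqrt_sq (by positivity)]
  rw [h1] at h
  have h2 : (fun ξ : ℝ => ((G ε ξ : ℝ) : ℂ) *
      Complex.exp (((2 * Real.pi * ξ * u : ℝ) : ℂ) * Complex.I)) =
      fun ξ : ℝ => (ε : ℂ) * (Complex.exp (Complex.I * ((2 * Real.pi * u : ℝ) : ℂ) * ξ) *
        Complex.exp (-((Real.pi * ε ^ 2 : ℝ) : ℂ) * ξ ^ 2)) := by
    funext ξ
    unfold G
    push_cast
    rw [show (2 * (Real.pi : ℂ) * ξ * u * Complex.I : ℂ) =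
      Complex.I * (2 * (Real.pi : ℂ) * u) * ξ by ring]
    ring
  rw [h2, integral_const_mul, h]
  push_cast
  rw [← mul_assoc, mul_one_div_cancel hεC, one_mul]
  congr 1
  field_simp
  ring

/-- the difference of a fine and a coarse Gaussian -/
noncomputable def g (ε H ξ : ℝ) : ℝ := G ε ξ - ε / H * G H ξ

lemma g_eq {ε H : ℝ} (hH : 0 < H) (ξ : ℝ) : g ε H ξ =
    ε * (Real.exp (-(Real.pi * ε ^ 2) * ξ ^ 2) - Real.exp (-(Real.pi * H ^ 2) * ξ ^ 2)) := by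
  unfold g G
  field_simp

lemma g_nonneg {ε H : ℝ} (hε : 0 < ε) (hH : ε ≤ H) (ξ : ℝ) : 0 ≤ g ε H ξ := by
  rw [g_eq (hε.trans_le hH)]
  refine mul_nonneg hε.le (sub_nonneg.2 (Real.exp_le_exp.2 ?_))
  have : ε ^ 2 ≤ H ^ 2 := pow_le_pow_left₀ hε.le hH 2
  nlinarith [Real.pi_pos, sq_nonneg ξ, mul_le_mul_of_nonneg_left this Real.pi_pos.le,
    mul_le_mul_of_nonneg_right (mul_le_mul_of_nonneg_left this Real.pi_pos.le) (sq_nonneg ξ)]

lemma g_le_G {ε H : ℝ} (hε : 0 < ε) (hH : 0 < H) (ξ : ℝ) : g ε H ξ ≤ G ε ξ := by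
  unfold g
  have := mul_nonneg (div_pos hε hH).le (G_nonneg hH ξ)
  linarith

lemma g_le_one {ε H : ℝ} (hε : 0 < ε) (hε1 : ε ≤ 1) (hH : 0 < H) (ξ : ℝ) : g ε H ξ ≤ 1 := by
  refine (g_le_G hε hH ξ).trans ?_
  unfold G
  have : Real.exp (-(Real.pi * ε ^ 2) * ξ ^ 2) ≤ 1 := by
    rw [Real.exp_le_one_iff]
    have : 0 ≤ Real.pi * ε ^ 2 * ξ ^ 2 := by positivity
    linarith
  nlinarith [Real.exp_pos (-(Real.pi * ε ^ 2) * ξ ^ 2)]

lemma g_le_sq {ε H : ℝ} (hε : 0 < ε) (hε1 : ε ≤ 1) (hH : 0 < H) (ξ : ℝ) :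
    g ε H ξ ≤ Real.pi * H ^ 2 * ξ ^ 2 := by
  rw [g_eq hH]
  have h1 : Real.exp (-(Real.pi * ε ^ 2) * ξ ^ 2) ≤ 1 := by
    rw [Real.exp_le_one_iff]
    have : 0 ≤ Real.pi * ε ^ 2 * ξ ^ 2 := by positivity
    linarith
  have h2 := Real.add_one_le_exp (-(Real.pi * H ^ 2) * ξ ^ 2)
  have h3 : 0 ≤ Real.pi * H ^ 2 * ξ ^ 2 := by positivity
  have h4 : Real.exp (-(Real.pi * ε ^ 2) * ξ ^ 2) - Real.exp (-(Real.pi * H ^ 2) * ξ ^ 2) ≤
      Real.pi * H ^ 2 * ξ ^ 2 := by linarith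
  calc _ ≤ ε * (Real.pi * H ^ 2 * ξ ^ 2) := mul_le_mul_of_nonneg_left h4 hε.le
    _ ≤ 1 * (Real.pi * H ^ 2 * ξ ^ 2) := mul_le_mul_of_nonneg_right hε1 h3
    _ = _ := one_mul _

lemma g_cont {ε H : ℝ} : Continuous (g ε H) := by
  unfold g
  exact (G_cont ε).sub (continuous_const.mul (G_cont H))

lemma osc_int {ε : ℝ} (hε : 0 < ε) (u : ℝ) : Integrable fun ξ : ℝ => ((G ε ξ : ℝ) : ℂ) *
    Complex.exp (((2 * Real.pi * ξ * u : ℝ) : ℂ) * Complex.I) := by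
  refine (G_int hε).mono' (Continuous.aestronglyMeasurable ?_) (ae_of_all _ fun ξ => ?_)
  · have := G_cont ε
    fun_prop
  · rw [norm_mul, Complex.norm_exp_ofReal_mul_I, mul_one, Complex.norm_real,
      Real.norm_of_nonneg (G_nonneg hε ξ)]

lemma four_diff {ε H : ℝ} (hε : 0 < ε) (hH : 0 < H) (u : ℝ) :
    ∫ ξ : ℝ, ((g ε H ξ : ℝ) : ℂ) * Complex.exp (((2 * Real.pi * ξ * u : ℝ) : ℂ) * Complex.I) =
      ((Real.exp (-(Real.pi * (u / ε) ^ 2)) - ε / H * Real.exp (-(Real.pi * (u / H) ^ 2)) : ℝ) : ℂ) := by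
  have h1 := four hε u
  have h2 := four hH u
  have e : (fun ξ : ℝ => ((g ε H ξ : ℝ) : ℂ) *
      Complex.exp (((2 * Real.pi * ξ * u : ℝ) : ℂ) * Complex.I)) = fun ξ : ℝ =>
      ((G ε ξ : ℝ) : ℂ) * Complex.exp (((2 * Real.pi * ξ * u : ℝ) : ℂ) * Complex.I) -
      ((ε / H : ℝ) : ℂ) * (((G H ξ : ℝ) : ℂ) *
        Complex.exp (((2 * Real.pi * ξ * u : ℝ) : ℂ) * Complex.I)) := by
    funext ξ
    unfold g
    push_cast
    ring
  rw [e, integral_sub (osc_int hε u) ((osc_int hH u).const_mul _), integral_const_mul, h1, h2]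
  push_cast
  ring

lemma diff_int {ε H : ℝ} (hε : 0 < ε) (hH : 0 < H) (u : ℝ) : Integrable fun ξ : ℝ =>
    ((g ε H ξ : ℝ) : ℂ) * Complex.exp (((2 * Real.pi * ξ * u : ℝ) : ℂ) * Complex.I) := by
  have e : (fun ξ : ℝ => ((g ε H ξ : ℝ) : ℂ) *
      Complex.exp (((2 * Real.pi * ξ * u : ℝ) : ℂ) * Complex.I)) = fun ξ : ℝ =>
      ((G ε ξ : ℝ) : ℂ) * Complex.exp (((2 * Real.pi * ξ * u : ℝ) : ℂ) * Complex.I) -
      ((ε / H : ℝ) : ℂ) * (((G H ξ : ℝ) : ℂ) *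
        Complex.exp (((2 * Real.pi * ξ * u : ℝ) : ℂ) * Complex.I)) := by
    funext ξ
    unfold g
    push_cast
    ring
  rw [e]
  exact (osc_int hε u).sub ((osc_int hH u).const_mul _)

/-- the error term -/
noncomputable def Err {s : ℕ} (k N M : ℕ) (ε H : ℝ) (θ : Fin s → ℝ) : ℝ≥0∞ :=
  ∫⁻ ξ : ℝ, ENNReal.ofReal (g ε H ξ * ∏ i, ‖F k N M (θ i) ξ‖)

/-- the values -/
noncomputable def val {s : ℕ} (k : ℕ) (θ : Fin s → ℝ) (x : Fin s → ℕ) : ℝ :=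
  ∑ i, θ i * (x i : ℝ) ^ k

lemma compare {s k N M : ℕ} {ε H : ℝ} (hε : 0 < ε) (hH : ε ≤ H) (θ : Fin s → ℝ) (t : ℝ) :
    ENNReal.ofReal |∑ x ∈ Fintype.piFinset (fun _ : Fin s => Ico N M),
      (Real.exp (-(Real.pi * ((val k θ x - t) / ε) ^ 2)) -
        ε / H * Real.exp (-(Real.pi * ((val k θ x - t) / H) ^ 2)))| ≤ Err k N M ε H θ := by
  have hH0 : 0 < H := hε.trans_le hH
  set X := Fintype.piFinset (fun _ : Fin s => Ico N M) with hX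
  have h1 : ∀ ξ : ℝ, ∑ x ∈ X,
      Complex.exp (((2 * Real.pi * ξ * (val k θ x - t) : ℝ) : ℂ) * Complex.I) =
      Complex.exp (((-(2 * Real.pi * ξ * t) : ℝ) : ℂ) * Complex.I) * ∏ i, F k N M (θ i) ξ := by
    intro ξ
    unfold F
    rw [prod_univ_sum, mul_sum]
    refine sum_congr rfl fun x _ => ?_
    rw [← Complex.exp_sum, ← Complex.exp_add]
    congr 1
    unfold val
    rw [← sum_mul, ← add_mul]
    congr 1
    push_cast
    rw [mul_sub, mul_sum]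
    ring
  have h2 : ∫ ξ : ℝ, ((g ε H ξ : ℝ) : ℂ) * ∑ x ∈ X,
      Complex.exp (((2 * Real.pi * ξ * (val k θ x - t) : ℝ) : ℂ) * Complex.I) =
      ((∑ x ∈ X, (Real.exp (-(Real.pi * ((val k θ x - t) / ε) ^ 2)) -
        ε / H * Real.exp (-(Real.pi * ((val k θ x - t) / H) ^ 2))) : ℝ) : ℂ) := by
    simp_rw [mul_sum]
    rw [integral_finsetSum _ fun x _ => diff_int hε hH0 _]
    rw [Complex.ofReal_sum]
    exact sum_congr rfl fun x _ => four_diff hε hH0 _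
  have h3 := enorm_integral_le_lintegral_enorm (μ := (volume : Measure ℝ))
    (fun ξ : ℝ => ((g ε H ξ : ℝ) : ℂ) * ∑ x ∈ X,
      Complex.exp (((2 * Real.pi * ξ * (val k θ x - t) : ℝ) : ℂ) * Complex.I))
  rw [h2] at h3
  rw [← ofReal_norm, Complex.norm_real, Real.norm_eq_abs] at h3
  refine h3.trans (le_of_eq ?_)
  unfold Err
  refine lintegral_congr fun ξ => ?_
  rw [h1, ← ofReal_norm, norm_mul, norm_mul, Complex.norm_exp_ofReal_mul_I, one_mul,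
    norm_prod, Complex.norm_real, Real.norm_of_nonneg (g_nonneg hε hH ξ)]

end Pool.Agent.H164.GW
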