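import Pool.Agent.H164.GW.TwoMain
import Pool.Agent.H373R2.T4.DivB

/-!
# The fourth moment of the sum over genuine `k`-th powers
-/

set_option autoImplicit false

open MeasureTheory Finset Filter Topology
open scoped ENNReal

namespace Pool.Agent.H164.GW

lemma diff_mono (k : ℕ) (d : ℝ) (hd : 0 ≤ d) {v w : ℝ} (hv : 0 ≤ v) (hvw : v ≤ w) :
    (v + d) ^ k - v ^ k ≤ (w + d) ^ k - w ^ k := by
  induction k with
  | zero => simp
  | succ k ih =>
    have e : ∀ u : ℝ, (u + d) ^ (k + 1) - u ^ (k + 1) = (u + d) * ((u + d) ^ k - u ^ k) + d * u ^ k := by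
      intro u
      ring
    rw [e, e]
    have h0 : 0 ≤ (v + d) ^ k - v ^ k :=
      sub_nonneg.2 (pow_le_pow_left₀ hv (by linarith) k)
    have h1 : v ^ k ≤ w ^ k := pow_le_pow_left₀ hv hvw k
    exact add_le_add (mul_le_mul (by linarith) ih h0 (by linarith)) (mul_le_mul_of_nonneg_left h1 hd)

lemma diff_strict {k : ℕ} (hk : 2 ≤ k) {d : ℝ} (hd : 0 < d) {v w : ℝ} (hv : 0 ≤ v) (hvw : v < w) :
    (v + d) ^ k - v ^ k < (w + d) ^ k - w ^ k := by
  obtain ⟨l, rfl⟩ : ∃ l, k = l + 1 := ⟨k - 1, by omega⟩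
  have e : ∀ u : ℝ, (u + d) ^ (l + 1) - u ^ (l + 1) = (u + d) * ((u + d) ^ l - u ^ l) + d * u ^ l := by
    intro u
    ring
  rw [e, e]
  have h0 : 0 ≤ (v + d) ^ l - v ^ l := sub_nonneg.2 (pow_le_pow_left₀ hv (by linarith) l)
  have h1 : v ^ l < w ^ l := pow_lt_pow_left₀ hvw hv (by omega)
  exact add_lt_add_of_le_of_lt (mul_le_mul (by linarith) (diff_mono l d hd.le hv hvw.le) h0 (by linarith))
    (mul_lt_mul_of_pos_left h1 hd)

/-- the number of representations as a difference of two `k`-th powers -/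
lemma count_diff {k N M D : ℕ} (hk : 2 ≤ k) {m : ℕ} (hm : m ≠ 0) (hD : m.divisors.card ≤ D) :
    (((Ico N M) ×ˢ (Ico N M)).filter fun p => p.1 ^ k = p.2 ^ k + m).card ≤ D := by
  classical
  refine le_trans ?_ hD
  refine card_le_card_of_injOn (fun p => p.1 - p.2) ?_ ?_
  · intro p hp
    have hp := mem_filter.1 (mem_coe.1 hp)
    have h1 : p.1 ^ k - p.2 ^ k = m := by omega
    refine mem_coe.2 (Nat.mem_divisors.2 ⟨?_, hm⟩)
    rw [← h1]
    exact Nat.sub_dvd_pow_sub_pow _ _ k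
  · intro p hp p' hp' h
    have hp := (mem_filter.1 (mem_coe.1 hp)).2
    have hp' := (mem_filter.1 (mem_coe.1 hp')).2
    have h' : p.1 - p.2 = p'.1 - p'.2 := h
    have hlt : p.2 < p.1 := lt_of_pow_lt_pow_left₀ k (by omega) (by omega)
    have hlt' : p'.2 < p'.1 := lt_of_pow_lt_pow_left₀ k (by omega) (by omega)
    have hd : (0 : ℝ) < ((p.1 - p.2 : ℕ) : ℝ) := by exact_mod_cast (by omega : 0 < p.1 - p.2)
    have e1 : (p.2 : ℝ) + ((p.1 - p.2 : ℕ) : ℝ) = p.1 := by exact_mod_cast (by omega : p.2 + (p.1 - p.2) = p.1)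
    have e2 : (p'.2 : ℝ) + ((p.1 - p.2 : ℕ) : ℝ) = p'.1 := by
      exact_mod_cast (by omega : p'.2 + (p.1 - p.2) = p'.1)
    have f1 : (p.1 : ℝ) ^ k - (p.2 : ℝ) ^ k = m := by
      have : (p.1 : ℝ) ^ k = (p.2 : ℝ) ^ k + m := by exact_mod_cast hp
      linarith
    have f2 : (p'.1 : ℝ) ^ k - (p'.2 : ℝ) ^ k = m := by
      have : (p'.1 : ℝ) ^ k = (p'.2 : ℝ) ^ k + m := by exact_mod_cast hp'
      linarith
    have h2 : p.2 = p'.2 := by
      rcases lt_trichotomy p.2 p'.2 with h3 | h3 | h3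
      · have := diff_strict hk hd (Nat.cast_nonneg p.2) (by exact_mod_cast h3 : (p.2 : ℝ) < p'.2)
        rw [e1, e2, f1, f2] at this
        exact absurd this (lt_irrefl _)
      · exact h3
      · have := diff_strict hk hd (Nat.cast_nonneg p'.2) (by exact_mod_cast h3 : (p'.2 : ℝ) < p.2)
        rw [e1, e2, f1, f2] at this
        exact absurd this (lt_irrefl _)
    exact Prod.ext (by omega) h2

/-- the number of pairs with a given difference of `k`-th powers -/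
lemma inner {k N M D : ℕ} (hk : 2 ≤ k) {ε : ℝ} (hε : 0 < ε)
    (hD : ∀ m : ℕ, m ≠ 0 → m ≤ M ^ k → m.divisors.card ≤ D) {x y : ℕ}
    (hx : x ∈ Ico N M) (hy : y ∈ Ico N M) :
    ∑ z ∈ Ico N M, ∑ w ∈ Ico N M, Real.exp (-(Real.pi *
      ((((x : ℝ) ^ k - (y : ℝ) ^ k) - ((z : ℝ) ^ k - (w : ℝ) ^ k)) / ε) ^ 2)) ≤
      (if x = y then (M : ℝ) else D) + (M : ℝ) ^ 2 * Real.exp (-(Real.pi / ε ^ 2)) := by
  classical
  set S := (Ico N M) ×ˢ (Ico N M) with hS
  have hcardS : (S.card : ℝ) ≤ (M : ℝ) ^ 2 := by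
    rw [hS, card_product, Nat.card_Ico, sq]
    push_cast
    have : ((M - N : ℕ) : ℝ) ≤ M := by exact_mod_cast Nat.sub_le _ _
    exact mul_le_mul this this (Nat.cast_nonneg _) (Nat.cast_nonneg _)
  rw [← sum_product']
  set p0 : ℕ × ℕ → Prop := fun p => x ^ k + p.2 ^ k = y ^ k + p.1 ^ k with hp0
  have hterm : ∀ p ∈ S, Real.exp (-(Real.pi *
      ((((x : ℝ) ^ k - (y : ℝ) ^ k) - ((p.1 : ℝ) ^ k - (p.2 : ℝ) ^ k)) / ε) ^ 2)) ≤
      (if p0 p then (1 : ℝ) else 0) + Real.exp (-(Real.pi / ε ^ 2)) := by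
    intro p _
    by_cases h : p0 p
    · rw [if_pos h]
      have h1 : Real.exp (-(Real.pi *
        ((((x : ℝ) ^ k - (y : ℝ) ^ k) - ((p.1 : ℝ) ^ k - (p.2 : ℝ) ^ k)) / ε) ^ 2)) ≤ 1 := by
        rw [Real.exp_le_one_iff]
        have : 0 ≤ Real.pi * ((((x : ℝ) ^ k - (y : ℝ) ^ k) - ((p.1 : ℝ) ^ k - (p.2 : ℝ) ^ k)) / ε) ^ 2 := by
          positivity
        linarith
      have := Real.exp_pos (-(Real.pi / ε ^ 2))
      linarith
    · rw [if_neg h, zero_add]
      refine Real.exp_le_exp.2 (neg_le_neg ?_)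
      have h1 : (1 : ℝ) ≤ |((x : ℝ) ^ k - (y : ℝ) ^ k) - ((p.1 : ℝ) ^ k - (p.2 : ℝ) ^ k)| := by
        have h2 : ((x : ℤ) ^ k - (y : ℤ) ^ k) - ((p.1 : ℤ) ^ k - (p.2 : ℤ) ^ k) ≠ 0 := by
          intro h3
          refine h ?_
          simp only [hp0]
          have : (x : ℤ) ^ k + (p.2 : ℤ) ^ k = (y : ℤ) ^ k + (p.1 : ℤ) ^ k := by linarith
          exact_mod_cast this
        have h4 := Int.one_le_abs h2
        exact_mod_cast h4
      rw [div_pow, ← sq_abs (((x : ℝ) ^ k - (y : ℝ) ^ k) - ((p.1 : ℝ) ^ k - (p.2 : ℝ) ^ k)), ← mul_div_assoc]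
      refine div_le_div_of_nonneg_right ?_ (by positivity)
      exact le_mul_of_one_le_right Real.pi_pos.le (one_le_pow₀ h1)
  refine (sum_le_sum hterm).trans ?_
  rw [sum_add_distrib, sum_const, nsmul_eq_mul, ← sum_filter, sum_const, nsmul_eq_mul, mul_one]
  refine add_le_add ?_ (mul_le_mul_of_nonneg_right hcardS (Real.exp_pos _).le)
  have hx' := mem_Ico.1 hx
  have hy' := mem_Ico.1 hy
  by_cases hxy : x = y
  · rw [if_pos hxy]
    have h1 : (S.filter p0).card ≤ (Ico N M).card := by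
      refine card_le_card_of_injOn (fun p => p.1) ?_ ?_
      · intro p hp
        exact (mem_product.1 (mem_filter.1 (mem_coe.1 hp)).1).1
      · intro p hp p' hp' h
        have h2 : ∀ r ∈ S.filter p0, r.1 = r.2 := by
          intro r hr
          have h3 := (mem_filter.1 hr).2
          simp only [hp0] at h3
          rw [hxy] at h3
          have h4 : r.2 ^ k = r.1 ^ k := by omega
          exact (Nat.pow_left_injective (by omega : k ≠ 0) h4).symm
        have h5 : p.1 = p'.1 := h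
        exact Prod.ext h5 (by rw [← h2 p (mem_coe.1 hp), ← h2 p' (mem_coe.1 hp'), h5])
    rw [Nat.card_Ico] at h1
    exact_mod_cast h1.trans (Nat.sub_le _ _)
  · rw [if_neg hxy]
    rcases lt_or_gt_of_ne hxy with h | h
    · -- `x < y`
      have h1 : x ^ k < y ^ k := Nat.pow_lt_pow_left h (by omega)
      have h2 := count_diff (N := N) (M := M) (k := k) hk (m := y ^ k - x ^ k) (by omega)
        (hD _ (by omega) ((Nat.sub_le _ _).trans (Nat.pow_le_pow_left hy'.2.le k)))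
      have h3 : (S.filter p0).card ≤
          (((Ico N M) ×ˢ (Ico N M)).filter fun p => p.1 ^ k = p.2 ^ k + (y ^ k - x ^ k)).card := by
        refine card_le_card_of_injOn (fun p => (p.2, p.1)) ?_ ?_
        · intro p hp
          have hp := mem_filter.1 (mem_coe.1 hp)
          have h4 := mem_product.1 hp.1
          refine mem_coe.2 (mem_filter.2 ⟨mem_product.2 ⟨h4.2, h4.1⟩, ?_⟩)
          have h5 := hp.2
          simp only [hp0] at h5
          show p.2 ^ k = p.1 ^ k + (y ^ k - x ^ k)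
          omega
        · intro p _ p' _ h
          have h' : (p.2, p.1) = (p'.2, p'.1) := h
          rw [Prod.mk.injEq] at h'
          exact Prod.ext h'.2 h'.1
      exact_mod_cast h3.trans h2
    · have h1 : y ^ k < x ^ k := Nat.pow_lt_pow_left h (by omega)
      have h2 := count_diff (N := N) (M := M) (k := k) hk (m := x ^ k - y ^ k) (by omega)
        (hD _ (by omega) ((Nat.sub_le _ _).trans (Nat.pow_le_pow_left hx'.2.le k)))
      have h3 : (S.filter p0).card ≤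
          (((Ico N M) ×ˢ (Ico N M)).filter fun p => p.1 ^ k = p.2 ^ k + (x ^ k - y ^ k)).card := by
        refine card_le_card ?_
        intro p hp
        have hp := mem_filter.1 hp
        refine mem_filter.2 ⟨hp.1, ?_⟩
        have h5 := hp.2
        simp only [hp0] at h5
        omega
      exact_mod_cast h3.trans h2

/-- the fourth moment -/
lemma fourth {k N M D : ℕ} (hk : 2 ≤ k) {ε : ℝ} (hε : 0 < ε)
    (hD : ∀ m : ℕ, m ≠ 0 → m ≤ M ^ k → m.divisors.card ≤ D) :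
    ∫ ξ : ℝ, G ε ξ * ‖F k N M 1 ξ‖ ^ 4 ≤
      (M : ℝ) ^ 2 * (1 + D) + (M : ℝ) ^ 4 * Real.exp (-(Real.pi / ε ^ 2)) := by
  classical
  have hcos : ∀ u : ℝ, ∫ ξ : ℝ, G ε ξ * Real.cos (2 * Real.pi * ξ * u) =
      Real.exp (-(Real.pi * (u / ε) ^ 2)) := by
    intro u
    have h1 := Complex.reCLM.integral_comp_comm (osc_int hε u)
    rw [four hε u] at h1
    have h2 : ∀ ξ : ℝ, Complex.reCLM (((G ε ξ : ℝ) : ℂ) *
        Complex.exp (((2 * Real.pi * ξ * u : ℝ) : ℂ) * Complex.I)) =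
        G ε ξ * Real.cos (2 * Real.pi * ξ * u) := by
      intro ξ
      rw [Complex.reCLM_apply, Complex.re_ofReal_mul, Complex.exp_ofReal_mul_I_re]
    simp_rw [h2] at h1
    rw [h1, Complex.reCLM_apply, Complex.ofReal_re]
  have hint : ∀ u : ℝ, Integrable fun ξ : ℝ => G ε ξ * Real.cos (2 * Real.pi * ξ * u) := by
    intro u
    refine (G_int hε).mono' (Continuous.aestronglyMeasurable ?_) (ae_of_all _ fun ξ => ?_)
    · have := G_cont ε
      fun_prop
    · rw [norm_mul, Real.norm_of_nonneg (G_nonneg hε ξ)]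
      have := Real.abs_cos_le_one (2 * Real.pi * ξ * u)
      rw [← Real.norm_eq_abs] at this
      have h0 := G_nonneg hε ξ
      nlinarith
  -- the square of the square, with the arguments `(x, y)` and `(z, w)`, `(w, z)`
  set c : ℕ → ℕ → ℝ → ℝ := fun x y ξ => Real.cos (2 * Real.pi * ξ * ((x : ℝ) ^ k - (y : ℝ) ^ k)) with hc
  have hF : ∀ ξ : ℝ, ‖F k N M 1 ξ‖ ^ 2 = ∑ x ∈ Ico N M, ∑ y ∈ Ico N M, c x y ξ := by
    intro ξ
    rw [F_sq]
    refine sum_congr rfl fun x _ => sum_congr rfl fun y _ => ?_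
    simp only [hc, mul_one]
  set A : ℕ → ℕ → ℕ → ℕ → ℝ → ℝ := fun x y z w ξ =>
    G ε ξ * Real.cos (2 * Real.pi * ξ * (((x : ℝ) ^ k - (y : ℝ) ^ k) - ((z : ℝ) ^ k - (w : ℝ) ^ k)))
    with hA
  have h4 : ∀ ξ : ℝ, G ε ξ * ‖F k N M 1 ξ‖ ^ 4 = ∑ x ∈ Ico N M, ∑ y ∈ Ico N M, ∑ z ∈ Ico N M,
      ∑ w ∈ Ico N M, A x y z w ξ := by
    intro ξ
    have hprod : ∀ x y z w : ℕ, c x y ξ * c z w ξ + c x y ξ * c w z ξ =
        Real.cos (2 * Real.pi * ξ * (((x : ℝ) ^ k - (y : ℝ) ^ k) - ((z : ℝ) ^ k - (w : ℝ) ^ k))) +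
        Real.cos (2 * Real.pi * ξ * (((x : ℝ) ^ k - (y : ℝ) ^ k) - ((w : ℝ) ^ k - (z : ℝ) ^ k))) := by
      intro x y z w
      simp only [hc]
      have e1 : 2 * Real.pi * ξ * (((x : ℝ) ^ k - (y : ℝ) ^ k) - ((z : ℝ) ^ k - (w : ℝ) ^ k)) =
          2 * Real.pi * ξ * ((x : ℝ) ^ k - (y : ℝ) ^ k) -
          2 * Real.pi * ξ * ((z : ℝ) ^ k - (w : ℝ) ^ k) := by ring
      have e2 : 2 * Real.pi * ξ * (((x : ℝ) ^ k - (y : ℝ) ^ k) - ((w : ℝ) ^ k - (z : ℝ) ^ k)) =
          2 * Real.pi * ξ * ((x : ℝ) ^ k - (y : ℝ) ^ k) +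
          2 * Real.pi * ξ * ((z : ℝ) ^ k - (w : ℝ) ^ k) := by ring
      have e3 : 2 * Real.pi * ξ * ((w : ℝ) ^ k - (z : ℝ) ^ k) =
          -(2 * Real.pi * ξ * ((z : ℝ) ^ k - (w : ℝ) ^ k)) := by ring
      rw [e1, e2, e3, Real.cos_sub, Real.cos_add, Real.cos_neg]
      ring
    have hsq : ‖F k N M 1 ξ‖ ^ 4 = (∑ x ∈ Ico N M, ∑ y ∈ Ico N M, c x y ξ) *
        (∑ z ∈ Ico N M, ∑ w ∈ Ico N M, c z w ξ) := by
      rw [← hF]
      ring
    have hswap : ∀ f : ℕ → ℕ → ℝ, ∑ z ∈ Ico N M, ∑ w ∈ Ico N M, f w z =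
        ∑ z ∈ Ico N M, ∑ w ∈ Ico N M, f z w := fun f => sum_comm
    have h5 : ∀ x y : ℕ, c x y ξ * (∑ z ∈ Ico N M, ∑ w ∈ Ico N M, c z w ξ) =
        ∑ z ∈ Ico N M, ∑ w ∈ Ico N M, Real.cos (2 * Real.pi * ξ *
          (((x : ℝ) ^ k - (y : ℝ) ^ k) - ((z : ℝ) ^ k - (w : ℝ) ^ k))) := by
      intro x y
      have h6 : 2 * (c x y ξ * (∑ z ∈ Ico N M, ∑ w ∈ Ico N M, c z w ξ)) =
          2 * ∑ z ∈ Ico N M, ∑ w ∈ Ico N M, Real.cos (2 * Real.pi * ξ *
          (((x : ℝ) ^ k - (y : ℝ) ^ k) - ((z : ℝ) ^ k - (w : ℝ) ^ k))) := by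
        calc 2 * (c x y ξ * (∑ z ∈ Ico N M, ∑ w ∈ Ico N M, c z w ξ))
            = c x y ξ * (∑ z ∈ Ico N M, ∑ w ∈ Ico N M, c z w ξ) +
              c x y ξ * (∑ z ∈ Ico N M, ∑ w ∈ Ico N M, c w z ξ) := by
                rw [hswap fun z w => c z w ξ]
                ring
          _ = ∑ z ∈ Ico N M, ∑ w ∈ Ico N M, (c x y ξ * c z w ξ + c x y ξ * c w z ξ) := by
                simp only [mul_sum, sum_add_distrib]
          _ = ∑ z ∈ Ico N M, ∑ w ∈ Ico N M,
              (Real.cos (2 * Real.pi * ξ * (((x : ℝ) ^ k - (y : ℝ) ^ k) - ((z : ℝ) ^ k - (w : ℝ) ^ k))) +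
              Real.cos (2 * Real.pi * ξ * (((x : ℝ) ^ k - (y : ℝ) ^ k) - ((w : ℝ) ^ k - (z : ℝ) ^ k)))) :=
                sum_congr rfl fun z _ => sum_congr rfl fun w _ => hprod x y z w
          _ = _ := by
                simp only [sum_add_distrib]
                rw [hswap fun z w => Real.cos (2 * Real.pi * ξ *
                  (((x : ℝ) ^ k - (y : ℝ) ^ k) - ((z : ℝ) ^ k - (w : ℝ) ^ k)))]
                ring
      linarith
    rw [hsq, sum_mul, mul_sum]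
    refine sum_congr rfl fun x _ => ?_
    rw [sum_mul, mul_sum]
    refine sum_congr rfl fun y _ => ?_
    rw [h5, mul_sum]
    refine sum_congr rfl fun z _ => ?_
    rw [mul_sum]
  have hAint : ∀ x y z w, Integrable (A x y z w) := fun x y z w => hint _
  simp_rw [h4]
  rw [integral_finsetSum _ fun x _ => integrable_finsetSum _ fun y _ =>
    integrable_finsetSum _ fun z _ => integrable_finsetSum _ fun w _ => hAint _ _ _ _]
  have h7 : ∀ x ∈ Ico N M, ∫ ξ : ℝ, ∑ y ∈ Ico N M, ∑ z ∈ Ico N M, ∑ w ∈ Ico N M, A x y z w ξ ≤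
      ∑ y ∈ Ico N M, ((if x = y then (M : ℝ) else D) + (M : ℝ) ^ 2 * Real.exp (-(Real.pi / ε ^ 2))) := by
    intro x hx
    rw [integral_finsetSum _ fun y _ =>
      integrable_finsetSum _ fun z _ => integrable_finsetSum _ fun w _ => hAint _ _ _ _]
    refine sum_le_sum fun y hy => ?_
    rw [integral_finsetSum _ fun z _ => integrable_finsetSum _ fun w _ => hAint _ _ _ _]
    refine le_trans (le_of_eq ?_) (inner (N := N) (M := M) (D := D) hk hε hD hx hy)
    refine sum_congr rfl fun z _ => ?_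
    rw [integral_finsetSum _ fun w _ => hAint _ _ _ _]
    refine sum_congr rfl fun w _ => ?_
    simp only [hA]
    exact hcos _
  refine (sum_le_sum h7).trans ?_
  have hcard : ((Ico N M).card : ℝ) ≤ M := by
    rw [Nat.card_Ico]
    exact_mod_cast Nat.sub_le _ _
  have h8 : ∀ x ∈ Ico N M, ∑ y ∈ Ico N M,
      ((if x = y then (M : ℝ) else D) + (M : ℝ) ^ 2 * Real.exp (-(Real.pi / ε ^ 2))) ≤
      (M : ℝ) + M * D + M * ((M : ℝ) ^ 2 * Real.exp (-(Real.pi / ε ^ 2))) := by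
    intro x hx
    rw [sum_add_distrib, sum_const, nsmul_eq_mul]
    refine add_le_add ?_ (mul_le_mul_of_nonneg_right hcard (by positivity))
    calc ∑ y ∈ Ico N M, (if x = y then (M : ℝ) else D) ≤
          ∑ y ∈ Ico N M, ((if x = y then (M : ℝ) else 0) + D) := by
          refine sum_le_sum fun y _ => ?_
          split_ifs
          · linarith [Nat.cast_nonneg (α := ℝ) D]
          · linarith
      _ = (M : ℝ) + (Ico N M).card * D := by
          rw [sum_add_distrib, sum_ite_eq, if_pos hx, sum_const, nsmul_eq_mul]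
      _ ≤ _ := by
          have := mul_le_mul_of_nonneg_right hcard (Nat.cast_nonneg (α := ℝ) D)
          linarith
  refine (sum_le_sum h8).trans ?_
  rw [sum_const, nsmul_eq_mul]
  have h9 : 0 ≤ (M : ℝ) + M * D + M * ((M : ℝ) ^ 2 * Real.exp (-(Real.pi / ε ^ 2))) := by positivity
  calc _ ≤ (M : ℝ) * ((M : ℝ) + M * D + M * ((M : ℝ) ^ 2 * Real.exp (-(Real.pi / ε ^ 2)))) :=
        mul_le_mul_of_nonneg_right hcard h9
    _ = _ := by ring

end Pool.Agent.H164.GW
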