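import Pool.Agent.H164.GW.Four4

/-!
# Four genuine powers
-/

set_option autoImplicit false

open MeasureTheory Finset Filter Topology
open scoped ENNReal

namespace Pool.Agent.H164.GW

lemma avgQ {s k N M : ℕ} {ε H a b τ ρ A1 A2 A3 S : ℝ} (hS0 : 0 ≤ S)
    (hS : ∫⁻ ξ : ℝ, ENNReal.ofReal (G ε ξ * ‖F k N M 1 ξ‖ ^ 4) ≤ ENNReal.ofReal S)
    (hε : 0 < ε) (hε1 : ε ≤ 1) (hH : ε ≤ H)
    (hτ : 0 ≤ τ) (hρ : 0 ≤ ρ) (hA1 : 0 ≤ A1) (hA2 : 0 ≤ A2) (hA3 : 0 ≤ A3)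
    (h1 : ∀ ξ : ℝ, |ξ| ≤ τ → g ε H ξ * E k N M a b ξ ^ s ≤ A1)
    (h2 : ∀ ξ : ℝ, τ < |ξ| → |ξ| ≤ ρ → E k N M a b ξ ^ s ≤ A2)
    (h3 : ∀ ξ : ℝ, τ < |ξ| → ρ < |ξ| → E k N M a b ξ ^ s ≤ A3) :
    ∫⁻ θ, Err k N M ε H (two 1 1 (two 1 1 θ)) ∂(boxM s a b) ≤
      ENNReal.ofReal (2 * τ * ((M : ℝ) ^ 4 * A1) + 2 * ρ * ((M : ℝ) ^ 4 * A2) + A3 * S) := by
  have hH0 : 0 < H := hε.trans_le hH
  have : IsFiniteMeasure (boxM s a b) := by
    unfold boxM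
    infer_instance
  set Q : ℝ → ℝ := fun ξ => ‖F k N M 1 ξ‖ ^ 4 with hQ
  have hQ0 : ∀ ξ, 0 ≤ Q ξ := fun ξ => pow_nonneg (norm_nonneg _) 4
  have hQM : ∀ ξ, Q ξ ≤ (M : ℝ) ^ 4 := fun ξ =>
    pow_le_pow_left₀ (norm_nonneg _) (F_norm_le _ _ _ _ _) 4
  have hQc : Continuous Q := by
    simp only [hQ]
    unfold F
    fun_prop
  have hErr : ∀ θ : Fin s → ℝ, Err k N M ε H (two 1 1 (two 1 1 θ)) =
      ∫⁻ ξ : ℝ, ENNReal.ofReal (g ε H ξ * (Q ξ * ∏ i, ‖F k N M (θ i) ξ‖)) := by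
    intro θ
    unfold Err
    refine lintegral_congr fun ξ => ?_
    rw [two_prod 1 1 (two 1 1 θ) (fun u => ‖F k N M u ξ‖), two_prod 1 1 θ (fun u => ‖F k N M u ξ‖)]
    congr 2
    simp only [hQ]
    ring
  simp_rw [hErr]
  rw [lintegral_lintegral_swap]
  swap
  · refine Measurable.aemeasurable ?_
    refine ENNReal.measurable_ofReal.comp (Continuous.measurable ?_)
    have hg : Continuous fun p : (Fin s → ℝ) × ℝ => g ε H p.2 := g_cont.comp continuous_snd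
    refine hg.mul ((hQc.comp continuous_snd).mul (continuous_finsetProd _ fun i _ => ?_))
    have h4 : Continuous fun p : (Fin s → ℝ) × ℝ => ((p.1 i, p.2) : ℝ × ℝ) := by fun_prop
    exact ((F_cont k N M).comp h4).norm
  have h5 : ∀ ξ : ℝ, ∫⁻ θ, ENNReal.ofReal (g ε H ξ * (Q ξ * ∏ i, ‖F k N M (θ i) ξ‖))
      ∂(boxM s a b) = ENNReal.ofReal (g ε H ξ * Q ξ * E k N M a b ξ ^ s) := by
    intro ξ
    have hg0 : 0 ≤ g ε H ξ * Q ξ := mul_nonneg (g_nonneg hε hH ξ) (hQ0 ξ)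
    simp_rw [← mul_assoc, ENNReal.ofReal_mul hg0]
    rw [lintegral_const_mul' _ _ ENNReal.ofReal_ne_top, prod_avg]
  simp_rw [h5]
  have h6 : ∀ ξ : ℝ, ENNReal.ofReal (g ε H ξ * Q ξ * E k N M a b ξ ^ s) ≤
      (Set.Icc (-τ) τ).indicator (fun _ => ENNReal.ofReal ((M : ℝ) ^ 4 * A1)) ξ +
      (Set.Icc (-ρ) ρ).indicator (fun _ => ENNReal.ofReal ((M : ℝ) ^ 4 * A2)) ξ +
      ENNReal.ofReal A3 * ENNReal.ofReal (G ε ξ * Q ξ) := by
    intro ξ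
    have hg0 := g_nonneg hε hH ξ
    have hE0 : 0 ≤ E k N M a b ξ ^ s := pow_nonneg (E_nonneg _ _ _ _ _ _) _
    by_cases hc1 : |ξ| ≤ τ
    · have : ξ ∈ Set.Icc (-τ) τ := abs_le.1 hc1
      rw [Set.indicator_of_mem this, add_assoc]
      refine (ENNReal.ofReal_le_ofReal ?_).trans le_self_add
      calc g ε H ξ * Q ξ * E k N M a b ξ ^ s = Q ξ * (g ε H ξ * E k N M a b ξ ^ s) := by ring
        _ ≤ (M : ℝ) ^ 4 * A1 := mul_le_mul (hQM ξ) (h1 ξ hc1) (mul_nonneg hg0 hE0) (by positivity)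
    · rw [not_le] at hc1
      by_cases hc2 : |ξ| ≤ ρ
      · have : ξ ∈ Set.Icc (-ρ) ρ := abs_le.1 hc2
        rw [Set.indicator_of_mem this]
        have h7 : g ε H ξ * Q ξ * E k N M a b ξ ^ s ≤ (M : ℝ) ^ 4 * A2 := by
          calc g ε H ξ * Q ξ * E k N M a b ξ ^ s ≤ 1 * Q ξ * E k N M a b ξ ^ s :=
                mul_le_mul_of_nonneg_right (mul_le_mul_of_nonneg_right
                  (g_le_one hε hε1 hH0 ξ) (hQ0 ξ)) hE0
            _ ≤ (M : ℝ) ^ 4 * A2 := by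
                rw [one_mul]
                exact mul_le_mul (hQM ξ) (h2 ξ hc1 hc2) hE0 (by positivity)
        refine (ENNReal.ofReal_le_ofReal h7).trans ?_
        exact (le_add_left (le_refl _)).trans le_self_add
      · rw [not_le] at hc2
        have h8 : g ε H ξ * Q ξ * E k N M a b ξ ^ s ≤ A3 * (G ε ξ * Q ξ) := by
          rw [mul_comm A3]
          exact mul_le_mul (mul_le_mul_of_nonneg_right (g_le_G hε hH0 ξ) (hQ0 ξ)) (h3 ξ hc1 hc2)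
            hE0 (mul_nonneg (G_nonneg hε ξ) (hQ0 ξ))
        refine (ENNReal.ofReal_le_ofReal h8).trans ?_
        rw [ENNReal.ofReal_mul hA3]
        exact le_add_left (le_refl _)
  refine (lintegral_mono h6).trans ?_
  have hm1 : Measurable ((Set.Icc (-τ) τ).indicator (fun _ : ℝ => ENNReal.ofReal ((M : ℝ) ^ 4 * A1))) :=
    measurable_const.indicator measurableSet_Icc
  have hm2 : Measurable ((Set.Icc (-ρ) ρ).indicator (fun _ : ℝ => ENNReal.ofReal ((M : ℝ) ^ 4 * A2))) :=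
    measurable_const.indicator measurableSet_Icc
  have hm12 : Measurable fun ξ : ℝ =>
      (Set.Icc (-τ) τ).indicator (fun _ : ℝ => ENNReal.ofReal ((M : ℝ) ^ 4 * A1)) ξ +
      (Set.Icc (-ρ) ρ).indicator (fun _ : ℝ => ENNReal.ofReal ((M : ℝ) ^ 4 * A2)) ξ := hm1.add hm2
  have hMA1 : 0 ≤ (M : ℝ) ^ 4 * A1 := by positivity
  have hMA2 : 0 ≤ (M : ℝ) ^ 4 * A2 := by positivity
  rw [lintegral_add_left hm12, lintegral_add_left hm1,
    lintegral_indicator_const measurableSet_Icc, lintegral_indicator_const measurableSet_Icc,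
    lintegral_const_mul' _ _ ENNReal.ofReal_ne_top, Real.volume_Icc,
    Real.volume_Icc, ← ENNReal.ofReal_mul hMA1, ← ENNReal.ofReal_mul hMA2,
    ← ENNReal.ofReal_add (by nlinarith) (by nlinarith)]
  have hX : 0 ≤ 2 * τ * ((M : ℝ) ^ 4 * A1) + 2 * ρ * ((M : ℝ) ^ 4 * A2) := by positivity
  have hY : 0 ≤ A3 * S := by positivity
  rw [ENNReal.ofReal_add hX hY, ENNReal.ofReal_mul hA3]
  refine add_le_add (ENNReal.ofReal_le_ofReal (le_of_eq (by ring))) ?_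
  refine mul_le_mul_right ?_ _
  exact hS

lemma fourth_bound {k m : ℕ} (hk : 2 ≤ k) (hm : 1 ≤ m) : ∃ C : ℝ, 0 < C ∧ ∀ q : ℕ, 1 ≤ q →
    ∫⁻ ξ : ℝ, ENNReal.ofReal (G (1 / (q : ℝ) ^ 2) ξ * ‖F k (q ^ 32) (m * q ^ 32) 1 ξ‖ ^ 4) ≤
      ENNReal.ofReal (C * (q : ℝ) ^ 65) := by
  have hk0 : (0 : ℝ) < k := by exact_mod_cast (by omega : 0 < k)
  have hδ : (0 : ℝ) < 1 / (32 * k) := by positivity
  obtain ⟨C1, hC1, hdiv⟩ := Pool.Agent.H373R2.T4.DivB.div_bound hδ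
  have hm1 : (1 : ℝ) ≤ m := by exact_mod_cast hm
  refine ⟨(m : ℝ) ^ 2 * (1 + (C1 * m + 1)) + (m : ℝ) ^ 4 * (64).factorial, by positivity, fun q hq => ?_⟩
  have hq1 : (1 : ℝ) ≤ q := by exact_mod_cast hq
  have hq0 : (0 : ℝ) < q := by linarith
  have hε0 : (0 : ℝ) < 1 / (q : ℝ) ^ 2 := by positivity
  set M : ℕ := m * q ^ 32 with hM
  have hMr : (M : ℝ) = m * (q : ℝ) ^ 32 := by rw [hM]; push_cast; ring
  have hM0 : 0 < M := by
    rw [hM]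
    positivity
  set D : ℕ := ⌈C1 * ((M : ℝ) ^ k) ^ (1 / (32 * k : ℝ))⌉₊ with hD
  have hDb : ∀ n : ℕ, n ≠ 0 → n ≤ M ^ k → n.divisors.card ≤ D := by
    intro n hn hnM
    have h1 := hdiv n hn
    have h2 : (n : ℝ) ≤ (M : ℝ) ^ k := by exact_mod_cast hnM
    have h3 : (n : ℝ) ^ (1 / (32 * k : ℝ)) ≤ ((M : ℝ) ^ k) ^ (1 / (32 * k : ℝ)) :=
      Real.rpow_le_rpow (Nat.cast_nonneg _) h2 hδ.le
    have h4 : (n.divisors.card : ℝ) ≤ D := by
      refine h1.trans ((mul_le_mul_of_nonneg_left h3 (by linarith)).trans ?_)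
      exact Nat.le_ceil _
    exact_mod_cast h4
  have hDle : (D : ℝ) ≤ (C1 * m + 1) * q := by
    have h1 : ((M : ℝ) ^ k) ^ (1 / (32 * k : ℝ)) ≤ m * q := by
      have h2 : (M : ℝ) ^ k ≤ ((m * q : ℝ)) ^ (32 * k) := by
        rw [pow_mul]
        refine pow_le_pow_left₀ (Nat.cast_nonneg _) ?_ k
        rw [hMr, mul_pow]
        exact mul_le_mul_of_nonneg_right (le_self_pow₀ hm1 (by norm_num)) (by positivity)
      have h3 := Real.rpow_le_rpow (by positivity) h2 hδ.le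
      have h4 := Real.pow_rpow_inv_natCast (x := (m * q : ℝ)) (by positivity) (n := 32 * k) (by omega)
      rw [one_div] at h3 ⊢
      push_cast at h4
      rw [h4] at h3
      exact h3
    have h5 := (Nat.ceil_lt_add_one (a := C1 * ((M : ℝ) ^ k) ^ (1 / (32 * k : ℝ))) (by positivity)).le
    rw [← hD] at h5
    nlinarith
  have hcont : Continuous fun ξ : ℝ => ‖F k (q ^ 32) M 1 ξ‖ := by
    unfold F
    fun_prop
  have hi : Integrable fun ξ : ℝ => G (1 / (q : ℝ) ^ 2) ξ * ‖F k (q ^ 32) M 1 ξ‖ ^ 4 := by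
    refine ((G_int hε0).mul_const ((M : ℝ) ^ 4)).mono' (Continuous.aestronglyMeasurable ?_)
      (ae_of_all _ fun ξ => ?_)
    · have h1 := G_cont (1 / (q : ℝ) ^ 2)
      fun_prop
    · rw [Real.norm_of_nonneg (mul_nonneg (G_nonneg hε0 ξ) (by positivity))]
      exact mul_le_mul_of_nonneg_left (pow_le_pow_left₀ (norm_nonneg _) (F_norm_le _ _ _ _ _) 4)
        (G_nonneg hε0 ξ)
  rw [← ofReal_integral_eq_lintegral_ofReal hi (ae_of_all _ fun ξ =>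
    mul_nonneg (G_nonneg hε0 ξ) (by positivity))]
  refine ENNReal.ofReal_le_ofReal ((fourth (N := q ^ 32) (M := M) hk hε0 hDb).trans ?_)
  have e1 : Real.pi / (1 / (q : ℝ) ^ 2) ^ 2 = Real.pi * (q : ℝ) ^ 4 := by
    field_simp
  rw [e1, hMr]
  have h6 : Real.exp (-(Real.pi * (q : ℝ) ^ 4)) * (q : ℝ) ^ 64 ≤ (64).factorial := by
    have h7 := Real.pow_div_factorial_le_exp (q : ℝ) hq0.le 64
    rw [div_le_iff₀ (by positivity)] at h7
    have h8 : Real.exp (-(Real.pi * (q : ℝ) ^ 4)) ≤ Real.exp (-(q : ℝ)) := by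
      refine Real.exp_le_exp.2 (neg_le_neg ?_)
      have h9 : (q : ℝ) ≤ (q : ℝ) ^ 4 := le_self_pow₀ hq1 (by norm_num)
      have := Real.two_le_pi
      nlinarith
    refine (mul_le_mul h8 h7 (by positivity) (Real.exp_pos _).le).trans (le_of_eq ?_)
    rw [← mul_assoc, ← Real.exp_add, neg_add_cancel, Real.exp_zero, one_mul]
  have h10 : (m * (q : ℝ) ^ 32) ^ 2 * (1 + D) ≤ (m : ℝ) ^ 2 * (1 + (C1 * m + 1)) * (q : ℝ) ^ 65 := by
    have h11 : 1 + (D : ℝ) ≤ (1 + (C1 * m + 1)) * q := by nlinarith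
    calc (m * (q : ℝ) ^ 32) ^ 2 * (1 + D) ≤ (m * (q : ℝ) ^ 32) ^ 2 * ((1 + (C1 * m + 1)) * q) :=
          mul_le_mul_of_nonneg_left h11 (by positivity)
      _ = _ := by ring
  have h12 : (m * (q : ℝ) ^ 32) ^ 4 * Real.exp (-(Real.pi * (q : ℝ) ^ 4)) ≤
      (m : ℝ) ^ 4 * ((64).factorial : ℝ) * (q : ℝ) ^ 65 := by
    calc (m * (q : ℝ) ^ 32) ^ 4 * Real.exp (-(Real.pi * (q : ℝ) ^ 4))
        = (m : ℝ) ^ 4 * (q : ℝ) ^ 64 * (Real.exp (-(Real.pi * (q : ℝ) ^ 4)) * (q : ℝ) ^ 64) := by ring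
      _ ≤ (m : ℝ) ^ 4 * (q : ℝ) ^ 64 * ((64).factorial : ℝ) :=
          mul_le_mul_of_nonneg_left h6 (by positivity)
      _ ≤ (m : ℝ) ^ 4 * (q : ℝ) ^ 65 * ((64).factorial : ℝ) := by
          have h13 : (q : ℝ) ^ 64 ≤ (q : ℝ) ^ 65 := pow_le_pow_right₀ hq1 (by norm_num)
          gcongr
      _ = _ := by ring
  calc _ ≤ (m : ℝ) ^ 2 * (1 + (C1 * m + 1)) * (q : ℝ) ^ 65 +
        (m : ℝ) ^ 4 * ((64).factorial : ℝ) * (q : ℝ) ^ 65 := add_le_add h10 h12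
    _ = _ := by ring

lemma UboundF {k s m : ℕ} (hk : 4 ≤ k) (hs : 2 * k ≤ s + 3) (hm : 1 ≤ m) {a b : ℝ} (ha : 0 < a)
    (hab : a ≤ b) (hb : 1 ≤ b) :
    ∃ C : ℝ, 0 < C ∧ ∀ q : ℕ, 1 ≤ q →
    ∫⁻ θ, Err k (q ^ 32) (m * q ^ 32) (1 / (q : ℝ) ^ 2)
      (b * k * ((m : ℝ) * (q ^ 32 : ℕ)) ^ (k - 1)) (two 1 1 (two 1 1 θ)) ∂(boxM s a b) ≤
      ENNReal.ofReal (C * ((q : ℝ) ^ (32 * (s + 4)) / ((q : ℝ) ^ (32 * k) * (q : ℝ) ^ 6))) := by
  obtain ⟨CF, hCF, hfour⟩ := fourth_bound (k := k) (m := m) (by omega) hm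
  obtain ⟨C2, hC2, hlog⟩ := log_bound s m (by omega) hm
  obtain ⟨l, rfl⟩ : ∃ l, k = l + 1 := ⟨k - 1, by omega⟩
  have hm0 : (0 : ℝ) < m := by exact_mod_cast hm
  have hba : 0 ≤ b - a := sub_nonneg.2 hab
  have hb0 : 0 < b := by linarith
  set c3 : ℝ := (1 + (b - a)) * √(m * (1 + (b - a))) with hc3
  have hc30 : 0 < c3 := by positivity
  set C1 : ℝ := 2 * Real.pi * (b * (l + 1) * (m : ℝ) ^ l) ^ 2 * ((b - a) * m) ^ s * (m : ℝ) ^ 4 with hC1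
  have hC10 : 0 ≤ C1 := by positivity
  refine ⟨C1 + 2 * (m : ℝ) ^ 4 * (c3 ^ s * C2) + CF * (c3 ^ s * C2), by positivity,
    fun q hq => ?_⟩
  have hq1 : (1 : ℝ) ≤ q := by exact_mod_cast hq
  have hq0 : (0 : ℝ) < q := by linarith
  set M : ℕ := m * q ^ 32 with hM
  have hMpos : 1 ≤ M := by
    rw [hM]
    exact Nat.mul_pos hm (pow_pos hq 32)
  set L : ℝ := 1 + Real.log (M : ℝ) with hL
  have hL1 : 1 ≤ L := by
    have := Real.log_nonneg (x := (M : ℝ)) (by exact_mod_cast hMpos)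
    rw [hL]
    linarith
  have hMr : (M : ℝ) = m * (q : ℝ) ^ 32 := by rw [hM]; push_cast; ring
  set H : ℝ := b * ((l + 1 : ℕ) : ℝ) * ((m : ℝ) * (q ^ 32 : ℕ)) ^ (l + 1 - 1) with hH
  have hHe : H = (b * (l + 1) * (m : ℝ) ^ l) * (q : ℝ) ^ (32 * l) := by
    rw [hH, Nat.add_sub_cancel]
    push_cast
    rw [mul_pow, ← pow_mul]
    ring
  have hm1 : (1 : ℝ) ≤ m := by exact_mod_cast hm
  have hH1 : 1 ≤ H := by
    rw [hHe]
    have h1 : (1 : ℝ) ≤ (m : ℝ) ^ l := one_le_pow₀ hm1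
    have h2 : (1 : ℝ) ≤ (q : ℝ) ^ (32 * l) := one_le_pow₀ hq1
    have h3 : (1 : ℝ) ≤ b * (l + 1) := by
      have : (0 : ℝ) ≤ l := Nat.cast_nonneg l
      nlinarith
    exact one_le_mul_of_one_le_of_one_le (one_le_mul_of_one_le_of_one_le h3 h1) h2
  have hε0 : (0 : ℝ) < 1 / (q : ℝ) ^ 2 := by positivity
  have hε1 : 1 / (q : ℝ) ^ 2 ≤ 1 := by
    rw [div_le_one (by positivity)]
    exact one_le_pow₀ hq1
  set τ : ℝ := (q : ℝ) ^ 16 / (q : ℝ) ^ (32 * (l + 1)) with hτ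
  set ρ : ℝ := 1 / (q : ℝ) ^ (32 * l) with hρ
  have hτ0 : 0 < τ := by positivity
  have hρ0 : 0 < ρ := by positivity
  have hav := avgQ (s := s) (k := l + 1) (S := CF * (q : ℝ) ^ 65) (N := q ^ 32) (M := M) (a := a) (b := b) (τ := τ) (ρ := ρ)
    (ε := 1 / (q : ℝ) ^ 2) (H := H)
    (A1 := Real.pi * H ^ 2 * τ ^ 2 * ((b - a) * M) ^ s)
    (A2 := (c3 * √L * (q : ℝ) ^ 24) ^ s) (A3 := (c3 * √L * (q : ℝ) ^ 16) ^ s)
    (by positivity) (hfour q hq)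
    hε0 hε1 (hε1.trans hH1) hτ0.le hρ0.le (by positivity) (by positivity) (by positivity)
    (fun ξ hξ => ?_) (fun ξ hξ1 hξ2 => ?_) (fun ξ hξ1 hξ2 => ?_)
  · refine hav.trans (ENNReal.ofReal_le_ofReal ?_)
    have hlog' : √L ^ s ≤ C2 * (q : ℝ) ^ 2 := hlog q hq
    -- first term
    have t1 : 2 * τ * ((M : ℝ) ^ 4 * (Real.pi * H ^ 2 * τ ^ 2 * ((b - a) * M) ^ s)) ≤
        C1 * ((q : ℝ) ^ (32 * (s + 4)) / ((q : ℝ) ^ (32 * (l + 1)) * (q : ℝ) ^ 6)) := by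
      rw [hHe, hτ, hMr, hC1]
      have e : 2 * ((q : ℝ) ^ 16 / (q : ℝ) ^ (32 * (l + 1))) *
          ((m * (q : ℝ) ^ 32) ^ 4 * (Real.pi * ((b * (l + 1) * (m : ℝ) ^ l) * (q : ℝ) ^ (32 * l)) ^ 2 *
            ((q : ℝ) ^ 16 / (q : ℝ) ^ (32 * (l + 1))) ^ 2 * ((b - a) * (m * (q : ℝ) ^ 32)) ^ s)) =
          2 * Real.pi * (b * (l + 1) * (m : ℝ) ^ l) ^ 2 * ((b - a) * m) ^ s * (m : ℝ) ^ 4 *
            ((q : ℝ) ^ (32 * (s + 4)) / ((q : ℝ) ^ (32 * (l + 1)) * (q : ℝ) ^ 16)) := by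
        rw [show (b - a) * (m * (q : ℝ) ^ 32) = ((b - a) * m) * (q : ℝ) ^ 32 by ring, mul_pow ((b - a) * m),
          ← pow_mul (q : ℝ) 32 s]
        rw [show 32 * (l + 1) = 32 * l + 32 by ring, show 32 * (s + 4) = 32 * s + 128 by ring, pow_add,
          pow_add]
        field_simp
      rw [e]
      refine mul_le_mul_of_nonneg_left ?_ (by positivity)
      refine div_le_div_of_nonneg_left (by positivity) (by positivity) ?_
      exact mul_le_mul_of_nonneg_left (pow_le_pow_right₀ hq1 (by norm_num)) (by positivity)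
    have t2 : 2 * ρ * ((M : ℝ) ^ 4 * (c3 * √L * (q : ℝ) ^ 24) ^ s) ≤ 2 * (m : ℝ) ^ 4 * (c3 ^ s * C2) *
        ((q : ℝ) ^ (32 * (s + 4)) / ((q : ℝ) ^ (32 * (l + 1)) * (q : ℝ) ^ 6)) := by
      rw [mul_pow (c3 * √L), mul_pow c3, ← pow_mul, hρ, hMr, mul_pow (m : ℝ)]
      have h1 : c3 ^ s * √L ^ s ≤ c3 ^ s * (C2 * (q : ℝ) ^ 2) :=
        mul_le_mul_of_nonneg_left hlog' (by positivity)
      have h2 : 1 / (q : ℝ) ^ (32 * l) * ((q : ℝ) ^ 32) ^ 4 * (q : ℝ) ^ (24 * s) * (q : ℝ) ^ 2 ≤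
          (q : ℝ) ^ (32 * (s + 4)) / ((q : ℝ) ^ (32 * (l + 1)) * (q : ℝ) ^ 6) := by
        rw [le_div_iff₀ (by positivity)]
        have e : 1 / (q : ℝ) ^ (32 * l) * ((q : ℝ) ^ 32) ^ 4 * (q : ℝ) ^ (24 * s) * (q : ℝ) ^ 2 *
            ((q : ℝ) ^ (32 * (l + 1)) * (q : ℝ) ^ 6) = (q : ℝ) ^ (24 * s + 168) := by
          rw [show 32 * (l + 1) = 32 * l + 32 by ring, pow_add, pow_add]
          field_simp
        rw [e]
        exact pow_le_pow_right₀ hq1 (by omega)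
      calc 2 * (1 / (q : ℝ) ^ (32 * l)) *
            ((m : ℝ) ^ 4 * ((q : ℝ) ^ 32) ^ 4 * (c3 ^ s * √L ^ s * (q : ℝ) ^ (24 * s)))
          = 2 * (m : ℝ) ^ 4 * (c3 ^ s * √L ^ s) *
            (1 / (q : ℝ) ^ (32 * l) * ((q : ℝ) ^ 32) ^ 4 * (q : ℝ) ^ (24 * s)) := by ring
        _ ≤ 2 * (m : ℝ) ^ 4 * (c3 ^ s * (C2 * (q : ℝ) ^ 2)) *
            (1 / (q : ℝ) ^ (32 * l) * ((q : ℝ) ^ 32) ^ 4 * (q : ℝ) ^ (24 * s)) := by gcongr
        _ = 2 * (m : ℝ) ^ 4 * (c3 ^ s * C2) *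
            (1 / (q : ℝ) ^ (32 * l) * ((q : ℝ) ^ 32) ^ 4 * (q : ℝ) ^ (24 * s) * (q : ℝ) ^ 2) := by
            ring
        _ ≤ _ := mul_le_mul_of_nonneg_left h2 (by positivity)
    have t3 : (c3 * √L * (q : ℝ) ^ 16) ^ s * (CF * (q : ℝ) ^ 65) ≤
        CF * (c3 ^ s * C2) *
        ((q : ℝ) ^ (32 * (s + 4)) / ((q : ℝ) ^ (32 * (l + 1)) * (q : ℝ) ^ 6)) := by
      rw [mul_pow (c3 * √L), mul_pow c3, ← pow_mul]
      have h1 : c3 ^ s * √L ^ s ≤ c3 ^ s * (C2 * (q : ℝ) ^ 2) :=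
        mul_le_mul_of_nonneg_left hlog' (by positivity)
      have h2 : (q : ℝ) ^ (16 * s) * (q : ℝ) ^ 65 * (q : ℝ) ^ 2 ≤
          (q : ℝ) ^ (32 * (s + 4)) / ((q : ℝ) ^ (32 * (l + 1)) * (q : ℝ) ^ 6) := by
        rw [le_div_iff₀ (by positivity), ← pow_add, ← pow_add, ← pow_add, ← pow_add]
        exact pow_le_pow_right₀ hq1 (by omega)
      calc c3 ^ s * √L ^ s * (q : ℝ) ^ (16 * s) * (CF * (q : ℝ) ^ 65)
          ≤ c3 ^ s * (C2 * (q : ℝ) ^ 2) * (q : ℝ) ^ (16 * s) * (CF * (q : ℝ) ^ 65) := by gcongr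
        _ = CF * (c3 ^ s * C2) * ((q : ℝ) ^ (16 * s) * (q : ℝ) ^ 65 * (q : ℝ) ^ 2) := by ring
        _ ≤ _ := mul_le_mul_of_nonneg_left h2 (by positivity)
    calc _ ≤ C1 * ((q : ℝ) ^ (32 * (s + 4)) / ((q : ℝ) ^ (32 * (l + 1)) * (q : ℝ) ^ 6)) +
          2 * (m : ℝ) ^ 4 * (c3 ^ s * C2) *
            ((q : ℝ) ^ (32 * (s + 4)) / ((q : ℝ) ^ (32 * (l + 1)) * (q : ℝ) ^ 6)) +
          CF * (c3 ^ s * C2) *
            ((q : ℝ) ^ (32 * (s + 4)) / ((q : ℝ) ^ (32 * (l + 1)) * (q : ℝ) ^ 6)) :=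
          add_le_add (add_le_add t1 t2) t3
      _ = _ := by ring
  · -- small frequencies
    have h1 := g_le_sq hε0 hε1 (by linarith : 0 < H) ξ
    have h2 : ξ ^ 2 ≤ τ ^ 2 := by
      rw [← sq_abs ξ]
      exact pow_le_pow_left₀ (abs_nonneg ξ) hξ 2
    have h3 : g (1 / (q : ℝ) ^ 2) H ξ ≤ Real.pi * H ^ 2 * τ ^ 2 :=
      h1.trans (mul_le_mul_of_nonneg_left h2 (by positivity))
    exact mul_le_mul h3 (pow_le_pow_left₀ (E_nonneg _ _ _ _ _ _) (E_triv hab ξ) s)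
      (pow_nonneg (E_nonneg _ _ _ _ _ _) _) (by positivity)
  · -- middle frequencies
    have hξ0 : 0 < |ξ| := hτ0.trans hξ1
    refine pow_le_pow_left₀ (E_nonneg _ _ _ _ _ _) ?_ s
    have hV : (M : ℝ) * ((b - a) + (1 + Real.log M) /
        (|ξ| * ((q ^ 32 : ℕ) : ℝ) ^ (l + 1 - 1))) ≤ m * (1 + (b - a)) * L * ((q : ℝ) ^ 24) ^ 2 := by
      have h1 : (q : ℝ) ^ 16 * (|ξ| * ((q ^ 32 : ℕ) : ℝ) ^ (l + 1 - 1)) ≥ 1 := by
        rw [Nat.add_sub_cancel]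
        push_cast
        rw [← pow_mul]
        have h2 : τ * (q : ℝ) ^ (32 * l) * (q : ℝ) ^ 16 = 1 := by
          rw [hτ, show 32 * (l + 1) = 32 * l + 32 by ring, pow_add]
          field_simp
        have h3 : τ * (q : ℝ) ^ (32 * l) ≤ |ξ| * (q : ℝ) ^ (32 * l) :=
          mul_le_mul_of_nonneg_right hξ1.le (by positivity)
        nlinarith [mul_le_mul_of_nonneg_right h3 (by positivity : (0 : ℝ) ≤ (q : ℝ) ^ 16)]
      have hpos : 0 < |ξ| * ((q ^ 32 : ℕ) : ℝ) ^ (l + 1 - 1) := by positivity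
      have h4 : (1 + Real.log M) / (|ξ| * ((q ^ 32 : ℕ) : ℝ) ^ (l + 1 - 1)) ≤ L * (q : ℝ) ^ 16 := by
        rw [div_le_iff₀ hpos, ← hL, mul_assoc]
        nlinarith
      have h5 : (b - a) ≤ (b - a) * (L * (q : ℝ) ^ 16) := by
        have : 1 ≤ L * (q : ℝ) ^ 16 := one_le_mul_of_one_le_of_one_le hL1 (one_le_pow₀ hq1)
        nlinarith
      calc _ ≤ (M : ℝ) * ((b - a) * (L * (q : ℝ) ^ 16) + L * (q : ℝ) ^ 16) :=
            mul_le_mul_of_nonneg_left (add_le_add h5 h4) (Nat.cast_nonneg _)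
        _ = _ := by rw [hMr]; ring
    have h6 := first (k := l + 1) (N := q ^ 32) (M := M) (a := a) (b := b) (ξ := ξ) (by omega)
      (Nat.one_le_pow _ _ hq) hMpos hab (abs_pos.1 hξ0) hV (by positivity)
    refine h6.trans (le_of_eq ?_)
    rw [Real.sqrt_mul (by positivity), Real.sqrt_mul (by positivity), Real.sqrt_sq (by positivity), hc3]
    ring
  · -- large frequencies
    have hξ0 : 0 < |ξ| := hτ0.trans hξ1
    refine pow_le_pow_left₀ (E_nonneg _ _ _ _ _ _) ?_ s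
    have hV : (M : ℝ) * ((b - a) + (1 + Real.log M) /
        (|ξ| * ((q ^ 32 : ℕ) : ℝ) ^ (l + 1 - 1))) ≤ m * (1 + (b - a)) * L * ((q : ℝ) ^ 16) ^ 2 := by
      have h1 : (|ξ| * ((q ^ 32 : ℕ) : ℝ) ^ (l + 1 - 1)) ≥ 1 := by
        rw [Nat.add_sub_cancel]
        push_cast
        rw [← pow_mul]
        have h2 : ρ * (q : ℝ) ^ (32 * l) = 1 := by
          rw [hρ]
          field_simp
        have h3 : ρ * (q : ℝ) ^ (32 * l) ≤ |ξ| * (q : ℝ) ^ (32 * l) :=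
          mul_le_mul_of_nonneg_right hξ2.le (by positivity)
        linarith
      have hpos : 0 < |ξ| * ((q ^ 32 : ℕ) : ℝ) ^ (l + 1 - 1) := by positivity
      have h4 : (1 + Real.log M) / (|ξ| * ((q ^ 32 : ℕ) : ℝ) ^ (l + 1 - 1)) ≤ L := by
        rw [div_le_iff₀ hpos, ← hL]
        nlinarith
      have h5 : (b - a) ≤ (b - a) * L := by nlinarith
      calc _ ≤ (M : ℝ) * ((b - a) * L + L) :=
            mul_le_mul_of_nonneg_left (add_le_add h5 h4) (Nat.cast_nonneg _)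
        _ = _ := by rw [hMr]; ring
    have h6 := first (k := l + 1) (N := q ^ 32) (M := M) (a := a) (b := b) (ξ := ξ) (by omega)
      (Nat.one_le_pow _ _ hq) hMpos hab (abs_pos.1 hξ0) hV (by positivity)
    refine h6.trans (le_of_eq ?_)
    rw [Real.sqrt_mul (by positivity), Real.sqrt_mul (by positivity), Real.sqrt_sq (by positivity), hc3]
    ring

lemma ae_smallF {k s m : ℕ} (hk : 4 ≤ k) (hs : 2 * k ≤ s + 3) (hm : 1 ≤ m) {a b : ℝ} (ha : 0 < a)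
    (hab : a ≤ b) (hb : 1 ≤ b) : ∀ᵐ θ ∂(boxM s a b),
    ∀ᶠ j : ℕ in atTop, ErrQ k m b (2 ^ j) (two 1 1 (two 1 1 θ)) < ENNReal.ofReal (T (s + 4) k (2 ^ j)) := by
  obtain ⟨C, hC, hU⟩ := UboundF hk hs hm ha hab hb
  have hsum : ∑' j : ℕ, boxM s a b
      {θ | ENNReal.ofReal (T (s + 4) k (2 ^ j)) ≤ ErrQ k m b (2 ^ j) (two 1 1 (two 1 1 θ))} ≠ ∞ := by
    have hle : ∀ j : ℕ, boxM s a b
        {θ | ENNReal.ofReal (T (s + 4) k (2 ^ j)) ≤ ErrQ k m b (2 ^ j) (two 1 1 (two 1 1 θ))} ≤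
        ENNReal.ofReal (C * (1 / 4 : ℝ) ^ j) := by
      intro j
      have hq : (1 : ℕ) ≤ 2 ^ j := Nat.one_le_two_pow
      have hq0 : (0 : ℝ) < ((2 ^ j : ℕ) : ℝ) := by exact_mod_cast hq
      have hT0 : 0 < T (s + 4) k (2 ^ j) := by
        unfold T
        positivity
      refine (meas_ge_le_lintegral_div (Err_meas.comp ((two_meas 1 1).comp (two_meas 1 1))).aemeasurable
        (by simpa using hT0) ENNReal.ofReal_ne_top).trans ?_
      refine (ENNReal.div_le_div_right (hU (2 ^ j) hq) _).trans ?_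
      rw [← ENNReal.ofReal_div_of_pos hT0]
      refine ENNReal.ofReal_le_ofReal (le_of_eq ?_)
      unfold T
      have e : ((1 / 4 : ℝ)) ^ j = 1 / (((2 ^ j : ℕ) : ℝ)) ^ 2 := by
        push_cast
        rw [← pow_mul, mul_comm j 2, pow_mul, one_div_pow]
        norm_num
      rw [e]
      generalize ((2 ^ j : ℕ) : ℝ) = q at hq0
      field_simp
    refine ne_top_of_le_ne_top ?_ (ENNReal.tsum_le_tsum hle)
    exact Summable.tsum_ofReal_ne_top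
      ((summable_geometric_of_lt_one (by norm_num) (by norm_num)).mul_left C)
  refine (ae_eventually_notMem hsum).mono fun θ hθ => hθ.mono fun j hj => ?_
  simpa only [Set.mem_ofPred_eq, not_le] using hj

/-- the main theorem with four genuine powers -/
theorem four_generic {k s : ℕ} (hk : 4 ≤ k) (hs : 2 * k ≤ s + 3) :
    ∀ᵐ θ : Fin s → ℝ, (∀ i, 0 < θ i) → Good k (two 1 1 (two 1 1 θ)) := by
  have h1 : ∀ c : ℕ, ∀ᵐ θ : Fin s → ℝ,
      θ ∈ (Set.univ.pi fun _ : Fin s => Set.Icc (1 / ((c : ℝ) + 1)) ((c : ℝ) + 1)) →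
        Good k (two 1 1 (two 1 1 θ)) := by
    intro c
    set b : ℝ := (c : ℝ) + 1 with hb'
    set a : ℝ := 1 / b with ha'
    have hb : (1 : ℝ) ≤ b := by
      rw [hb']
      linarith [Nat.cast_nonneg (α := ℝ) c]
    have hb0 : 0 < b := by linarith
    have ha : 0 < a := by positivity
    have ha1 : a ≤ 1 := by
      rw [ha', div_le_one hb0]
      exact hb
    have hab : a ≤ b := ha1.trans hb
    obtain ⟨m0, hm0⟩ := exists_nat_gt ((((s + 3 : ℕ) : ℝ) * b * 2 ^ k + b) * 2 ^ (32 * k) / a)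
    set m : ℕ := m0 + 2 with hm
    have hmk : (((s + 3 : ℕ) : ℝ) * b * 2 ^ k + b) * 2 ^ (32 * k) < a * (m : ℝ) ^ k := by
      rw [div_lt_iff₀ ha] at hm0
      have h1 : (m0 : ℝ) ≤ (m : ℝ) ^ k := by
        have h2 : (m : ℝ) ≤ (m : ℝ) ^ k :=
          le_self_pow₀ (by exact_mod_cast (by omega : 1 ≤ m)) (by omega)
        have h3 : (m0 : ℝ) ≤ m := by exact_mod_cast (by omega : m0 ≤ m)
        linarith
      nlinarith
    have h2 := ae_smallF (m := m) hk hs (by omega) ha hab hb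
    rw [boxM_eq, ae_restrict_iff' (MeasurableSet.univ_pi fun _ => measurableSet_Icc)] at h2
    refine h2.mono fun θ hθ hbox => ?_
    have hone : (1 : ℝ) ∈ Set.Icc a b := ⟨ha1, hb⟩
    have htwo : ∀ (r : ℕ) (v : Fin r → ℝ), (∀ i, v i ∈ Set.Icc a b) →
        ∀ i, two 1 1 v i ∈ Set.Icc a b := by
      intro r v hv i
      refine Fin.cases ?_ (fun i => ?_) i
      · unfold two
        rw [Fin.cons_zero]
        exact hone
      · refine Fin.cases ?_ (fun j => ?_) i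
        · unfold two
          rw [Fin.cons_succ, Fin.cons_zero]
          exact hone
        · unfold two
          rw [Fin.cons_succ, Fin.cons_succ]
          exact hv j
    exact good_of_small (n := s + 3) (by omega) (by omega) ha hb hmk
      (htwo _ _ (htwo _ _ fun i => hbox i (Set.mem_univ i))) (hθ hbox)
  refine (ae_all_iff.2 h1).mono fun θ hθ hpos => ?_
  obtain ⟨c, hc⟩ := exists_nat_ge (∑ i, (θ i + 1 / θ i))
  refine hθ c fun i _ => ?_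
  have h3 : θ i + 1 / θ i ≤ c := by
    refine le_trans ?_ hc
    exact single_le_sum (f := fun i => θ i + 1 / θ i)
      (fun i _ => add_nonneg (hpos i).le (one_div_nonneg.2 (hpos i).le)) (mem_univ i)
  have h4 := hpos i
  have h5 : 0 < 1 / θ i := by positivity
  constructor
  · rw [div_le_iff₀ (by positivity)]
    have h6 : 1 / θ i ≤ (c : ℝ) + 1 := by linarith
    rw [div_le_iff₀ h4] at h6
    linarith
  · linarith

end Pool.Agent.H164.GW
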