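import Pool.Agent.H164.GW.Bound

/-!
# Sums of `2 k + 1` `k`-th powers with generic coefficients
-/

set_option autoImplicit false

open MeasureTheory Finset Filter Topology
open scoped ENNReal

namespace Pool.Agent.H164.GW

lemma Err_meas {s k N M : ℕ} {ε H : ℝ} : Measurable fun θ : Fin s → ℝ => Err k N M ε H θ := by
  unfold Err
  refine Measurable.lintegral_prod_right' (f := fun p : (Fin s → ℝ) × ℝ =>
    ENNReal.ofReal (g ε H p.2 * ∏ i, ‖F k N M (p.1 i) p.2‖)) ?_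
  refine ENNReal.measurable_ofReal.comp (Continuous.measurable ?_)
  have hg : Continuous fun p : (Fin s → ℝ) × ℝ => g ε H p.2 := g_cont.comp continuous_snd
  refine hg.mul (continuous_finsetProd _ fun i _ => ?_)
  have h4 : Continuous fun p : (Fin s → ℝ) × ℝ => ((p.1 i, p.2) : ℝ × ℝ) := by fun_prop
  exact ((F_cont k N M).comp h4).norm

lemma boxM_eq (s : ℕ) (a b : ℝ) : boxM s a b =
    (volume : Measure (Fin s → ℝ)).restrict (Set.univ.pi fun _ : Fin s => Set.Icc a b) := by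
  unfold boxM
  rw [volume_pi, Measure.restrict_pi_pi]

/-- the error term at the scale `q` -/
noncomputable def ErrQ {s : ℕ} (k m : ℕ) (b : ℝ) (q : ℕ) (θ : Fin s → ℝ) : ℝ≥0∞ :=
  Err k (q ^ 32) (m * q ^ 32) (1 / (q : ℝ) ^ 2) (b * k * ((m : ℝ) * (q ^ 32 : ℕ)) ^ (k - 1)) θ

/-- the threshold at the scale `q` -/
noncomputable def T (s k q : ℕ) : ℝ := (q : ℝ) ^ (32 * s) / ((q : ℝ) ^ (32 * k) * (q : ℝ) ^ 4)

lemma ae_small {k s m : ℕ} (hk : 2 ≤ k) (hs : 2 * k + 1 ≤ s) (hm : 1 ≤ m) {a b : ℝ} (ha : 0 < a)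
    (hab : a ≤ b) (hb : 1 ≤ b) : ∀ᵐ θ ∂(boxM s a b),
    ∀ᶠ j : ℕ in atTop, ErrQ k m b (2 ^ j) θ < ENNReal.ofReal (T s k (2 ^ j)) := by
  obtain ⟨C, hC, hU⟩ := Ubound hk hs hm ha hab hb
  have hsum : ∑' j : ℕ, boxM s a b {θ | ENNReal.ofReal (T s k (2 ^ j)) ≤ ErrQ k m b (2 ^ j) θ} ≠ ∞ := by
    have hle : ∀ j : ℕ, boxM s a b {θ | ENNReal.ofReal (T s k (2 ^ j)) ≤ ErrQ k m b (2 ^ j) θ} ≤
        ENNReal.ofReal (C * (1 / 4 : ℝ) ^ j) := by
      intro j
      have hq : (1 : ℕ) ≤ 2 ^ j := Nat.one_le_two_pow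
      have hq0 : (0 : ℝ) < ((2 ^ j : ℕ) : ℝ) := by exact_mod_cast hq
      have hT0 : 0 < T s k (2 ^ j) := by
        unfold T
        positivity
      refine (meas_ge_le_lintegral_div Err_meas.aemeasurable
        (by simpa using hT0) ENNReal.ofReal_ne_top).trans ?_
      refine (ENNReal.div_le_div_right (hU (2 ^ j) hq) _).trans ?_
      rw [← ENNReal.ofReal_div_of_pos hT0]
      refine ENNReal.ofReal_le_ofReal (le_of_eq ?_)
      unfold T
      have e : ((1 / 4 : ℝ)) ^ j = 1 / (((2 ^ j : ℕ) : ℝ)) ^ 2 := by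
        push_cast
        rw [← pow_mul, mul_comm j 2, pow_mul, one_div_pow]
        norm_num
      rw [e]
      generalize ((2 ^ j : ℕ) : ℝ) = q at hq0
      field_simp
    refine ne_top_of_le_ne_top ?_ (ENNReal.tsum_le_tsum hle)
    exact Summable.tsum_ofReal_ne_top
      ((summable_geometric_of_lt_one (by norm_num) (by norm_num)).mul_left C)
  refine (ae_eventually_notMem hsum).mono fun θ hθ => hθ.mono fun j hj => ?_
  simpa only [Set.mem_ofPred_eq, not_le] using hj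

/-- the comparison at one scale -/
lemma step {k n m : ℕ} (hk : 1 ≤ k) (hm : 2 ≤ m) {a b t : ℝ} (ha : 0 < a) (hb : 1 ≤ b)
    {θ : Fin (n + 1) → ℝ} (hθ : ∀ i, θ i ∈ Set.Icc a b) {q : ℕ} (hq : 1 ≤ q)
    (hE : ErrQ k m b q θ < ENNReal.ofReal (T (n + 1) k q))
    (ht1 : (n * b * 2 ^ k + b) * ((q ^ 32 : ℕ) : ℝ) ^ k ≤ t)
    (ht2 : t < a * ((m : ℝ) * (q ^ 32 : ℕ)) ^ k)
    (hnum : (m : ℝ) ^ (n + 1) * (Real.exp (-(Real.pi * (q : ℝ) ^ 2)) * (q : ℝ) ^ (32 * k + 2)) +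
      1 / (q : ℝ) ^ 2 < Real.exp (-Real.pi) / (b * k * (m : ℝ) ^ (k - 1))) :
    ∃ x : Fin (n + 1) → ℕ, (∀ i, 0 < x i) ∧ |val k θ x - t| < 1 / q := by
  classical
  have hq1 : (1 : ℝ) ≤ q := by exact_mod_cast hq
  have hq0 : (0 : ℝ) < q := by linarith
  have hm0 : (0 : ℝ) < m := by exact_mod_cast (by omega : 0 < m)
  have hm1 : (1 : ℝ) ≤ m := by exact_mod_cast (by omega : 1 ≤ m)
  have hk0 : (0 : ℝ) < k := by exact_mod_cast (by omega : 0 < k)
  have hk1 : (1 : ℝ) ≤ k := by exact_mod_cast hk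
  set P : ℕ := q ^ 32 with hP
  have hP1 : 1 ≤ P := Nat.one_le_pow _ _ hq
  have hPr : (P : ℝ) = (q : ℝ) ^ 32 := by rw [hP]; push_cast; rfl
  have hP0 : (0 : ℝ) < P := by exact_mod_cast hP1
  have hPr1 : (1 : ℝ) ≤ P := by exact_mod_cast hP1
  set H : ℝ := b * k * ((m : ℝ) * P) ^ (k - 1) with hH
  set ε : ℝ := 1 / (q : ℝ) ^ 2 with hε
  have hε0 : 0 < ε := by positivity
  have hε1 : ε ≤ 1 := by
    rw [hε, div_le_one (by positivity)]
    exact one_le_pow₀ hq1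
  have hH1 : 1 ≤ H := one_le_mul_of_one_le_of_one_le (one_le_mul_of_one_le_of_one_le hb hk1)
    (one_le_pow₀ (one_le_mul_of_one_le_of_one_le hm1 hPr1))
  have hH0 : 0 < H := by linarith
  have hT0 : 0 < T (n + 1) k q := by
    unfold T
    positivity
  have h1 := (compare (N := P) (M := m * P) (k := k) hε0 (hε1.trans hH1) θ t).trans_lt hE
  rw [ENNReal.ofReal_lt_ofReal_iff hT0, sum_sub_distrib, ← mul_sum] at h1
  have h2 := coarse (n := n) (P := P) hk hm ha hθ ht1 ht2 rfl hH0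
  rw [← hH] at h2
  set X := Fintype.piFinset (fun _ : Fin (n + 1) => Ico P (m * P)) with hX
  by_contra hcon
  push Not at hcon
  -- all terms of the fine count are small
  have h3 : ∑ x ∈ X, Real.exp (-(Real.pi * ((val k θ x - t) / ε) ^ 2)) ≤
      ((m : ℝ) * P) ^ (n + 1) * Real.exp (-(Real.pi * (q : ℝ) ^ 2)) := by
    calc ∑ x ∈ X, Real.exp (-(Real.pi * ((val k θ x - t) / ε) ^ 2))
        ≤ ∑ _x ∈ X, Real.exp (-(Real.pi * (q : ℝ) ^ 2)) := by
          refine sum_le_sum fun x hx => Real.exp_le_exp.2 (neg_le_neg ?_)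
          refine mul_le_mul_of_nonneg_left ?_ Real.pi_pos.le
          have h4 := hcon x fun i => by
            have := mem_Ico.1 (Fintype.mem_piFinset.1 hx i)
            omega
          have h5 : (q : ℝ) ≤ |(val k θ x - t) / ε| := by
            rw [abs_div, abs_of_pos hε0, le_div_iff₀ hε0]
            refine le_trans (le_of_eq ?_) h4
            rw [hε]
            field_simp
          rw [← sq_abs ((val k θ x - t) / ε)]
          exact pow_le_pow_left₀ hq0.le h5 2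
      _ = (X.card : ℝ) * Real.exp (-(Real.pi * (q : ℝ) ^ 2)) := by
          rw [sum_const, nsmul_eq_mul]
      _ ≤ _ := by
          refine mul_le_mul_of_nonneg_right ?_ (Real.exp_pos _).le
          rw [hX, Fintype.card_piFinset_const, Nat.card_Ico]
          have : ((m * P - P : ℕ) : ℝ) ≤ (m : ℝ) * P := by exact_mod_cast Nat.sub_le _ _
          push_cast
          exact pow_le_pow_left₀ (Nat.cast_nonneg _) this _
  have h6 := (abs_lt.1 h1).1
  have h7 : ε / H * ((P : ℝ) ^ n * Real.exp (-Real.pi)) ≤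
      ε / H * ∑ x ∈ X, Real.exp (-(Real.pi * ((val k θ x - t) / H) ^ 2)) :=
    mul_le_mul_of_nonneg_left h2 (by positivity)
  have h8 : ε / H * ((P : ℝ) ^ n * Real.exp (-Real.pi)) < T (n + 1) k q +
      ((m : ℝ) * P) ^ (n + 1) * Real.exp (-(Real.pi * (q : ℝ) ^ 2)) := by linarith
  obtain ⟨l, rfl⟩ : ∃ l, k = l + 1 := ⟨k - 1, by omega⟩
  set D : ℝ := (q : ℝ) ^ (32 * (n + 1)) / ((q : ℝ) ^ (32 * (l + 1)) * (q : ℝ) ^ 2) with hD
  have hD0 : 0 < D := by positivity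
  have e1 : ε / H * ((P : ℝ) ^ n * Real.exp (-Real.pi)) =
      D * (Real.exp (-Real.pi) / (b * ((l + 1 : ℕ) : ℝ) * (m : ℝ) ^ (l + 1 - 1))) := by
    rw [hε, hH, hD, hPr, Nat.add_sub_cancel, mul_pow, ← pow_mul, ← pow_mul,
      show 32 * (n + 1) = 32 * n + 32 by ring, show 32 * (l + 1) = 32 * l + 32 by ring, pow_add,
      pow_add]
    have : b ≠ 0 := by linarith
    field_simp
  have e2 : T (n + 1) (l + 1) q = D * (1 / (q : ℝ) ^ 2) := by
    unfold T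
    rw [hD]
    field_simp
  have e3 : ((m : ℝ) * P) ^ (n + 1) * Real.exp (-(Real.pi * (q : ℝ) ^ 2)) =
      D * ((m : ℝ) ^ (n + 1) * (Real.exp (-(Real.pi * (q : ℝ) ^ 2)) *
        (q : ℝ) ^ (32 * (l + 1) + 2))) := by
    rw [hPr, hD, mul_pow, ← pow_mul, pow_add (q : ℝ) (32 * (l + 1)) 2]
    field_simp
  rw [e1, e2, e3] at h8
  have h9 := mul_lt_mul_of_pos_left hnum hD0
  linarith

lemma numeric (n k m : ℕ) {c : ℝ} (hc : 0 < c) : ∀ᶠ j : ℕ in atTop,
    (m : ℝ) ^ (n + 1) * (Real.exp (-(Real.pi * ((2 ^ j : ℕ) : ℝ) ^ 2)) *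
      ((2 ^ j : ℕ) : ℝ) ^ (32 * k + 2)) + 1 / ((2 ^ j : ℕ) : ℝ) ^ 2 < c := by
  have h1 : Tendsto (fun x : ℝ => (m : ℝ) ^ (n + 1) * (x ^ (32 * k + 2) * Real.exp (-x)) + 1 / x ^ 2)
      atTop (𝓝 ((m : ℝ) ^ (n + 1) * 0 + 0)) := by
    refine ((Real.tendsto_pow_mul_exp_neg_atTop_nhds_zero _).const_mul _).add ?_
    exact tendsto_const_nhds.div_atTop (tendsto_pow_atTop (by norm_num))
  rw [mul_zero, add_zero] at h1
  have h2 : Tendsto (fun j : ℕ => (((2 ^ j : ℕ) : ℝ))) atTop atTop := by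
    refine tendsto_natCast_atTop_atTop.comp ?_
    exact tendsto_pow_atTop_atTop_of_one_lt (by norm_num)
  have h3 := (h1.comp h2).eventually (gt_mem_nhds hc)
  refine h3.mono fun j hj => lt_of_le_of_lt ?_ hj
  simp only [Function.comp_apply]
  have hx : (1 : ℝ) ≤ ((2 ^ j : ℕ) : ℝ) := by exact_mod_cast Nat.one_le_two_pow
  generalize ((2 ^ j : ℕ) : ℝ) = x at hx
  have h4 : Real.exp (-(Real.pi * x ^ 2)) ≤ Real.exp (-x) := by
    refine Real.exp_le_exp.2 (neg_le_neg ?_)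
    have h5 : x ≤ x ^ 2 := le_self_pow₀ hx (by norm_num)
    have h6 : (1 : ℝ) ≤ Real.pi := by linarith [Real.two_le_pi]
    nlinarith
  rw [mul_comm (x ^ (32 * k + 2))]
  gcongr

/-- the property -/
def Good (k : ℕ) {s : ℕ} (θ : Fin s → ℝ) : Prop :=
  ∃ t₀ : ℝ, ∀ t : ℝ, t₀ ≤ t → ∃ x : Fin s → ℕ, (∀ i, 0 < x i) ∧
    |∑ i, θ i * (x i : ℝ) ^ k - t| < t ^ (-(1 / (40 * k : ℝ)))

lemma box {k n : ℕ} (hk : 2 ≤ k) (hn : 2 * k ≤ n) {a b : ℝ} (ha : 0 < a)
    (hab : a ≤ b) (hb : 1 ≤ b) : ∀ᵐ θ ∂(boxM (n + 1) a b), Good k θ := by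
  set C1 : ℝ := n * b * 2 ^ k + b with hC1
  have hC10 : 0 < C1 := by positivity
  obtain ⟨m0, hm0⟩ := exists_nat_gt (C1 * 2 ^ (32 * k) / a)
  set m : ℕ := m0 + 2 with hm
  have hmk : C1 * 2 ^ (32 * k) < a * (m : ℝ) ^ k := by
    rw [div_lt_iff₀ ha] at hm0
    have h1 : (m0 : ℝ) ≤ (m : ℝ) ^ k := by
      have h2 : (m : ℝ) ≤ (m : ℝ) ^ k := le_self_pow₀ (by exact_mod_cast (by omega : 1 ≤ m)) (by omega)
      have h3 : (m0 : ℝ) ≤ m := by exact_mod_cast (by omega : m0 ≤ m)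
      linarith
    nlinarith
  have hk0 : (0 : ℝ) < k := by exact_mod_cast (by omega : 0 < k)
  have hae := ae_small (s := n + 1) (m := m) hk (by omega) (by omega) ha hab hb
  have hmem : ∀ᵐ θ ∂(boxM (n + 1) a b), ∀ i, θ i ∈ Set.Icc a b := by
    rw [boxM_eq]
    refine (ae_restrict_mem (MeasurableSet.univ_pi fun _ => measurableSet_Icc)).mono fun θ hθ i => ?_
    exact hθ i (Set.mem_univ i)
  filter_upwards [hae, hmem] with θ hθ1 hθ2
  have hc0 : 0 < Real.exp (-Real.pi) / (b * k * (m : ℝ) ^ (k - 1)) := by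
    have : (0 : ℝ) < m := by exact_mod_cast (by omega : 0 < m)
    have : 0 < b := by linarith
    positivity
  obtain ⟨J1, hJ1⟩ := eventually_atTop.1 (hθ1.and (numeric n k m hc0))
  obtain ⟨J2, hJ2⟩ := exists_nat_gt (C1 * 2 ^ (32 * k))
  set J := max J1 J2 with hJ
  have hy : (1 : ℝ) < 2 ^ (32 * k) := one_lt_pow₀ (by norm_num) (by omega)
  refine ⟨max 1 (C1 * (2 ^ (32 * k)) ^ J), fun t ht => ?_⟩
  have ht1 : 1 ≤ t := le_trans (le_max_left _ _) ht
  have htJ : C1 * (2 ^ (32 * k)) ^ J ≤ t := le_trans (le_max_right _ _) ht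
  have htC : (2 ^ (32 * k)) ^ J ≤ t / C1 := by
    rw [le_div_iff₀ hC10, mul_comm]
    exact htJ
  have h1le : 1 ≤ t / C1 := le_trans (one_le_pow₀ hy.le) htC
  obtain ⟨j, hj1, hj2⟩ := exists_nat_pow_near h1le hy
  have hjJ : J ≤ j := by
    by_contra hc
    have h3 : (2 ^ (32 * k) : ℝ) ^ (j + 1) ≤ (2 ^ (32 * k)) ^ J := pow_le_pow_right₀ hy.le (by omega)
    linarith
  rw [le_div_iff₀ hC10] at hj1
  rw [div_lt_iff₀ hC10] at hj2
  have hPk : (((2 ^ j) ^ 32 : ℕ) : ℝ) ^ k = (2 ^ (32 * k)) ^ j := by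
    push_cast
    rw [← pow_mul, ← pow_mul, ← pow_mul]
    congr 1
    ring
  obtain ⟨h4, h5⟩ := hJ1 j ((le_max_left _ _).trans hjJ)
  obtain ⟨x, hx1, hx2⟩ := step (k := k) (n := n) (m := m) (t := t) (by omega) (by omega) ha hb hθ2
    (q := 2 ^ j) Nat.one_le_two_pow h4 (by rw [hPk]; linarith)
    (by
      rw [mul_pow, hPk]
      rw [pow_succ] at hj2
      have h6 : (0 : ℝ) < (2 ^ (32 * k)) ^ j := by positivity
      nlinarith) h5
  refine ⟨x, hx1, hx2.trans_le ?_⟩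
  -- `t ≤ (2 ^ j) ^ (40 k)`
  have h7 : t ≤ (((2 ^ j : ℕ) : ℝ)) ^ (40 * k) := by
    have h8 : C1 * 2 ^ (32 * k) ≤ (2 : ℝ) ^ (8 * k * j) := by
      have h9 : (j : ℝ) ≤ (2 : ℝ) ^ (8 * k * j) := by
        have h10 : j ≤ 2 ^ j := Nat.lt_two_pow_self.le
        have h11 : (2 : ℕ) ^ j ≤ 2 ^ (8 * k * j) := by
          refine Nat.pow_le_pow_right (by norm_num) ?_
          nlinarith
        exact_mod_cast h10.trans h11
      have h12 : (J2 : ℝ) ≤ j := by exact_mod_cast (le_max_right _ _).trans hjJ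
      linarith
    have h13 : (((2 ^ j : ℕ) : ℝ)) ^ (40 * k) = (2 : ℝ) ^ (8 * k * j) * (2 ^ (32 * k)) ^ j := by
      push_cast
      rw [← pow_mul, ← pow_mul, ← pow_add]
      congr 1
      ring
    rw [h13]
    rw [pow_succ] at hj2
    have h6 : (0 : ℝ) < (2 ^ (32 * k)) ^ j := by positivity
    nlinarith
  have hq0 : (0 : ℝ) < ((2 ^ j : ℕ) : ℝ) := by exact_mod_cast Nat.one_le_two_pow
  have ht0 : 0 < t := by linarith
  rw [Real.rpow_neg ht0.le, ← one_div]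
  refine one_div_le_one_div_of_le (Real.rpow_pos_of_pos ht0 _) ?_
  have h14 := Real.rpow_le_rpow ht0.le h7 (by positivity : (0 : ℝ) ≤ 1 / (40 * k : ℝ))
  refine h14.trans (le_of_eq ?_)
  have h15 := Real.pow_rpow_inv_natCast hq0.le (n := 40 * k) (by omega)
  rw [one_div]
  push_cast at h15 ⊢
  exact h15

/-- the main theorem -/
theorem generic {k s : ℕ} (hk : 2 ≤ k) (hs : 2 * k + 1 ≤ s) :
    ∀ᵐ θ : Fin s → ℝ, (∀ i, 0 < θ i) → Good k θ := by
  obtain ⟨n, rfl⟩ : ∃ n, s = n + 1 := ⟨s - 1, by omega⟩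
  have h1 : ∀ c : ℕ, ∀ᵐ θ : Fin (n + 1) → ℝ,
      θ ∈ (Set.univ.pi fun _ : Fin (n + 1) => Set.Icc (1 / ((c : ℝ) + 1)) ((c : ℝ) + 1)) →
        Good k θ := by
    intro c
    have hc : (1 : ℝ) ≤ (c : ℝ) + 1 := by linarith [Nat.cast_nonneg (α := ℝ) c]
    have h2 := box (k := k) (n := n) hk (by omega) (a := 1 / ((c : ℝ) + 1)) (b := (c : ℝ) + 1)
      (by positivity) (by
        rw [div_le_iff₀ (by linarith)]
        nlinarith) hc
    rw [boxM_eq] at h2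
    rwa [ae_restrict_iff' (MeasurableSet.univ_pi fun _ => measurableSet_Icc)] at h2
  refine (ae_all_iff.2 h1).mono fun θ hθ hpos => ?_
  obtain ⟨c, hc⟩ := exists_nat_ge (∑ i, (θ i + 1 / θ i))
  refine hθ c fun i _ => ?_
  have h3 : θ i + 1 / θ i ≤ c := by
    refine le_trans ?_ hc
    exact single_le_sum (f := fun i => θ i + 1 / θ i)
      (fun i _ => add_nonneg (hpos i).le (one_div_nonneg.2 (hpos i).le)) (mem_univ i)
  have h4 := hpos i
  have h5 : 0 < 1 / θ i := by positivity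
  constructor
  · rw [div_le_iff₀ (by positivity)]
    have h6 : 1 / θ i ≤ (c : ℝ) + 1 := by linarith
    rw [div_le_iff₀ h4] at h6
    linarith
  · linarith

end Pool.Agent.H164.GW
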