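import Pool.Agent.H164.GW.Dim3
import Pool.Agent.H164.GW.Cnt1

/-!
# Two fixed coefficients
-/

set_option autoImplicit false

open MeasureTheory Finset Filter Topology
open scoped ENNReal

namespace Pool.Agent.H164.GW

/-- the vector with two fixed entries -/
def two {s : ℕ} (l₁ l₂ : ℝ) (θ : Fin s → ℝ) : Fin (s + 2) → ℝ :=
  Fin.cons l₁ (Fin.cons l₂ θ : Fin (s + 1) → ℝ)

lemma two_prod {s : ℕ} (l₁ l₂ : ℝ) (θ : Fin s → ℝ) (f : ℝ → ℝ) :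
    ∏ i, f (two l₁ l₂ θ i) = f l₁ * f l₂ * ∏ i, f (θ i) := by
  unfold two
  rw [Fin.prod_univ_succ, Fin.prod_univ_succ]
  simp only [Fin.cons_zero, Fin.cons_succ]
  ring

lemma parseval {k N M : ℕ} (hk : 1 ≤ k) (hN : 1 ≤ N) {l ε : ℝ} (hl : 0 < l) (hε : 0 < ε)
    (hε1 : ε ≤ 1) : ∫ ξ : ℝ, G ε ξ * ‖F k N M l ξ‖ ^ 2 ≤ M * (2 * K (l / 2)) := by
  have hcos : ∀ u : ℝ, ∫ ξ : ℝ, G ε ξ * Real.cos (2 * Real.pi * ξ * u) =
      Real.exp (-(Real.pi * (u / ε) ^ 2)) := by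
    intro u
    have h1 := Complex.reCLM.integral_comp_comm (osc_int hε u)
    rw [four hε u] at h1
    have h2 : ∀ ξ : ℝ, Complex.reCLM (((G ε ξ : ℝ) : ℂ) *
        Complex.exp (((2 * Real.pi * ξ * u : ℝ) : ℂ) * Complex.I)) =
        G ε ξ * Real.cos (2 * Real.pi * ξ * u) := by
      intro ξ
      rw [Complex.reCLM_apply, Complex.re_ofReal_mul, Complex.exp_ofReal_mul_I_re]
    simp_rw [h2] at h1
    rw [h1, Complex.reCLM_apply, Complex.ofReal_re]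
  have hint : ∀ u : ℝ, Integrable fun ξ : ℝ => G ε ξ * Real.cos (2 * Real.pi * ξ * u) := by
    intro u
    refine (G_int hε).mono' (Continuous.aestronglyMeasurable ?_) (ae_of_all _ fun ξ => ?_)
    · have := G_cont ε
      fun_prop
    · rw [norm_mul, Real.norm_of_nonneg (G_nonneg hε ξ)]
      have := Real.abs_cos_le_one (2 * Real.pi * ξ * u)
      rw [← Real.norm_eq_abs] at this
      have h0 := G_nonneg hε ξ
      nlinarith
  have h3 : ∀ ξ : ℝ, G ε ξ * ‖F k N M l ξ‖ ^ 2 = ∑ x ∈ Ico N M, ∑ y ∈ Ico N M,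
      G ε ξ * Real.cos (2 * Real.pi * ξ * (((x : ℝ) ^ k - (y : ℝ) ^ k) * l)) := by
    intro ξ
    rw [F_sq, mul_sum]
    refine sum_congr rfl fun x _ => ?_
    rw [mul_sum]
    refine sum_congr rfl fun y _ => ?_
    congr 2
    ring
  simp_rw [h3]
  rw [integral_finsetSum _ fun x _ => integrable_finsetSum _ fun y _ => hint _]
  have h4 : ∀ x ∈ Ico N M, ∫ ξ : ℝ, ∑ y ∈ Ico N M,
      G ε ξ * Real.cos (2 * Real.pi * ξ * (((x : ℝ) ^ k - (y : ℝ) ^ k) * l)) ≤ 2 * K (l / 2) := by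
    intro x hx
    rw [integral_finsetSum _ fun y _ => hint _]
    simp_rw [hcos]
    have h5 := gauss_sum (N := N) (M := M) (v := fun y : ℕ => (y : ℝ) ^ k * l)
      (Δ := l * ε) (H := ε) (Y := (x : ℝ) ^ k * l) (by positivity) hε (by
        intro y hy z hz
        have h7 := gap (k := k) hk (mem_Ico.1 hy).1 (mem_Ico.1 hz).1
        rw [← sub_mul, abs_mul, abs_of_pos hl]
        have h8 : (1 : ℝ) ≤ (N : ℝ) ^ (k - 1) := one_le_pow₀ (by exact_mod_cast hN)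
        have h9 : |(y : ℝ) - z| * ε ≤ |(y : ℝ) - z| * (N : ℝ) ^ (k - 1) :=
          mul_le_mul_of_nonneg_left (hε1.trans h8) (abs_nonneg _)
        nlinarith [mul_le_mul_of_nonneg_left (h9.trans h7) hl.le])
    have e : l * ε / (2 * ε) = l / 2 := by
      field_simp
    rw [e] at h5
    refine le_trans (le_of_eq ?_) h5
    refine sum_congr rfl fun y _ => ?_
    rw [show (((x : ℝ) ^ k - (y : ℝ) ^ k) * l / ε) ^ 2 =
      (((y : ℝ) ^ k * l - (x : ℝ) ^ k * l) / ε) ^ 2 by ring]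
  refine (sum_le_sum h4).trans ?_
  rw [sum_const, Nat.card_Ico, nsmul_eq_mul]
  have hK := K_pos (c := l / 2) (by positivity)
  refine mul_le_mul_of_nonneg_right ?_ (by positivity)
  exact_mod_cast Nat.sub_le _ _

lemma parseval2 {k N M : ℕ} (hk : 1 ≤ k) (hN : 1 ≤ N) {l₁ l₂ ε : ℝ} (hl₁ : 0 < l₁) (hl₂ : 0 < l₂)
    (hε : 0 < ε) (hε1 : ε ≤ 1) :
    ∫⁻ ξ : ℝ, ENNReal.ofReal (G ε ξ * (‖F k N M l₁ ξ‖ * ‖F k N M l₂ ξ‖)) ≤
      ENNReal.ofReal (M * (K (l₁ / 2) + K (l₂ / 2))) := by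
  have hc : ∀ l : ℝ, Continuous fun ξ : ℝ => ‖F k N M l ξ‖ := by
    intro l
    unfold F
    fun_prop
  have hi : ∀ l : ℝ, Integrable fun ξ : ℝ => G ε ξ * ‖F k N M l ξ‖ ^ 2 := by
    intro l
    refine ((G_int hε).mul_const ((M : ℝ) ^ 2)).mono' (Continuous.aestronglyMeasurable ?_)
      (ae_of_all _ fun ξ => ?_)
    · have h1 := G_cont ε
      have h2 := hc l
      fun_prop
    · rw [Real.norm_of_nonneg (mul_nonneg (G_nonneg hε ξ) (by positivity))]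
      exact mul_le_mul_of_nonneg_left (pow_le_pow_left₀ (norm_nonneg _) (F_norm_le _ _ _ _ _) 2)
        (G_nonneg hε ξ)
  have hsum : Integrable fun ξ : ℝ => G ε ξ * ‖F k N M l₁ ξ‖ ^ 2 * (1 / 2) +
      G ε ξ * ‖F k N M l₂ ξ‖ ^ 2 * (1 / 2) := ((hi l₁).mul_const _).add ((hi l₂).mul_const _)
  calc ∫⁻ ξ : ℝ, ENNReal.ofReal (G ε ξ * (‖F k N M l₁ ξ‖ * ‖F k N M l₂ ξ‖))
      ≤ ∫⁻ ξ : ℝ, ENNReal.ofReal (G ε ξ * ‖F k N M l₁ ξ‖ ^ 2 * (1 / 2) +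
          G ε ξ * ‖F k N M l₂ ξ‖ ^ 2 * (1 / 2)) := by
        refine lintegral_mono fun ξ => ENNReal.ofReal_le_ofReal ?_
        have h1 := G_nonneg hε ξ
        have h2 : ‖F k N M l₁ ξ‖ * ‖F k N M l₂ ξ‖ ≤
            ‖F k N M l₁ ξ‖ ^ 2 * (1 / 2) + ‖F k N M l₂ ξ‖ ^ 2 * (1 / 2) := by
          nlinarith [sq_nonneg (‖F k N M l₁ ξ‖ - ‖F k N M l₂ ξ‖)]
        nlinarith [mul_le_mul_of_nonneg_left h2 h1]
    _ = ENNReal.ofReal (∫ ξ : ℝ, (G ε ξ * ‖F k N M l₁ ξ‖ ^ 2 * (1 / 2) +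
          G ε ξ * ‖F k N M l₂ ξ‖ ^ 2 * (1 / 2))) := by
        rw [ofReal_integral_eq_lintegral_ofReal hsum (ae_of_all _ fun ξ => ?_)]
        have h1 := G_nonneg hε ξ
        positivity
    _ ≤ _ := by
        refine ENNReal.ofReal_le_ofReal ?_
        rw [integral_add ((hi l₁).mul_const _) ((hi l₂).mul_const _), integral_mul_const,
          integral_mul_const]
        have h1 := parseval (M := M) hk hN hl₁ hε hε1
        have h2 := parseval (M := M) hk hN hl₂ hε hε1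
        nlinarith

lemma avgT {s k N M : ℕ} {ε H a b τ ρ A1 A2 A3 l₁ l₂ : ℝ} (hk : 1 ≤ k) (hN : 1 ≤ N) (hl₁ : 0 < l₁)
    (hl₂ : 0 < l₂) (hε : 0 < ε) (hε1 : ε ≤ 1) (hH : ε ≤ H)
    (hτ : 0 ≤ τ) (hρ : 0 ≤ ρ) (hA1 : 0 ≤ A1) (hA2 : 0 ≤ A2) (hA3 : 0 ≤ A3)
    (h1 : ∀ ξ : ℝ, |ξ| ≤ τ → g ε H ξ * E k N M a b ξ ^ s ≤ A1)
    (h2 : ∀ ξ : ℝ, τ < |ξ| → |ξ| ≤ ρ → E k N M a b ξ ^ s ≤ A2)
    (h3 : ∀ ξ : ℝ, τ < |ξ| → ρ < |ξ| → E k N M a b ξ ^ s ≤ A3) :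
    ∫⁻ θ, Err k N M ε H (two l₁ l₂ θ) ∂(boxM s a b) ≤
      ENNReal.ofReal (2 * τ * ((M : ℝ) ^ 2 * A1) + 2 * ρ * ((M : ℝ) ^ 2 * A2) +
        A3 * (M * (K (l₁ / 2) + K (l₂ / 2)))) := by
  have hH0 : 0 < H := hε.trans_le hH
  have hK1 := K_pos (c := l₁ / 2) (by positivity)
  have hK2 := K_pos (c := l₂ / 2) (by positivity)
  have : IsFiniteMeasure (boxM s a b) := by
    unfold boxM
    infer_instance
  set Q : ℝ → ℝ := fun ξ => ‖F k N M l₁ ξ‖ * ‖F k N M l₂ ξ‖ with hQ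
  have hQ0 : ∀ ξ, 0 ≤ Q ξ := fun ξ => mul_nonneg (norm_nonneg _) (norm_nonneg _)
  have hQM : ∀ ξ, Q ξ ≤ (M : ℝ) ^ 2 := fun ξ => by
    rw [sq]
    exact mul_le_mul (F_norm_le _ _ _ _ _) (F_norm_le _ _ _ _ _) (norm_nonneg _) (Nat.cast_nonneg _)
  have hQc : Continuous Q := by
    simp only [hQ]
    unfold F
    fun_prop
  have hErr : ∀ θ : Fin s → ℝ, Err k N M ε H (two l₁ l₂ θ) =
      ∫⁻ ξ : ℝ, ENNReal.ofReal (g ε H ξ * (Q ξ * ∏ i, ‖F k N M (θ i) ξ‖)) := by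
    intro θ
    unfold Err
    refine lintegral_congr fun ξ => ?_
    rw [two_prod l₁ l₂ θ (fun u => ‖F k N M u ξ‖)]
  simp_rw [hErr]
  rw [lintegral_lintegral_swap]
  swap
  · refine Measurable.aemeasurable ?_
    refine ENNReal.measurable_ofReal.comp (Continuous.measurable ?_)
    have hg : Continuous fun p : (Fin s → ℝ) × ℝ => g ε H p.2 := g_cont.comp continuous_snd
    refine hg.mul ((hQc.comp continuous_snd).mul (continuous_finsetProd _ fun i _ => ?_))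
    have h4 : Continuous fun p : (Fin s → ℝ) × ℝ => ((p.1 i, p.2) : ℝ × ℝ) := by fun_prop
    exact ((F_cont k N M).comp h4).norm
  have h5 : ∀ ξ : ℝ, ∫⁻ θ, ENNReal.ofReal (g ε H ξ * (Q ξ * ∏ i, ‖F k N M (θ i) ξ‖))
      ∂(boxM s a b) = ENNReal.ofReal (g ε H ξ * Q ξ * E k N M a b ξ ^ s) := by
    intro ξ
    have hg0 : 0 ≤ g ε H ξ * Q ξ := mul_nonneg (g_nonneg hε hH ξ) (hQ0 ξ)
    simp_rw [← mul_assoc, ENNReal.ofReal_mul hg0]
    rw [lintegral_const_mul' _ _ ENNReal.ofReal_ne_top, prod_avg]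
  simp_rw [h5]
  have h6 : ∀ ξ : ℝ, ENNReal.ofReal (g ε H ξ * Q ξ * E k N M a b ξ ^ s) ≤
      (Set.Icc (-τ) τ).indicator (fun _ => ENNReal.ofReal ((M : ℝ) ^ 2 * A1)) ξ +
      (Set.Icc (-ρ) ρ).indicator (fun _ => ENNReal.ofReal ((M : ℝ) ^ 2 * A2)) ξ +
      ENNReal.ofReal A3 * ENNReal.ofReal (G ε ξ * Q ξ) := by
    intro ξ
    have hg0 := g_nonneg hε hH ξ
    have hE0 : 0 ≤ E k N M a b ξ ^ s := pow_nonneg (E_nonneg _ _ _ _ _ _) _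
    by_cases hc1 : |ξ| ≤ τ
    · have : ξ ∈ Set.Icc (-τ) τ := abs_le.1 hc1
      rw [Set.indicator_of_mem this, add_assoc]
      refine (ENNReal.ofReal_le_ofReal ?_).trans le_self_add
      calc g ε H ξ * Q ξ * E k N M a b ξ ^ s = Q ξ * (g ε H ξ * E k N M a b ξ ^ s) := by ring
        _ ≤ (M : ℝ) ^ 2 * A1 := mul_le_mul (hQM ξ) (h1 ξ hc1) (mul_nonneg hg0 hE0) (by positivity)
    · rw [not_le] at hc1
      by_cases hc2 : |ξ| ≤ ρ
      · have : ξ ∈ Set.Icc (-ρ) ρ := abs_le.1 hc2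
        rw [Set.indicator_of_mem this]
        have h7 : g ε H ξ * Q ξ * E k N M a b ξ ^ s ≤ (M : ℝ) ^ 2 * A2 := by
          calc g ε H ξ * Q ξ * E k N M a b ξ ^ s ≤ 1 * Q ξ * E k N M a b ξ ^ s :=
                mul_le_mul_of_nonneg_right (mul_le_mul_of_nonneg_right
                  (g_le_one hε hε1 hH0 ξ) (hQ0 ξ)) hE0
            _ ≤ (M : ℝ) ^ 2 * A2 := by
                rw [one_mul]
                exact mul_le_mul (hQM ξ) (h2 ξ hc1 hc2) hE0 (by positivity)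
        refine (ENNReal.ofReal_le_ofReal h7).trans ?_
        exact (le_add_left (le_refl _)).trans le_self_add
      · rw [not_le] at hc2
        have h8 : g ε H ξ * Q ξ * E k N M a b ξ ^ s ≤ A3 * (G ε ξ * Q ξ) := by
          rw [mul_comm A3]
          exact mul_le_mul (mul_le_mul_of_nonneg_right (g_le_G hε hH0 ξ) (hQ0 ξ)) (h3 ξ hc1 hc2)
            hE0 (mul_nonneg (G_nonneg hε ξ) (hQ0 ξ))
        refine (ENNReal.ofReal_le_ofReal h8).trans ?_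
        rw [ENNReal.ofReal_mul hA3]
        exact le_add_left (le_refl _)
  refine (lintegral_mono h6).trans ?_
  have hm1 : Measurable ((Set.Icc (-τ) τ).indicator (fun _ : ℝ => ENNReal.ofReal ((M : ℝ) ^ 2 * A1))) :=
    measurable_const.indicator measurableSet_Icc
  have hm2 : Measurable ((Set.Icc (-ρ) ρ).indicator (fun _ : ℝ => ENNReal.ofReal ((M : ℝ) ^ 2 * A2))) :=
    measurable_const.indicator measurableSet_Icc
  have hm12 : Measurable fun ξ : ℝ =>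
      (Set.Icc (-τ) τ).indicator (fun _ : ℝ => ENNReal.ofReal ((M : ℝ) ^ 2 * A1)) ξ +
      (Set.Icc (-ρ) ρ).indicator (fun _ : ℝ => ENNReal.ofReal ((M : ℝ) ^ 2 * A2)) ξ := hm1.add hm2
  have hMA1 : 0 ≤ (M : ℝ) ^ 2 * A1 := by positivity
  have hMA2 : 0 ≤ (M : ℝ) ^ 2 * A2 := by positivity
  rw [lintegral_add_left hm12, lintegral_add_left hm1,
    lintegral_indicator_const measurableSet_Icc, lintegral_indicator_const measurableSet_Icc,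
    lintegral_const_mul' _ _ ENNReal.ofReal_ne_top, Real.volume_Icc,
    Real.volume_Icc, ← ENNReal.ofReal_mul hMA1, ← ENNReal.ofReal_mul hMA2,
    ← ENNReal.ofReal_add (by nlinarith) (by nlinarith)]
  have hX : 0 ≤ 2 * τ * ((M : ℝ) ^ 2 * A1) + 2 * ρ * ((M : ℝ) ^ 2 * A2) := by positivity
  have hY : 0 ≤ A3 * (M * (K (l₁ / 2) + K (l₂ / 2))) := by positivity
  rw [ENNReal.ofReal_add hX hY, ENNReal.ofReal_mul hA3]
  refine add_le_add (ENNReal.ofReal_le_ofReal (le_of_eq (by ring))) ?_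
  refine mul_le_mul_right ?_ _
  exact parseval2 hk hN hl₁ hl₂ hε hε1

lemma UboundT {k s m : ℕ} (hk : 3 ≤ k) (hs : 2 * k ≤ s + 1) (hm : 1 ≤ m) {a b : ℝ} (ha : 0 < a)
    (hab : a ≤ b) (hb : 1 ≤ b) {l₁ l₂ : ℝ} (hl₁ : 0 < l₁) (hl₂ : 0 < l₂) :
    ∃ C : ℝ, 0 < C ∧ ∀ q : ℕ, 1 ≤ q →
    ∫⁻ θ, Err k (q ^ 32) (m * q ^ 32) (1 / (q : ℝ) ^ 2)
      (b * k * ((m : ℝ) * (q ^ 32 : ℕ)) ^ (k - 1)) (two l₁ l₂ θ) ∂(boxM s a b) ≤
      ENNReal.ofReal (C * ((q : ℝ) ^ (32 * (s + 2)) / ((q : ℝ) ^ (32 * k) * (q : ℝ) ^ 6))) := by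
  set KK : ℝ := K (l₁ / 2) + K (l₂ / 2) with hKK
  have hKK0 : 0 < KK := add_pos (K_pos (by positivity)) (K_pos (by positivity))
  obtain ⟨C2, hC2, hlog⟩ := log_bound s m (by omega) hm
  obtain ⟨l, rfl⟩ : ∃ l, k = l + 1 := ⟨k - 1, by omega⟩
  have hm0 : (0 : ℝ) < m := by exact_mod_cast hm
  have hba : 0 ≤ b - a := sub_nonneg.2 hab
  have hb0 : 0 < b := by linarith
  set c3 : ℝ := (1 + (b - a)) * √(m * (1 + (b - a))) with hc3
  have hc30 : 0 < c3 := by positivity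
  set C1 : ℝ := 2 * Real.pi * (b * (l + 1) * (m : ℝ) ^ l) ^ 2 * ((b - a) * m) ^ s * (m : ℝ) ^ 2 with hC1
  have hC10 : 0 ≤ C1 := by positivity
  refine ⟨C1 + 2 * (m : ℝ) ^ 2 * (c3 ^ s * C2) + KK * m * (c3 ^ s * C2), by positivity,
    fun q hq => ?_⟩
  have hq1 : (1 : ℝ) ≤ q := by exact_mod_cast hq
  have hq0 : (0 : ℝ) < q := by linarith
  set M : ℕ := m * q ^ 32 with hM
  have hMpos : 1 ≤ M := by
    rw [hM]
    exact Nat.mul_pos hm (pow_pos hq 32)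
  set L : ℝ := 1 + Real.log (M : ℝ) with hL
  have hL1 : 1 ≤ L := by
    have := Real.log_nonneg (x := (M : ℝ)) (by exact_mod_cast hMpos)
    rw [hL]
    linarith
  have hMr : (M : ℝ) = m * (q : ℝ) ^ 32 := by rw [hM]; push_cast; ring
  set H : ℝ := b * ((l + 1 : ℕ) : ℝ) * ((m : ℝ) * (q ^ 32 : ℕ)) ^ (l + 1 - 1) with hH
  have hHe : H = (b * (l + 1) * (m : ℝ) ^ l) * (q : ℝ) ^ (32 * l) := by
    rw [hH, Nat.add_sub_cancel]
    push_cast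
    rw [mul_pow, ← pow_mul]
    ring
  have hm1 : (1 : ℝ) ≤ m := by exact_mod_cast hm
  have hH1 : 1 ≤ H := by
    rw [hHe]
    have h1 : (1 : ℝ) ≤ (m : ℝ) ^ l := one_le_pow₀ hm1
    have h2 : (1 : ℝ) ≤ (q : ℝ) ^ (32 * l) := one_le_pow₀ hq1
    have h3 : (1 : ℝ) ≤ b * (l + 1) := by
      have : (0 : ℝ) ≤ l := Nat.cast_nonneg l
      nlinarith
    exact one_le_mul_of_one_le_of_one_le (one_le_mul_of_one_le_of_one_le h3 h1) h2
  have hε0 : (0 : ℝ) < 1 / (q : ℝ) ^ 2 := by positivity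
  have hε1 : 1 / (q : ℝ) ^ 2 ≤ 1 := by
    rw [div_le_one (by positivity)]
    exact one_le_pow₀ hq1
  set τ : ℝ := (q : ℝ) ^ 16 / (q : ℝ) ^ (32 * (l + 1)) with hτ
  set ρ : ℝ := 1 / (q : ℝ) ^ (32 * l) with hρ
  have hτ0 : 0 < τ := by positivity
  have hρ0 : 0 < ρ := by positivity
  have hav := avgT (s := s) (k := l + 1) (l₁ := l₁) (l₂ := l₂) (N := q ^ 32) (M := M) (a := a) (b := b) (τ := τ) (ρ := ρ)
    (ε := 1 / (q : ℝ) ^ 2) (H := H)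
    (A1 := Real.pi * H ^ 2 * τ ^ 2 * ((b - a) * M) ^ s)
    (A2 := (c3 * √L * (q : ℝ) ^ 24) ^ s) (A3 := (c3 * √L * (q : ℝ) ^ 16) ^ s)
    (by omega) (Nat.one_le_pow _ _ hq) hl₁ hl₂
    hε0 hε1 (hε1.trans hH1) hτ0.le hρ0.le (by positivity) (by positivity) (by positivity)
    (fun ξ hξ => ?_) (fun ξ hξ1 hξ2 => ?_) (fun ξ hξ1 hξ2 => ?_)
  · refine hav.trans (ENNReal.ofReal_le_ofReal ?_)
    have hlog' : √L ^ s ≤ C2 * (q : ℝ) ^ 2 := hlog q hq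
    -- first term
    have t1 : 2 * τ * ((M : ℝ) ^ 2 * (Real.pi * H ^ 2 * τ ^ 2 * ((b - a) * M) ^ s)) ≤
        C1 * ((q : ℝ) ^ (32 * (s + 2)) / ((q : ℝ) ^ (32 * (l + 1)) * (q : ℝ) ^ 6)) := by
      rw [hHe, hτ, hMr, hC1]
      have e : 2 * ((q : ℝ) ^ 16 / (q : ℝ) ^ (32 * (l + 1))) *
          ((m * (q : ℝ) ^ 32) ^ 2 * (Real.pi * ((b * (l + 1) * (m : ℝ) ^ l) * (q : ℝ) ^ (32 * l)) ^ 2 *
            ((q : ℝ) ^ 16 / (q : ℝ) ^ (32 * (l + 1))) ^ 2 * ((b - a) * (m * (q : ℝ) ^ 32)) ^ s)) =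
          2 * Real.pi * (b * (l + 1) * (m : ℝ) ^ l) ^ 2 * ((b - a) * m) ^ s * (m : ℝ) ^ 2 *
            ((q : ℝ) ^ (32 * (s + 2)) / ((q : ℝ) ^ (32 * (l + 1)) * (q : ℝ) ^ 16)) := by
        rw [show (b - a) * (m * (q : ℝ) ^ 32) = ((b - a) * m) * (q : ℝ) ^ 32 by ring, mul_pow ((b - a) * m),
          ← pow_mul (q : ℝ) 32 s]
        rw [show 32 * (l + 1) = 32 * l + 32 by ring, show 32 * (s + 2) = 32 * s + 64 by ring, pow_add,
          pow_add]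
        field_simp
      rw [e]
      refine mul_le_mul_of_nonneg_left ?_ (by positivity)
      refine div_le_div_of_nonneg_left (by positivity) (by positivity) ?_
      exact mul_le_mul_of_nonneg_left (pow_le_pow_right₀ hq1 (by norm_num)) (by positivity)
    have t2 : 2 * ρ * ((M : ℝ) ^ 2 * (c3 * √L * (q : ℝ) ^ 24) ^ s) ≤ 2 * (m : ℝ) ^ 2 * (c3 ^ s * C2) *
        ((q : ℝ) ^ (32 * (s + 2)) / ((q : ℝ) ^ (32 * (l + 1)) * (q : ℝ) ^ 6)) := by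
      rw [mul_pow (c3 * √L), mul_pow c3, ← pow_mul, hρ, hMr, mul_pow (m : ℝ)]
      have h1 : c3 ^ s * √L ^ s ≤ c3 ^ s * (C2 * (q : ℝ) ^ 2) :=
        mul_le_mul_of_nonneg_left hlog' (by positivity)
      have h2 : 1 / (q : ℝ) ^ (32 * l) * ((q : ℝ) ^ 32) ^ 2 * (q : ℝ) ^ (24 * s) * (q : ℝ) ^ 2 ≤
          (q : ℝ) ^ (32 * (s + 2)) / ((q : ℝ) ^ (32 * (l + 1)) * (q : ℝ) ^ 6) := by
        rw [le_div_iff₀ (by positivity)]
        have e : 1 / (q : ℝ) ^ (32 * l) * ((q : ℝ) ^ 32) ^ 2 * (q : ℝ) ^ (24 * s) * (q : ℝ) ^ 2 *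
            ((q : ℝ) ^ (32 * (l + 1)) * (q : ℝ) ^ 6) = (q : ℝ) ^ (24 * s + 104) := by
          rw [show 32 * (l + 1) = 32 * l + 32 by ring, pow_add, pow_add]
          field_simp
        rw [e]
        exact pow_le_pow_right₀ hq1 (by omega)
      calc 2 * (1 / (q : ℝ) ^ (32 * l)) *
            ((m : ℝ) ^ 2 * ((q : ℝ) ^ 32) ^ 2 * (c3 ^ s * √L ^ s * (q : ℝ) ^ (24 * s)))
          = 2 * (m : ℝ) ^ 2 * (c3 ^ s * √L ^ s) *
            (1 / (q : ℝ) ^ (32 * l) * ((q : ℝ) ^ 32) ^ 2 * (q : ℝ) ^ (24 * s)) := by ring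
        _ ≤ 2 * (m : ℝ) ^ 2 * (c3 ^ s * (C2 * (q : ℝ) ^ 2)) *
            (1 / (q : ℝ) ^ (32 * l) * ((q : ℝ) ^ 32) ^ 2 * (q : ℝ) ^ (24 * s)) := by gcongr
        _ = 2 * (m : ℝ) ^ 2 * (c3 ^ s * C2) *
            (1 / (q : ℝ) ^ (32 * l) * ((q : ℝ) ^ 32) ^ 2 * (q : ℝ) ^ (24 * s) * (q : ℝ) ^ 2) := by
            ring
        _ ≤ _ := mul_le_mul_of_nonneg_left h2 (by positivity)
    have t3 : (c3 * √L * (q : ℝ) ^ 16) ^ s * (M * (K (l₁ / 2) + K (l₂ / 2))) ≤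
        KK * m * (c3 ^ s * C2) *
        ((q : ℝ) ^ (32 * (s + 2)) / ((q : ℝ) ^ (32 * (l + 1)) * (q : ℝ) ^ 6)) := by
      rw [mul_pow (c3 * √L), mul_pow c3, ← pow_mul, hMr, ← hKK]
      have h1 : c3 ^ s * √L ^ s ≤ c3 ^ s * (C2 * (q : ℝ) ^ 2) :=
        mul_le_mul_of_nonneg_left hlog' (by positivity)
      have h2 : (q : ℝ) ^ (16 * s) * (q : ℝ) ^ 32 * (q : ℝ) ^ 2 ≤
          (q : ℝ) ^ (32 * (s + 2)) / ((q : ℝ) ^ (32 * (l + 1)) * (q : ℝ) ^ 6) := by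
        rw [le_div_iff₀ (by positivity), ← pow_add, ← pow_add, ← pow_add, ← pow_add]
        exact pow_le_pow_right₀ hq1 (by omega)
      calc c3 ^ s * √L ^ s * (q : ℝ) ^ (16 * s) * (m * (q : ℝ) ^ 32 * KK)
          ≤ c3 ^ s * (C2 * (q : ℝ) ^ 2) * (q : ℝ) ^ (16 * s) * (m * (q : ℝ) ^ 32 * KK) := by gcongr
        _ = KK * m * (c3 ^ s * C2) * ((q : ℝ) ^ (16 * s) * (q : ℝ) ^ 32 * (q : ℝ) ^ 2) := by ring
        _ ≤ _ := mul_le_mul_of_nonneg_left h2 (by positivity)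
    calc _ ≤ C1 * ((q : ℝ) ^ (32 * (s + 2)) / ((q : ℝ) ^ (32 * (l + 1)) * (q : ℝ) ^ 6)) +
          2 * (m : ℝ) ^ 2 * (c3 ^ s * C2) *
            ((q : ℝ) ^ (32 * (s + 2)) / ((q : ℝ) ^ (32 * (l + 1)) * (q : ℝ) ^ 6)) +
          KK * m * (c3 ^ s * C2) *
            ((q : ℝ) ^ (32 * (s + 2)) / ((q : ℝ) ^ (32 * (l + 1)) * (q : ℝ) ^ 6)) :=
          add_le_add (add_le_add t1 t2) t3
      _ = _ := by ring
  · -- small frequencies
    have h1 := g_le_sq hε0 hε1 (by linarith : 0 < H) ξ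
    have h2 : ξ ^ 2 ≤ τ ^ 2 := by
      rw [← sq_abs ξ]
      exact pow_le_pow_left₀ (abs_nonneg ξ) hξ 2
    have h3 : g (1 / (q : ℝ) ^ 2) H ξ ≤ Real.pi * H ^ 2 * τ ^ 2 :=
      h1.trans (mul_le_mul_of_nonneg_left h2 (by positivity))
    exact mul_le_mul h3 (pow_le_pow_left₀ (E_nonneg _ _ _ _ _ _) (E_triv hab ξ) s)
      (pow_nonneg (E_nonneg _ _ _ _ _ _) _) (by positivity)
  · -- middle frequencies
    have hξ0 : 0 < |ξ| := hτ0.trans hξ1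
    refine pow_le_pow_left₀ (E_nonneg _ _ _ _ _ _) ?_ s
    have hV : (M : ℝ) * ((b - a) + (1 + Real.log M) /
        (|ξ| * ((q ^ 32 : ℕ) : ℝ) ^ (l + 1 - 1))) ≤ m * (1 + (b - a)) * L * ((q : ℝ) ^ 24) ^ 2 := by
      have h1 : (q : ℝ) ^ 16 * (|ξ| * ((q ^ 32 : ℕ) : ℝ) ^ (l + 1 - 1)) ≥ 1 := by
        rw [Nat.add_sub_cancel]
        push_cast
        rw [← pow_mul]
        have h2 : τ * (q : ℝ) ^ (32 * l) * (q : ℝ) ^ 16 = 1 := by
          rw [hτ, show 32 * (l + 1) = 32 * l + 32 by ring, pow_add]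
          field_simp
        have h3 : τ * (q : ℝ) ^ (32 * l) ≤ |ξ| * (q : ℝ) ^ (32 * l) :=
          mul_le_mul_of_nonneg_right hξ1.le (by positivity)
        nlinarith [mul_le_mul_of_nonneg_right h3 (by positivity : (0 : ℝ) ≤ (q : ℝ) ^ 16)]
      have hpos : 0 < |ξ| * ((q ^ 32 : ℕ) : ℝ) ^ (l + 1 - 1) := by positivity
      have h4 : (1 + Real.log M) / (|ξ| * ((q ^ 32 : ℕ) : ℝ) ^ (l + 1 - 1)) ≤ L * (q : ℝ) ^ 16 := by
        rw [div_le_iff₀ hpos, ← hL, mul_assoc]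
        nlinarith
      have h5 : (b - a) ≤ (b - a) * (L * (q : ℝ) ^ 16) := by
        have : 1 ≤ L * (q : ℝ) ^ 16 := one_le_mul_of_one_le_of_one_le hL1 (one_le_pow₀ hq1)
        nlinarith
      calc _ ≤ (M : ℝ) * ((b - a) * (L * (q : ℝ) ^ 16) + L * (q : ℝ) ^ 16) :=
            mul_le_mul_of_nonneg_left (add_le_add h5 h4) (Nat.cast_nonneg _)
        _ = _ := by rw [hMr]; ring
    have h6 := first (k := l + 1) (N := q ^ 32) (M := M) (a := a) (b := b) (ξ := ξ) (by omega)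
      (Nat.one_le_pow _ _ hq) hMpos hab (abs_pos.1 hξ0) hV (by positivity)
    refine h6.trans (le_of_eq ?_)
    rw [Real.sqrt_mul (by positivity), Real.sqrt_mul (by positivity), Real.sqrt_sq (by positivity), hc3]
    ring
  · -- large frequencies
    have hξ0 : 0 < |ξ| := hτ0.trans hξ1
    refine pow_le_pow_left₀ (E_nonneg _ _ _ _ _ _) ?_ s
    have hV : (M : ℝ) * ((b - a) + (1 + Real.log M) /
        (|ξ| * ((q ^ 32 : ℕ) : ℝ) ^ (l + 1 - 1))) ≤ m * (1 + (b - a)) * L * ((q : ℝ) ^ 16) ^ 2 := by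
      have h1 : (|ξ| * ((q ^ 32 : ℕ) : ℝ) ^ (l + 1 - 1)) ≥ 1 := by
        rw [Nat.add_sub_cancel]
        push_cast
        rw [← pow_mul]
        have h2 : ρ * (q : ℝ) ^ (32 * l) = 1 := by
          rw [hρ]
          field_simp
        have h3 : ρ * (q : ℝ) ^ (32 * l) ≤ |ξ| * (q : ℝ) ^ (32 * l) :=
          mul_le_mul_of_nonneg_right hξ2.le (by positivity)
        linarith
      have hpos : 0 < |ξ| * ((q ^ 32 : ℕ) : ℝ) ^ (l + 1 - 1) := by positivity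
      have h4 : (1 + Real.log M) / (|ξ| * ((q ^ 32 : ℕ) : ℝ) ^ (l + 1 - 1)) ≤ L := by
        rw [div_le_iff₀ hpos, ← hL]
        nlinarith
      have h5 : (b - a) ≤ (b - a) * L := by nlinarith
      calc _ ≤ (M : ℝ) * ((b - a) * L + L) :=
            mul_le_mul_of_nonneg_left (add_le_add h5 h4) (Nat.cast_nonneg _)
        _ = _ := by rw [hMr]; ring
    have h6 := first (k := l + 1) (N := q ^ 32) (M := M) (a := a) (b := b) (ξ := ξ) (by omega)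
      (Nat.one_le_pow _ _ hq) hMpos hab (abs_pos.1 hξ0) hV (by positivity)
    refine h6.trans (le_of_eq ?_)
    rw [Real.sqrt_mul (by positivity), Real.sqrt_mul (by positivity), Real.sqrt_sq (by positivity), hc3]
    ring

end Pool.Agent.H164.GW
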