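import Pool.Agent.H164.GW.Two

/-!
# Two fixed coefficients and `2 k - 1` generic coefficients
-/

set_option autoImplicit false

open MeasureTheory Finset Filter Topology
open scoped ENNReal

namespace Pool.Agent.H164.GW

lemma two_meas {s : ℕ} (l₁ l₂ : ℝ) : Measurable fun θ : Fin s → ℝ => two l₁ l₂ θ := by
  refine measurable_pi_lambda _ fun i => ?_
  refine Fin.cases ?_ (fun i => ?_) i
  · unfold two
    simp only [Fin.cons_zero]
    exact measurable_const
  · refine Fin.cases ?_ (fun j => ?_) i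
    · unfold two
      simp only [Fin.cons_succ, Fin.cons_zero]
      exact measurable_const
    · unfold two
      simp only [Fin.cons_succ]
      exact measurable_pi_apply j

lemma ae_smallT {k s m : ℕ} (hk : 3 ≤ k) (hs : 2 * k ≤ s + 1) (hm : 1 ≤ m) {a b : ℝ} (ha : 0 < a)
    (hab : a ≤ b) (hb : 1 ≤ b) {l₁ l₂ : ℝ} (hl₁ : 0 < l₁) (hl₂ : 0 < l₂) : ∀ᵐ θ ∂(boxM s a b),
    ∀ᶠ j : ℕ in atTop, ErrQ k m b (2 ^ j) (two l₁ l₂ θ) < ENNReal.ofReal (T (s + 2) k (2 ^ j)) := by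
  obtain ⟨C, hC, hU⟩ := UboundT hk hs hm ha hab hb hl₁ hl₂
  have hsum : ∑' j : ℕ, boxM s a b
      {θ | ENNReal.ofReal (T (s + 2) k (2 ^ j)) ≤ ErrQ k m b (2 ^ j) (two l₁ l₂ θ)} ≠ ∞ := by
    have hle : ∀ j : ℕ, boxM s a b
        {θ | ENNReal.ofReal (T (s + 2) k (2 ^ j)) ≤ ErrQ k m b (2 ^ j) (two l₁ l₂ θ)} ≤
        ENNReal.ofReal (C * (1 / 4 : ℝ) ^ j) := by
      intro j
      have hq : (1 : ℕ) ≤ 2 ^ j := Nat.one_le_two_pow
      have hq0 : (0 : ℝ) < ((2 ^ j : ℕ) : ℝ) := by exact_mod_cast hq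
      have hT0 : 0 < T (s + 2) k (2 ^ j) := by
        unfold T
        positivity
      refine (meas_ge_le_lintegral_div (Err_meas.comp (two_meas l₁ l₂)).aemeasurable
        (by simpa using hT0) ENNReal.ofReal_ne_top).trans ?_
      refine (ENNReal.div_le_div_right (hU (2 ^ j) hq) _).trans ?_
      rw [← ENNReal.ofReal_div_of_pos hT0]
      refine ENNReal.ofReal_le_ofReal (le_of_eq ?_)
      unfold T
      have e : ((1 / 4 : ℝ)) ^ j = 1 / (((2 ^ j : ℕ) : ℝ)) ^ 2 := by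
        push_cast
        rw [← pow_mul, mul_comm j 2, pow_mul, one_div_pow]
        norm_num
      rw [e]
      generalize ((2 ^ j : ℕ) : ℝ) = q at hq0
      field_simp
    refine ne_top_of_le_ne_top ?_ (ENNReal.tsum_le_tsum hle)
    exact Summable.tsum_ofReal_ne_top
      ((summable_geometric_of_lt_one (by norm_num) (by norm_num)).mul_left C)
  refine (ae_eventually_notMem hsum).mono fun θ hθ => hθ.mono fun j hj => ?_
  simpa only [Set.mem_ofPred_eq, not_le] using hj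

/-- the main theorem with two fixed coefficients -/
theorem two_generic {k s : ℕ} (hk : 3 ≤ k) (hs : 2 * k ≤ s + 1) {l₁ l₂ : ℝ} (hl₁ : 0 < l₁)
    (hl₂ : 0 < l₂) : ∀ᵐ θ : Fin s → ℝ, (∀ i, 0 < θ i) → Good k (two l₁ l₂ θ) := by
  have h1 : ∀ c : ℕ, ∀ᵐ θ : Fin s → ℝ,
      θ ∈ (Set.univ.pi fun _ : Fin s => Set.Icc (1 / ((c : ℝ) + 1)) ((c : ℝ) + 1)) →
        l₁ ∈ Set.Icc (1 / ((c : ℝ) + 1)) ((c : ℝ) + 1) →
        l₂ ∈ Set.Icc (1 / ((c : ℝ) + 1)) ((c : ℝ) + 1) → Good k (two l₁ l₂ θ) := by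
    intro c
    set b : ℝ := (c : ℝ) + 1 with hb'
    set a : ℝ := 1 / b with ha'
    have hb : (1 : ℝ) ≤ b := by
      rw [hb']
      linarith [Nat.cast_nonneg (α := ℝ) c]
    have hb0 : 0 < b := by linarith
    have ha : 0 < a := by positivity
    have hab : a ≤ b := by
      rw [ha', div_le_iff₀ hb0]
      nlinarith
    obtain ⟨m0, hm0⟩ := exists_nat_gt ((((s + 1 : ℕ) : ℝ) * b * 2 ^ k + b) * 2 ^ (32 * k) / a)
    set m : ℕ := m0 + 2 with hm
    have hmk : (((s + 1 : ℕ) : ℝ) * b * 2 ^ k + b) * 2 ^ (32 * k) < a * (m : ℝ) ^ k := by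
      rw [div_lt_iff₀ ha] at hm0
      have h1 : (m0 : ℝ) ≤ (m : ℝ) ^ k := by
        have h2 : (m : ℝ) ≤ (m : ℝ) ^ k :=
          le_self_pow₀ (by exact_mod_cast (by omega : 1 ≤ m)) (by omega)
        have h3 : (m0 : ℝ) ≤ m := by exact_mod_cast (by omega : m0 ≤ m)
        linarith
      nlinarith
    have h2 := ae_smallT (m := m) hk hs (by omega) ha hab hb hl₁ hl₂
    rw [boxM_eq, ae_restrict_iff' (MeasurableSet.univ_pi fun _ => measurableSet_Icc)] at h2
    refine h2.mono fun θ hθ hbox hb1 hb2 => ?_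
    refine good_of_small (n := s + 1) (by omega) (by omega) ha hb hmk (fun i => ?_) (hθ hbox)
    refine Fin.cases ?_ (fun i => ?_) i
    · unfold two
      rw [Fin.cons_zero]
      exact hb1
    · refine Fin.cases ?_ (fun j => ?_) i
      · unfold two
        rw [Fin.cons_succ, Fin.cons_zero]
        exact hb2
      · unfold two
        rw [Fin.cons_succ, Fin.cons_succ]
        exact hbox j (Set.mem_univ j)
  refine (ae_all_iff.2 h1).mono fun θ hθ hpos => ?_
  obtain ⟨c, hc⟩ := exists_nat_ge (∑ i, (θ i + 1 / θ i) + (l₁ + 1 / l₁) + (l₂ + 1 / l₂))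
  have hS : 0 ≤ ∑ i, (θ i + 1 / θ i) :=
    sum_nonneg fun i _ => add_nonneg (hpos i).le (one_div_nonneg.2 (hpos i).le)
  have hl1 : 0 < 1 / l₁ := by positivity
  have hl2 : 0 < 1 / l₂ := by positivity
  have key : ∀ u : ℝ, 0 < u → u + 1 / u ≤ c → u ∈ Set.Icc (1 / ((c : ℝ) + 1)) ((c : ℝ) + 1) := by
    intro u hu h3
    have h5 : 0 < 1 / u := by positivity
    constructor
    · rw [div_le_iff₀ (by positivity)]
      have h6 : 1 / u ≤ (c : ℝ) + 1 := by linarith
      rw [div_le_iff₀ hu] at h6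
      linarith
    · linarith
  refine hθ c (fun i _ => key _ (hpos i) ?_) (key _ hl₁ (by linarith)) (key _ hl₂ (by linarith))
  have h3 : θ i + 1 / θ i ≤ ∑ i, (θ i + 1 / θ i) :=
    single_le_sum (f := fun i => θ i + 1 / θ i)
      (fun i _ => add_nonneg (hpos i).le (one_div_nonneg.2 (hpos i).le)) (mem_univ i)
  linarith

end Pool.Agent.H164.GW
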